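import Pool.Agent.Helper41.NI.Walk

/-!
# Marginals of a block process built from kernels with a fixed marginal
-/

namespace Pool.Agent.Helper41.NI

open Finset MeasureTheory ProbabilityTheory Preorder
open scoped ENNReal

/-- Histories up to block `n`. -/
abbrev Hst (n : ℕ) := (i : Finset.Iic n) → Str × Str

variable (κ : (n : ℕ) → Kernel (Hst n) (Str × Str)) [∀ n, IsMarkovKernel (κ n)]

/-- The law of the block process. -/
noncomputable def mu : Measure (ℕ → Str × Str) :=
  Kernel.trajMeasure (X := fun _ => Str × Str) (PP.prod PP) κ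

instance : IsProbabilityMeasure (mu κ) := by unfold mu; infer_instance

lemma mu_zero : (mu κ).map (fun ω => ω 0) = PP.prod PP := by
  have h1 : (mu κ).map (frestrictLe (π := fun _ => Str × Str) 0)
      = (PP.prod PP).map (MeasurableEquiv.piUnique (fun _ : Finset.Iic 0 => Str × Str)).symm := by
    unfold mu Kernel.trajMeasure
    rw [Measure.map_comp _ _ (by fun_prop), Kernel.traj_map_frestrictLe, Kernel.partialTraj_self]
    exact Measure.id_comp
  have h2 : (fun ω : ℕ → Str × Str => ω 0) = (fun h : Hst 0 => h ⟨0, by simp⟩) ∘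
      (frestrictLe (π := fun _ => Str × Str) 0) := rfl
  rw [h2, ← Measure.map_map (by fun_prop) (by fun_prop), h1, Measure.map_map (by fun_prop)
    (by fun_prop)]
  have h3 : ((fun h : Hst 0 => h ⟨0, by simp⟩) ∘
      (MeasurableEquiv.piUnique (fun _ : Finset.Iic 0 => Str × Str)).symm) = id := by
    funext w
    rfl
  rw [h3, Measure.map_id]

lemma lintegral_mu_succ (n : ℕ) {F : Hst n × (Str × Str) → ℝ≥0∞} (hF : Measurable F) :
    ∫⁻ ω, F (frestrictLe (π := fun _ => Str × Str) n ω, ω (n + 1)) ∂(mu κ)
      = ∫⁻ h, ∫⁻ w, F (h, w) ∂(κ n h) ∂((mu κ).map (frestrictLe (π := fun _ => Str × Str) n)) := by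
  have h1 := Kernel.map_frestrictLe_trajMeasure_compProd_eq_map_trajMeasure
    (X := fun _ => Str × Str) (μ₀ := PP.prod PP) (κ := κ) (a := n)
  have h2 : ∫⁻ ω, F (frestrictLe (π := fun _ => Str × Str) n ω, ω (n + 1)) ∂(mu κ)
      = ∫⁻ p, F p ∂((mu κ).map (fun ω => (frestrictLe (π := fun _ => Str × Str) n ω, ω (n + 1)))) := by
    rw [lintegral_map hF (by fun_prop)]
  rw [h2]
  unfold mu
  rw [← h1, Measure.lintegral_compProd hF]

variable {κ}

lemma mu_box {π : Str × Str → Str} (hπ : Measurable π) (h0 : (PP.prod PP).map π = PP)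
    (hκ : ∀ n h, (κ n h).map π = PP) (t : ℕ → Set Str) (ht : ∀ i, MeasurableSet (t i)) (n : ℕ) :
    (mu κ) {ω | ∀ i ≤ n, π (ω i) ∈ t i} = ∏ i ∈ Finset.range (n + 1), PP (t i) := by
  induction n with
  | zero =>
    have h1 : {ω : ℕ → Str × Str | ∀ i ≤ 0, π (ω i) ∈ t i} = (fun ω => ω 0) ⁻¹' (π ⁻¹' (t 0)) := by
      ext ω
      simp
    rw [h1, ← Measure.map_apply (by fun_prop) (hπ (ht 0)), mu_zero,
      ← Measure.map_apply hπ (ht 0), h0]
    simp
  | succ n ih =>
    set S : Set (Hst n) := {h | ∀ i : Finset.Iic n, π (h i) ∈ t i} with hS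
    have hSm : MeasurableSet S := by
      have : S = ⋂ i : Finset.Iic n, (fun h : Hst n => h i) ⁻¹' (π ⁻¹' (t i)) := by
        ext h; simp [hS]
      rw [this]
      exact MeasurableSet.iInter (fun i => (measurable_pi_apply i) (hπ (ht i)))
    set F : Hst n × (Str × Str) → ℝ≥0∞ := (S ×ˢ (π ⁻¹' (t (n + 1)))).indicator 1 with hF
    have hFm : Measurable F := measurable_one.indicator (hSm.prod (hπ (ht (n + 1))))
    have h1 : (mu κ) {ω | ∀ i ≤ n + 1, π (ω i) ∈ t i} =
        ∫⁻ ω, F (frestrictLe (π := fun _ => Str × Str) n ω, ω (n + 1)) ∂(mu κ) := by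
      have hm : MeasurableSet {ω : ℕ → Str × Str | ∀ i ≤ n + 1, π (ω i) ∈ t i} := by
        have : {ω : ℕ → Str × Str | ∀ i ≤ n + 1, π (ω i) ∈ t i}
            = ⋂ i ∈ Finset.range (n + 2), (fun ω : ℕ → Str × Str => ω i) ⁻¹' (π ⁻¹' (t i)) := by
          ext ω
          simp [Nat.lt_succ_iff]
        rw [this]
        exact Finset.measurableSet_biInter _ (fun i _ => (measurable_pi_apply i) (hπ (ht i)))
      rw [← lintegral_indicator_one hm]
      apply lintegral_congr
      intro ω
      rw [hF]
      by_cases hω : ∀ i ≤ n + 1, π (ω i) ∈ t i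
      · rw [Set.indicator_of_mem (by exact hω), Set.indicator_of_mem]
        · rfl
        · refine ⟨?_, hω (n + 1) le_rfl⟩
          intro i
          exact hω i ((Finset.mem_Iic.mp i.2).trans (Nat.le_succ n))
      · rw [Set.indicator_of_notMem (by exact hω), Set.indicator_of_notMem]
        rintro ⟨ha, hb⟩
        apply hω
        intro i hi
        rcases Nat.lt_or_ge i (n + 1) with h | h
        · exact ha ⟨i, Finset.mem_Iic.mpr (by omega)⟩
        · have : i = n + 1 := by omega
          rw [this]
          exact hb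
    rw [h1, lintegral_mu_succ κ n hFm]
    have h2 : ∀ h : Hst n, ∫⁻ w, F (h, w) ∂(κ n h) = S.indicator 1 h * PP (t (n + 1)) := by
      intro h
      have e : (fun w => F (h, w)) = fun w => S.indicator 1 h * (π ⁻¹' (t (n + 1))).indicator 1 w := by
        funext w
        rw [hF]
        by_cases ha : h ∈ S
        · by_cases hb : w ∈ π ⁻¹' (t (n + 1))
          · rw [Set.indicator_of_mem (show (h, w) ∈ S ×ˢ (π ⁻¹' (t (n + 1))) from ⟨ha, hb⟩),
              Set.indicator_of_mem ha, Set.indicator_of_mem hb]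
            simp
          · rw [Set.indicator_of_notMem (fun hh => hb hh.2), Set.indicator_of_notMem hb]
            simp
        · rw [Set.indicator_of_notMem (fun hh => ha hh.1), Set.indicator_of_notMem ha]
          simp
      rw [e, lintegral_const_mul _ (measurable_one.indicator (hπ (ht (n + 1)))),
        lintegral_indicator_one (hπ (ht (n + 1))), ← Measure.map_apply hπ (ht (n + 1)), hκ]
    rw [lintegral_congr h2, lintegral_mul_const _ (measurable_one.indicator hSm),
      lintegral_indicator_one hSm, Measure.map_apply (by fun_prop) hSm,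
      Finset.prod_range_succ, ← ih]
    congr 2
    ext ω
    simp only [hS, Set.mem_preimage, Set.mem_setOf_eq]
    constructor
    · intro h i hi
      exact h ⟨i, Finset.mem_Iic.mpr hi⟩
    · intro h i
      exact h i (Finset.mem_Iic.mp i.2)

lemma mu_map_eq {π : Str × Str → Str} (hπ : Measurable π) (h0 : (PP.prod PP).map π = PP)
    (hκ : ∀ n h, (κ n h).map π = PP) :
    (mu κ).map (fun ω k => π (ω k)) = Measure.infinitePi (fun _ : ℕ => PP) := by
  refine Measure.eq_infinitePi _ (fun s t ht => ?_)
  classical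
  rw [Measure.map_apply (by fun_prop) (MeasurableSet.pi s.countable_toSet (fun _ _ => ht _))]
  set t' : ℕ → Set Str := fun i => if i ∈ s then t i else Set.univ with ht'
  have ht'm : ∀ i, MeasurableSet (t' i) := by
    intro i
    simp only [ht']
    split_ifs
    · exact ht i
    · exact MeasurableSet.univ
  set n := s.sup id with hn
  have hle : ∀ i ∈ s, i ≤ n := fun i hi => Finset.le_sup (f := id) hi
  have h1 : (fun ω : ℕ → Str × Str => fun k => π (ω k)) ⁻¹' ((s : Set ℕ).pi t)
      = {ω | ∀ i ≤ n, π (ω i) ∈ t' i} := by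
    ext ω
    simp only [Set.mem_preimage, Set.mem_pi, Set.mem_setOf_eq, ht']
    constructor
    · intro h i _
      split_ifs with hi
      · exact h i hi
      · trivial
    · intro h i hi
      have := h i (hle i hi)
      rwa [if_pos (by exact_mod_cast hi)] at this
  rw [h1, mu_box hπ h0 hκ t' ht'm n]
  have hsub : s ⊆ Finset.range (n + 1) := fun i hi => Finset.mem_range.mpr (by
    have := hle i hi; omega)
  rw [← Finset.prod_subset hsub]
  · refine Finset.prod_congr rfl (fun i hi => ?_)
    simp only [ht', if_pos hi]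
  · intro i _ hi
    simp only [ht', if_neg hi, measure_univ]

lemma mu_array {π : Str × Str → Str} (hπ : Measurable π) (h0 : (PP.prod PP).map π = PP)
    (hκ : ∀ n h, (κ n h).map π = PP) :
    (mu κ).map (fun ω (p : ℕ × ℕ) => π (ω p.1) p.2)
      = Measure.infinitePi (fun _ : ℕ × ℕ => stpLaw) := by
  rw [← Measure.infinitePi_map_curry_symm (fun _ _ => stpLaw)]
  have h1 := mu_map_eq hπ h0 hκ
  unfold PP at h1
  rw [← h1, Measure.map_map (by fun_prop) (by fun_prop)]
  rfl

/-- Any injective enumeration of the steps gives a stream with the right law. -/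
lemma mu_stream {π : Str × Str → Str} (hπ : Measurable π) (h0 : (PP.prod PP).map π = PP)
    (hκ : ∀ n h, (κ n h).map π = PP) {idx : ℕ → ℕ × ℕ} (hidx : Function.Injective idx) :
    (mu κ).map (fun ω t => π (ω (idx t).1) (idx t).2) = PP := by
  have h1 := mu_array hπ h0 hκ
  have h2 := Measure.map_infinitePi_infinitePi_of_inj (P := fun _ : ℕ × ℕ => stpLaw) hidx
  rw [← h1, Measure.map_map (by fun_prop) (by fun_prop)] at h2
  exact h2

end Pool.Agent.Helper41.NI
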