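import Pool.Agent.Helper41.NI.Step
import Pool.Agent.Helper41.NI.Chain

/-!
# Assembling the blocks
-/

namespace Pool.Agent.Helper41.NI

open Finset MeasureTheory ProbabilityTheory Preorder
open scoped ENNReal

/-! ### Concatenation of blocks -/

/-- Starting times of the blocks. -/
def tau (bl : ℕ → ℕ) (k : ℕ) : ℕ := ∑ i ∈ Finset.range k, bl i

lemma tau_succ (bl : ℕ → ℕ) (k : ℕ) : tau bl (k + 1) = tau bl k + bl k := by
  unfold tau; rw [Finset.sum_range_succ]

/-- The block and the position in the block of each time. -/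
def idx (bl : ℕ → ℕ) : ℕ → ℕ × ℕ
  | 0 => (0, 0)
  | t + 1 => if (idx bl t).2 + 1 < bl (idx bl t).1 then ((idx bl t).1, (idx bl t).2 + 1)
      else ((idx bl t).1 + 1, 0)

lemma idx_inv {bl : ℕ → ℕ} (h : ∀ k, 1 ≤ bl k) (t : ℕ) :
    tau bl (idx bl t).1 + (idx bl t).2 = t ∧ (idx bl t).2 < bl (idx bl t).1 := by
  induction t with
  | zero => simp [idx, tau]; exact h 0
  | succ t ih =>
    obtain ⟨h1, h2⟩ := ih
    unfold idx
    split_ifs with hc
    · exact ⟨by simp only; omega, hc⟩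
    · refine ⟨?_, h _⟩
      simp only
      rw [tau_succ]
      omega

lemma tau_mono (bl : ℕ → ℕ) {a b : ℕ} (h : a ≤ b) : tau bl a ≤ tau bl b := by
  unfold tau
  exact Finset.sum_le_sum_of_subset (Finset.range_mono h)

lemma tau_unique {bl : ℕ → ℕ} {k k' j j' : ℕ} (hj : j < bl k) (hj' : j' < bl k')
    (h : tau bl k + j = tau bl k' + j') : k = k' ∧ j = j' := by
  rcases lt_trichotomy k k' with hk | hk | hk
  · have := tau_mono bl (Nat.succ_le_of_lt hk)
    rw [Nat.succ_eq_add_one, tau_succ] at this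
    omega
  · subst hk; exact ⟨rfl, by omega⟩
  · have := tau_mono bl (Nat.succ_le_of_lt hk)
    rw [Nat.succ_eq_add_one, tau_succ] at this
    omega

lemma idx_tau {bl : ℕ → ℕ} (h : ∀ k, 1 ≤ bl k) {k j : ℕ} (hj : j < bl k) :
    idx bl (tau bl k + j) = (k, j) := by
  obtain ⟨h1, h2⟩ := idx_inv h (tau bl k + j)
  obtain ⟨h3, h4⟩ := tau_unique h2 hj h1
  exact Prod.ext h3 h4

lemma idx_injective {bl : ℕ → ℕ} (h : ∀ k, 1 ≤ bl k) : Function.Injective (idx bl) := by
  intro s t hst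
  rw [← (idx_inv h s).1, ← (idx_inv h t).1, hst]

/-- Concatenation of the blocks. -/
def cat (bl : ℕ → ℕ) (b : ℕ → Str) : Str := fun t => b (idx bl t).1 (idx bl t).2

lemma SS_cat {bl : ℕ → ℕ} (h : ∀ k, 1 ≤ bl k) (b : ℕ → Str) {k j : ℕ} (hj : j ≤ bl k) :
    SS (tau bl k + j) (cat bl b) = SS (tau bl k) (cat bl b) + SS j (b k) := by
  rw [SS_add]
  congr 1
  apply Dep_SS le_rfl
  intro i hi
  show cat bl b (i + tau bl k) = b k i
  unfold cat
  rw [add_comm, idx_tau h (by omega)]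

lemma pathF_cat {bl : ℕ → ℕ} (h : ∀ k, 1 ≤ bl k) (b : ℕ → Str) (k : ℕ) (x : V4) :
    pathF x (tau bl (k + 1)) (cat bl b) = pathF x (tau bl k) (cat bl b) ∪
      pathF (x + SS (tau bl k) (cat bl b)) (bl k) (b k) := by
  ext z
  rw [Finset.mem_union, mem_pathF, mem_pathF, mem_pathF, tau_succ]
  constructor
  · rintro ⟨m, hm, hz⟩
    rcases Nat.lt_or_ge m (tau bl k) with h1 | h1
    · left; exact ⟨m, h1.le, hz⟩
    · right
      obtain ⟨j, rfl⟩ := Nat.exists_eq_add_of_le h1
      refine ⟨j, by omega, ?_⟩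
      rw [add_assoc, ← SS_cat h b (by omega : j ≤ bl k)]
      exact hz
  · rintro (⟨m, hm, hz⟩ | ⟨j, hj, hz⟩)
    · exact ⟨m, by omega, hz⟩
    · refine ⟨tau bl k + j, by omega, ?_⟩
      rw [SS_cat h b hj, ← add_assoc]
      exact hz

/-! ### The state process -/

open Classical in
/-- The state after the initial block. -/
noncomputable def start (x0 y0 : V4) (i0 : Fin 4) (T0 : ℕ) (w : Str × Str) : St :=
  if ∀ i < T0, w.1 i = (i0, false) ∧ w.2 i = (i0, true) then
    .live (x0 + SS T0 w.1) (y0 + SS T0 w.2) (pathF x0 T0 w.1) (pathF y0 T0 w.2)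
  else .dead

/-- The state after block `n`. -/
noncomputable def stt (x0 y0 : V4) (i0 : Fin 4) (T0 : ℕ) (len : ℕ → ℕ) (rho : ℕ → ℝ) :
    ℕ → (ℕ → Str × Str) → St
  | 0, ω => start x0 y0 i0 T0 (ω 0)
  | n + 1, ω => nxt len rho n (stt x0 y0 i0 T0 len rho n ω) (ω (n + 1))

/-- Block lengths. -/
def blen (T0 : ℕ) (len : ℕ → ℕ) : ℕ → ℕ
  | 0 => T0
  | n + 1 => len n

lemma Dep2_start (x0 y0 : V4) (i0 : Fin 4) (T0 : ℕ) : Dep2 T0 (start x0 y0 i0 T0) := by
  intro w w' h1 h2
  unfold start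
  have hiff : (∀ i < T0, w.1 i = (i0, false) ∧ w.2 i = (i0, true)) ↔
      (∀ i < T0, w'.1 i = (i0, false) ∧ w'.2 i = (i0, true)) := by
    constructor
    · intro h i hi; rw [← h1 i hi, ← h2 i hi]; exact h i hi
    · intro h i hi; rw [h1 i hi, h2 i hi]; exact h i hi
  rw [Dep_pathF le_rfl x0 _ _ h1, Dep_pathF le_rfl y0 _ _ h2, Dep_SS le_rfl _ _ h1,
      Dep_SS le_rfl _ _ h2]
  by_cases hc : ∀ i < T0, w'.1 i = (i0, false) ∧ w'.2 i = (i0, true)
  · rw [if_pos hc, if_pos (hiff.mpr hc)]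
  · rw [if_neg hc, if_neg (fun hh => hc (hiff.mp hh))]

lemma measurable_nxt (len : ℕ → ℕ) (rho : ℕ → ℝ) (n : ℕ) :
    Measurable (fun p : St × (Str × Str) => nxt len rho n p.1 p.2) :=
  measurable_from_prod_countable_right (fun σ => (Dep2_nxt len rho n σ).measurable)

lemma measurable_stt (x0 y0 : V4) (i0 : Fin 4) (T0 : ℕ) (len : ℕ → ℕ) (rho : ℕ → ℝ) (n : ℕ) :
    Measurable (stt x0 y0 i0 T0 len rho n) := by
  induction n with
  | zero => exact (Dep2_start x0 y0 i0 T0).measurable.comp (measurable_pi_apply 0)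
  | succ n ih =>
    exact (measurable_nxt len rho n).comp (ih.prodMk (measurable_pi_apply (n + 1)))

lemma stt_congr (x0 y0 : V4) (i0 : Fin 4) (T0 : ℕ) (len : ℕ → ℕ) (rho : ℕ → ℝ) (n : ℕ) {ω ω' : ℕ → Str × Str}
    (h : ∀ i ≤ n, ω i = ω' i) : stt x0 y0 i0 T0 len rho n ω = stt x0 y0 i0 T0 len rho n ω' := by
  induction n with
  | zero => unfold stt; rw [h 0 le_rfl]
  | succ n ih =>
    unfold stt
    rw [ih (fun i hi => h i (by omega)), h (n + 1) le_rfl]

/-- Extend a history. -/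
def exth (n : ℕ) (h : Hst n) : ℕ → Str × Str := fun i =>
  if hi : i ∈ Finset.Iic n then h ⟨i, hi⟩ else (fun _ => (0, true), fun _ => (0, true))

lemma measurable_exth (n : ℕ) : Measurable (exth n) := by
  apply measurable_pi_lambda
  intro i
  unfold exth
  by_cases hi : i ∈ Finset.Iic n
  · simp only [hi, dite_true]
    exact measurable_pi_apply _
  · simp only [hi, dite_false]
    exact measurable_const

lemma stt_exth (x0 y0 : V4) (i0 : Fin 4) (T0 : ℕ) (len : ℕ → ℕ) (rho : ℕ → ℝ) (n : ℕ) (ω : ℕ → Str × Str) :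
    stt x0 y0 i0 T0 len rho n (exth n (frestrictLe (π := fun _ => Str × Str) n ω))
      = stt x0 y0 i0 T0 len rho n ω := by
  apply stt_congr
  intro i hi
  unfold exth
  simp [hi]

/-- The kernel giving the next pair of blocks. -/
noncomputable def kap (x0 y0 : V4) (i0 : Fin 4) (T0 : ℕ) (len : ℕ → ℕ) (rho : ℕ → ℝ) (n : ℕ) :
    Kernel (Hst n) (Str × Str) where
  toFun h := rker len n (stt x0 y0 i0 T0 len rho n (exth n h))
  measurable' := (Measurable.of_discrete (f := rker len n)).comp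
    ((measurable_stt x0 y0 i0 T0 len rho n).comp (measurable_exth n))

instance (x0 y0 : V4) (i0 : Fin 4) (T0 : ℕ) (len : ℕ → ℕ) (rho : ℕ → ℝ) (n : ℕ) : IsMarkovKernel (kap x0 y0 i0 T0 len rho n) :=
  ⟨fun h => inferInstanceAs (IsProbabilityMeasure (rker len n (stt x0 y0 i0 T0 len rho n (exth n h))))⟩

lemma kap_apply (x0 y0 : V4) (i0 : Fin 4) (T0 : ℕ) (len : ℕ → ℕ) (rho : ℕ → ℝ) (n : ℕ) (h : Hst n) :
    kap x0 y0 i0 T0 len rho n h = rker len n (stt x0 y0 i0 T0 len rho n (exth n h)) := rfl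

section chain

variable (x0 y0 : V4) (i0 : Fin 4) (T0 : ℕ) (len N : ℕ → ℕ) (rho er : ℕ → ℝ) (hN : ∀ n, 1 ≤ N n)
    (hNL : ∀ n, N n ≤ len n + 2) (hrho : ∀ n, 0 ≤ rho n) (her : ∀ n, 0 ≤ er n)
    (H : ∀ n x y, rho n ≤ nsq (x - y) → errB len N rho n x y + er (n + 1) ≤ er n)

include hN hNL hrho her H

lemma val_chain (n : ℕ) :
    ∫⁻ ω, val rho er (n + 1) (stt x0 y0 i0 T0 len rho (n + 1) ω) ∂(mu (kap x0 y0 i0 T0 len rho)) ≤
      ∫⁻ ω, val rho er n (stt x0 y0 i0 T0 len rho n ω) ∂(mu (kap x0 y0 i0 T0 len rho)) := by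
  have hval : ∀ m, Measurable (val rho er m) := fun m => Measurable.of_discrete
  set F : Hst n × (Str × Str) → ℝ≥0∞ := fun p =>
    val rho er (n + 1) (nxt len rho n (stt x0 y0 i0 T0 len rho n (exth n p.1)) p.2) with hF
  have hFm : Measurable F := (hval (n + 1)).comp ((measurable_nxt len rho n).comp
    ((((measurable_stt x0 y0 i0 T0 len rho n).comp (measurable_exth n)).comp measurable_fst).prodMk
      measurable_snd))
  have h1 : ∫⁻ ω, val rho er (n + 1) (stt x0 y0 i0 T0 len rho (n + 1) ω) ∂(mu (kap x0 y0 i0 T0 len rho))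
      = ∫⁻ ω, F (frestrictLe (π := fun _ => Str × Str) n ω, ω (n + 1))
        ∂(mu (kap x0 y0 i0 T0 len rho)) := by
    apply lintegral_congr
    intro ω
    rw [hF]
    simp only [stt_exth]
    rfl
  rw [h1, lintegral_mu_succ _ n hFm]
  have h2 : ∀ h : Hst n, ∫⁻ w, F (h, w) ∂(kap x0 y0 i0 T0 len rho n h) ≤
      val rho er n (stt x0 y0 i0 T0 len rho n (exth n h)) := by
    intro h
    rw [kap_apply]
    exact step_ineq len N rho er hN hNL hrho her H n _
  refine (lintegral_mono h2).trans (le_of_eq ?_)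
  have hm2 : Measurable (fun h : Hst n => val rho er n (stt x0 y0 i0 T0 len rho n (exth n h))) :=
    (hval n).comp ((measurable_stt x0 y0 i0 T0 len rho n).comp (measurable_exth n))
  rw [lintegral_map hm2 (by fun_prop)]
  apply lintegral_congr
  intro ω
  rw [stt_exth]

lemma val_chain' (n : ℕ) :
    ∫⁻ ω, val rho er n (stt x0 y0 i0 T0 len rho n ω) ∂(mu (kap x0 y0 i0 T0 len rho)) ≤
      ∫⁻ w, val rho er 0 (start x0 y0 i0 T0 w) ∂(PP.prod PP) := by
  induction n with
  | zero =>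
    have hm : Measurable (fun w => val rho er 0 (start x0 y0 i0 T0 w)) :=
      (Measurable.of_discrete (f := val rho er 0)).comp (Dep2_start x0 y0 i0 T0).measurable
    rw [← mu_zero (kap x0 y0 i0 T0 len rho), lintegral_map hm (by fun_prop)]
    exact le_rfl
  | succ n ih =>
    exact (val_chain x0 y0 i0 T0 len N rho er hN hNL hrho her H n).trans ih

lemma prob_dead (n : ℕ) :
    (mu (kap x0 y0 i0 T0 len rho)) {ω | stt x0 y0 i0 T0 len rho n ω = .dead} ≤
      ∫⁻ w, val rho er 0 (start x0 y0 i0 T0 w) ∂(PP.prod PP) := by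
  refine le_trans ?_ (val_chain' x0 y0 i0 T0 len N rho er hN hNL hrho her H n)
  have hm : MeasurableSet {ω | stt x0 y0 i0 T0 len rho n ω = .dead} :=
    (measurable_stt x0 y0 i0 T0 len rho n) (MeasurableSet.of_discrete (s := {St.dead}))
  rw [← lintegral_indicator_one hm]
  apply lintegral_mono
  intro ω
  by_cases h : stt x0 y0 i0 T0 len rho n ω = .dead
  · show ({ω | stt x0 y0 i0 T0 len rho n ω = .dead} : Set (ℕ → Str × Str)).indicator 1 ω ≤ _
    rw [Set.indicator_of_mem (by exact h)]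
    show (1 : ℝ≥0∞) ≤ val rho er n (stt x0 y0 i0 T0 len rho n ω)
    rw [h]
    exact le_rfl
  · show ({ω | stt x0 y0 i0 T0 len rho n ω = .dead} : Set (ℕ → Str × Str)).indicator 1 ω ≤ _
    rw [Set.indicator_of_notMem (by exact h)]
    exact zero_le

end chain

/-! ### Invariants of the state process -/

lemma coord_pathF {z : V4} {T : ℕ} {u : Str} (x : V4) {i0 : Fin 4} {b : Bool}
    (hu : ∀ i < T, u i = (i0, b)) (hz : z ∈ pathF x T u) :
    ∃ m ≤ T, z = x + Pi.single i0 (if b then (m : ℤ) else -(m : ℤ)) := by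
  obtain ⟨m, hm, hz⟩ := mem_pathF.mp hz
  refine ⟨m, hm, ?_⟩
  rw [← hz]
  congr 1
  clear hz
  induction m with
  | zero => simp [SS_zero]
  | succ m ih =>
    rw [SS_succ, ih (by omega), hu m (by omega)]
    unfold vec
    rw [← Pi.single_add]
    congr 1
    cases b <;> simp <;> ring

lemma SS_straight {T : ℕ} {u : Str} {i0 : Fin 4} {b : Bool} (hu : ∀ i < T, u i = (i0, b)) :
    SS T u = Pi.single i0 (if b then (T : ℤ) else -(T : ℤ)) := by
  induction T with
  | zero => simp [SS_zero]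
  | succ m ih =>
    rw [SS_succ, ih (fun i hi => hu i (by omega)), hu m (by omega)]
    unfold vec
    rw [← Pi.single_add]
    congr 1
    cases b <;> simp <;> ring

lemma start_disjoint {x0 y0 : V4} {i0 : Fin 4} (hxy : x0 i0 < y0 i0) {T0 : ℕ} {w : Str × Str}
    (h : ∀ i < T0, w.1 i = (i0, false) ∧ w.2 i = (i0, true)) :
    Disjoint (pathF x0 T0 w.1) (pathF y0 T0 w.2) := by
  rw [Finset.disjoint_left]
  intro z hz1 hz2
  obtain ⟨m, _, h1⟩ := coord_pathF x0 (fun i hi => (h i hi).1) hz1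
  obtain ⟨m', _, h2⟩ := coord_pathF y0 (fun i hi => (h i hi).2) hz2
  have h3 := congrFun h1 i0
  have h4 := congrFun h2 i0
  simp at h3 h4
  omega

lemma stt_inv (x0 y0 : V4) (i0 : Fin 4) (hxy : x0 i0 < y0 i0) (T0 : ℕ) (len : ℕ → ℕ) (rho : ℕ → ℝ) (hbl : ∀ k, 1 ≤ blen T0 len k) (n : ℕ)
    (ω : ℕ → Str × Str) {x y : V4} {A B : Finset V4}
    (h : stt x0 y0 i0 T0 len rho n ω = .live x y A B) :
    x = x0 + SS (tau (blen T0 len) (n + 1)) (cat (blen T0 len) (fun k => (ω k).1)) ∧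
    y = y0 + SS (tau (blen T0 len) (n + 1)) (cat (blen T0 len) (fun k => (ω k).2)) ∧
    A = pathF x0 (tau (blen T0 len) (n + 1)) (cat (blen T0 len) (fun k => (ω k).1)) ∧
    B = pathF y0 (tau (blen T0 len) (n + 1)) (cat (blen T0 len) (fun k => (ω k).2)) ∧
    Disjoint A B := by
  induction n generalizing x y A B with
  | zero =>
    have h' : start x0 y0 i0 T0 (ω 0) = .live x y A B := h
    unfold start at h'
    split_ifs at h' with hc
    · rw [St.live.injEq] at h'
      obtain ⟨h1, h2, h3, h4⟩ := h'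
      have e0 : tau (blen T0 len) 0 = 0 := by simp [tau]
      have e1 : tau (blen T0 len) (0 + 1) = tau (blen T0 len) 0 + T0 := by
        rw [tau_succ]; rfl
      have e2 : ∀ b : ℕ → Str, SS (tau (blen T0 len) (0 + 1)) (cat (blen T0 len) b)
          = SS T0 (b 0) := by
        intro b
        rw [e1, SS_cat hbl b (show T0 ≤ blen T0 len 0 from le_rfl), e0, SS_zero, zero_add]
      have e3 : ∀ (z : V4) (b : ℕ → Str), pathF z (tau (blen T0 len) (0 + 1))
          (cat (blen T0 len) b) = pathF z T0 (b 0) := by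
        intro z b
        rw [pathF_cat hbl b 0 z, e0, SS_zero, add_zero]
        have : pathF z 0 (cat (blen T0 len) b) ⊆ pathF z (blen T0 len 0) (b 0) := by
          intro q hq
          obtain ⟨m, hm, hq⟩ := mem_pathF.mp hq
          have : m = 0 := by omega
          subst this
          rw [mem_pathF]
          exact ⟨0, by omega, by rw [SS_zero] at hq ⊢; exact hq⟩
        rw [Finset.union_eq_right.mpr this]
        rfl
      rw [e2, e2, e3, e3, ← h1, ← h2, ← h3, ← h4]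
      exact ⟨rfl, rfl, rfl, rfl, start_disjoint hxy hc⟩
  | succ n ih =>
    have h' : nxt len rho n (stt x0 y0 i0 T0 len rho n ω) (ω (n + 1)) = .live x y A B := h
    cases hs : stt x0 y0 i0 T0 len rho n ω with
    | dead =>
      rw [hs] at h'
      exact absurd h' (by simp [nxt])
    | live x' y' A' B' =>
      obtain ⟨i1, i2, i3, i4, i5⟩ := ih hs
      rw [hs] at h'
      by_cases hc : Disjoint (A' ∪ pathF x' (len n) (ω (n + 1)).1)
          (B' ∪ pathF y' (len n) (ω (n + 1)).2) ∧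
        rho (n + 1) ≤ nsq ((x' + SS (len n) (ω (n + 1)).1) - (y' + SS (len n) (ω (n + 1)).2))
      · rw [nxt_live_pos hc, St.live.injEq] at h'
        obtain ⟨h1, h2, h3, h4⟩ := h'
        have e1 : ∀ b : ℕ → Str, SS (tau (blen T0 len) (n + 1 + 1)) (cat (blen T0 len) b)
            = SS (tau (blen T0 len) (n + 1)) (cat (blen T0 len) b) + SS (len n) (b (n + 1)) := by
          intro b
          rw [tau_succ]
          exact SS_cat hbl b le_rfl
        refine ⟨?_, ?_, ?_, ?_, ?_⟩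
        · rw [e1, ← h1, i1, add_assoc]
        · rw [e1, ← h2, i2, add_assoc]
        · rw [pathF_cat hbl, ← h3, ← i3, ← i1]
          rfl
        · rw [pathF_cat hbl, ← h4, ← i4, ← i2]
          rfl
        · rw [← h3, ← h4]
          exact hc.1
      · rw [nxt_live_neg hc] at h'
        exact absurd h' (by simp)

lemma stt_dead_succ (x0 y0 : V4) (i0 : Fin 4) (T0 : ℕ) (len : ℕ → ℕ) (rho : ℕ → ℝ) (n : ℕ) (ω : ℕ → Str × Str)
    (h : stt x0 y0 i0 T0 len rho n ω = .dead) : stt x0 y0 i0 T0 len rho (n + 1) ω = .dead := by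
  show nxt len rho n (stt x0 y0 i0 T0 len rho n ω) (ω (n + 1)) = .dead
  rw [h]
  rfl

end Pool.Agent.Helper41.NI
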