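import Mathlib

/-!
# The swap coupling
-/

namespace Pool.Agent.Helper41.NI

open MeasureTheory ProbabilityTheory
open scoped ENNReal

section

variable {U W : Type*} [MeasurableSpace U] [MeasurableSpace W] (μ : Measure U) (ν : Measure W)
  [IsProbabilityMeasure μ] [IsProbabilityMeasure ν]

/-- The density of the swap coupling with respect to the product measure. -/
noncomputable def swapDens (D : Set (U × W)) (a : W → ℝ) (b : U → ℝ) (d : ℝ) (p : U × W) : ℝ :=
  (1 - D.indicator (fun _ => (1 : ℝ)) p) * ((1 - 2 * d) / (1 - d))
    + (b p.1 * (1 - a p.2) + (1 - b p.1) * a p.2) / (1 - d)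

/-- **Swap coupling.** If `D` is an event in a product of two probability spaces, then there is a
coupling of the two marginals that gives `D` mass at most twice the sum of the second moments of the
conditional probabilities of `D`, and that is dominated by three times the product measure. -/
theorem swap_coupling (D : Set (U × W)) (hD : MeasurableSet D) :
    ∃ r : Measure (U × W), r.map Prod.fst = μ ∧ r.map Prod.snd = ν ∧
      r D ≤ 2 * (∫⁻ v, (μ {u | (u, v) ∈ D}) ^ 2 ∂ν + ∫⁻ u, (ν {v | (u, v) ∈ D}) ^ 2 ∂μ) ∧
      r ≤ (3 : ℝ≥0∞) • (μ.prod ν) := by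
  set α : W → ℝ≥0∞ := fun v => μ {u | (u, v) ∈ D} with hα
  set β : U → ℝ≥0∞ := fun u => ν {v | (u, v) ∈ D} with hβ
  have hαm : Measurable α := measurable_measure_prodMk_right hD
  have hβm : Measurable β := measurable_measure_prodMk_left hD
  set a : W → ℝ := fun v => (α v).toReal with ha
  set b : U → ℝ := fun u => (β u).toReal with hb
  have ham : Measurable a := hαm.ennreal_toReal
  have hbm : Measurable b := hβm.ennreal_toReal
  have ha0 : ∀ v, 0 ≤ a v := fun v => ENNReal.toReal_nonneg
  have hb0 : ∀ u, 0 ≤ b u := fun u => ENNReal.toReal_nonneg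
  have ha1 : ∀ v, a v ≤ 1 := fun v =>
    ENNReal.toReal_le_of_le_ofReal (by norm_num) (by simpa using prob_le_one)
  have hb1 : ∀ u, b u ≤ 1 := fun u =>
    ENNReal.toReal_le_of_le_ofReal (by norm_num) (by simpa using prob_le_one)
  have hαa : ∀ v, α v = ENNReal.ofReal (a v) := fun v =>
    (ENNReal.ofReal_toReal (measure_ne_top _ _)).symm
  have hβb : ∀ u, β u = ENNReal.ofReal (b u) := fun u =>
    (ENNReal.ofReal_toReal (measure_ne_top _ _)).symm
  have hia : Integrable a ν := Integrable.of_bound ham.aestronglyMeasurable 1
    (by filter_upwards with v; rw [Real.norm_eq_abs, abs_of_nonneg (ha0 v)]; exact ha1 v)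
  have hib : Integrable b μ := Integrable.of_bound hbm.aestronglyMeasurable 1
    (by filter_upwards with v; rw [Real.norm_eq_abs, abs_of_nonneg (hb0 v)]; exact hb1 v)
  set d : ℝ := ∫ v, a v ∂ν with hd
  have hdα : (μ.prod ν) D = ENNReal.ofReal d := by
    rw [Measure.prod_apply_symm hD, hd, ofReal_integral_eq_lintegral_ofReal hia
      (by filter_upwards with v; exact ha0 v)]
    exact lintegral_congr (fun v => by rw [← hαa v]; rfl)
  have hdβ : d = ∫ u, b u ∂μ := by
    have h1 : (μ.prod ν) D = ENNReal.ofReal (∫ u, b u ∂μ) := by
      rw [Measure.prod_apply hD, ofReal_integral_eq_lintegral_ofReal hib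
        (by filter_upwards with v; exact hb0 v)]
      exact lintegral_congr (fun v => by rw [← hβb v]; rfl)
    rw [hdα] at h1
    have h2 : 0 ≤ d := integral_nonneg ha0
    have h3 : 0 ≤ ∫ u, b u ∂μ := integral_nonneg hb0
    exact (ENNReal.ofReal_eq_ofReal_iff h2 h3).mp h1
  have hd0 : 0 ≤ d := integral_nonneg ha0
  rcases le_or_gt d (1 / 2) with hdh | hdh
  · -- the interesting case
    have hd1 : 0 < 1 - d := by linarith
    set w : U × W → ℝ := swapDens D a b d with hw
    have hindm : Measurable (D.indicator (fun _ => (1 : ℝ))) := measurable_const.indicator hD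
    have hwm : Measurable w := by
      rw [hw]
      unfold swapDens
      have h1 : Measurable (fun p : U × W => a p.2) := ham.comp measurable_snd
      have h2 : Measurable (fun p : U × W => b p.1) := hbm.comp measurable_fst
      exact ((measurable_const.sub hindm).mul_const _).add
        (((h2.mul (measurable_const.sub h1)).add ((measurable_const.sub h2).mul h1)).div_const _)
    have hind0 : ∀ p, 0 ≤ D.indicator (fun _ => (1 : ℝ)) p :=
      fun p => Set.indicator_nonneg (fun _ _ => by norm_num) p
    have hind1 : ∀ p, D.indicator (fun _ => (1 : ℝ)) p ≤ 1 := by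
      intro p
      by_cases hp : p ∈ D
      · rw [Set.indicator_of_mem hp]
      · rw [Set.indicator_of_notMem hp]; norm_num
    have hq0 : 0 ≤ (1 - 2 * d) / (1 - d) := div_nonneg (by linarith) hd1.le
    have hq1 : (1 - 2 * d) / (1 - d) ≤ 1 := by rw [div_le_one hd1]; linarith
    have hs0 : ∀ p : U × W, 0 ≤ b p.1 * (1 - a p.2) + (1 - b p.1) * a p.2 := fun p =>
      add_nonneg (mul_nonneg (hb0 _) (by linarith [ha1 p.2]))
        (mul_nonneg (by linarith [hb1 p.1]) (ha0 _))
    have hs1 : ∀ p : U × W, b p.1 * (1 - a p.2) + (1 - b p.1) * a p.2 ≤ 1 := fun p => by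
      nlinarith [mul_nonneg (hb0 p.1) (ha0 p.2),
        mul_nonneg (sub_nonneg.mpr (hb1 p.1)) (sub_nonneg.mpr (ha1 p.2))]
    have hw0 : ∀ p, 0 ≤ w p := by
      intro p
      rw [hw]
      unfold swapDens
      have h1 := hs0 p
      have h2 : 0 ≤ 1 - D.indicator (fun _ => (1 : ℝ)) p := by linarith [hind1 p]
      positivity
    have hw3 : ∀ p, w p ≤ 3 := by
      intro p
      rw [hw]
      unfold swapDens
      have h1 : (1 - D.indicator (fun _ => (1 : ℝ)) p) * ((1 - 2 * d) / (1 - d)) ≤ 1 * 1 :=
        mul_le_mul (by linarith [hind0 p]) hq1 hq0 (by norm_num)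
      have h2 : (b p.1 * (1 - a p.2) + (1 - b p.1) * a p.2) / (1 - d) ≤ 2 := by
        rw [div_le_iff₀ hd1]
        have := hs1 p
        linarith
      linarith
    have hfst : ∀ u, ∫⁻ v, ENNReal.ofReal (w (u, v)) ∂ν = 1 := by
      intro u
      have hiD : Integrable (fun v => D.indicator (fun _ => (1 : ℝ)) (u, v)) ν := by
        refine Integrable.of_bound (hindm.comp measurable_prodMk_left).aestronglyMeasurable 1 ?_
        filter_upwards with v
        rw [Real.norm_eq_abs, abs_of_nonneg (hind0 _)]
        exact hind1 _
      have hI : ∫ v, D.indicator (fun _ => (1 : ℝ)) (u, v) ∂ν = b u := by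
        have e : (fun v => D.indicator (fun _ => (1 : ℝ)) (u, v))
            = ({v | (u, v) ∈ D} : Set W).indicator 1 := by
          funext v; rfl
        rw [e]
        exact integral_indicator_one (measurable_prodMk_left hD)
      have hint : Integrable (fun v => w (u, v)) ν := by
        refine Integrable.of_bound (hwm.comp measurable_prodMk_left).aestronglyMeasurable 3 ?_
        filter_upwards with v
        rw [Real.norm_eq_abs, abs_of_nonneg (hw0 _)]
        exact hw3 _
      rw [← ofReal_integral_eq_lintegral_ofReal hint (by filter_upwards with v; exact hw0 _)]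
      have e2 : ∫ v, w (u, v) ∂ν = 1 := by
        have e3 : (fun v => w (u, v)) = fun v => ((1 - 2 * d) / (1 - d) + b u / (1 - d))
            - ((1 - 2 * d) / (1 - d)) * D.indicator (fun _ => (1 : ℝ)) (u, v)
            + ((1 - 2 * b u) / (1 - d)) * a v := by
          funext v
          rw [hw]
          unfold swapDens
          ring
        have i0 : Integrable (fun _ : W => (1 - 2 * d) / (1 - d) + b u / (1 - d)) ν :=
          integrable_const _
        have i1 : Integrable (fun v => ((1 - 2 * d) / (1 - d)) *
            D.indicator (fun _ => (1 : ℝ)) (u, v)) ν := hiD.const_mul _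
        have i2 : Integrable (fun v => ((1 - 2 * d) / (1 - d) + b u / (1 - d))
            - ((1 - 2 * d) / (1 - d)) * D.indicator (fun _ => (1 : ℝ)) (u, v)) ν := i0.sub i1
        have i3 : Integrable (fun v => ((1 - 2 * b u) / (1 - d)) * a v) ν := hia.const_mul _
        rw [e3, integral_add i2 i3, integral_sub i0 i1, integral_const_mul,
          integral_const_mul, hI, ← hd]
        simp only [integral_const, probReal_univ, smul_eq_mul, one_mul]
        field_simp
        ring
      rw [e2]
      simp
    have hsnd : ∀ v, ∫⁻ u, ENNReal.ofReal (w (u, v)) ∂μ = 1 := by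
      intro v
      have hiD : Integrable (fun u => D.indicator (fun _ => (1 : ℝ)) (u, v)) μ := by
        refine Integrable.of_bound (hindm.comp measurable_prodMk_right).aestronglyMeasurable 1 ?_
        filter_upwards with v
        rw [Real.norm_eq_abs, abs_of_nonneg (hind0 _)]
        exact hind1 _
      have hI : ∫ u, D.indicator (fun _ => (1 : ℝ)) (u, v) ∂μ = a v := by
        have e : (fun u => D.indicator (fun _ => (1 : ℝ)) (u, v))
            = ({u | (u, v) ∈ D} : Set U).indicator 1 := by
          funext v; rfl
        rw [e]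
        exact integral_indicator_one (measurable_prodMk_right hD)
      have hint : Integrable (fun u => w (u, v)) μ := by
        refine Integrable.of_bound (hwm.comp measurable_prodMk_right).aestronglyMeasurable 3 ?_
        filter_upwards with v
        rw [Real.norm_eq_abs, abs_of_nonneg (hw0 _)]
        exact hw3 _
      rw [← ofReal_integral_eq_lintegral_ofReal hint (by filter_upwards with v; exact hw0 _)]
      have e2 : ∫ u, w (u, v) ∂μ = 1 := by
        have e3 : (fun u => w (u, v)) = fun u => ((1 - 2 * d) / (1 - d) + a v / (1 - d))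
            - ((1 - 2 * d) / (1 - d)) * D.indicator (fun _ => (1 : ℝ)) (u, v)
            + ((1 - 2 * a v) / (1 - d)) * b u := by
          funext u
          rw [hw]
          unfold swapDens
          ring
        have i0 : Integrable (fun _ : U => (1 - 2 * d) / (1 - d) + a v / (1 - d)) μ :=
          integrable_const _
        have i1 : Integrable (fun u => ((1 - 2 * d) / (1 - d)) *
            D.indicator (fun _ => (1 : ℝ)) (u, v)) μ := hiD.const_mul _
        have i2 : Integrable (fun u => ((1 - 2 * d) / (1 - d) + a v / (1 - d))
            - ((1 - 2 * d) / (1 - d)) * D.indicator (fun _ => (1 : ℝ)) (u, v)) μ := i0.sub i1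
        have i3 : Integrable (fun u => ((1 - 2 * a v) / (1 - d)) * b u) μ := hib.const_mul _
        rw [e3, integral_add i2 i3, integral_sub i0 i1, integral_const_mul,
          integral_const_mul, hI, ← hdβ]
        simp only [integral_const, probReal_univ, smul_eq_mul, one_mul]
        field_simp
        ring
      rw [e2]
      simp
    have hwm' : Measurable (fun p => ENNReal.ofReal (w p)) := hwm.ennreal_ofReal
    refine ⟨(μ.prod ν).withDensity (fun p => ENNReal.ofReal (w p)), ?_, ?_, ?_, ?_⟩
    · ext S hS
      rw [Measure.map_apply measurable_fst hS, withDensity_apply _ (measurable_fst hS)]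
      have e : (Prod.fst ⁻¹' S : Set (U × W)) = S ×ˢ Set.univ := by ext; simp
      rw [e, ← Measure.prod_restrict, Measure.restrict_univ, lintegral_prod _ hwm'.aemeasurable]
      simp [hfst]
    · ext S hS
      rw [Measure.map_apply measurable_snd hS, withDensity_apply _ (measurable_snd hS)]
      have e : (Prod.snd ⁻¹' S : Set (U × W)) = Set.univ ×ˢ S := by ext; simp
      rw [e, ← Measure.prod_restrict, Measure.restrict_univ,
        lintegral_prod_symm _ hwm'.aemeasurable]
      simp [hsnd]
    · rw [withDensity_apply _ hD]
      have h1 : ∫⁻ p in D, ENNReal.ofReal (w p) ∂(μ.prod ν) ≤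
          ∫⁻ p in D, 2 * (α p.2 + β p.1) ∂(μ.prod ν) := by
        apply setLIntegral_mono' hD
        intro p hp
        rw [hαa, hβb, ← ENNReal.ofReal_add (ha0 _) (hb0 _)]
        have e2 : (2 : ℝ≥0∞) = ENNReal.ofReal 2 := by simp
        rw [e2, ← ENNReal.ofReal_mul (by norm_num)]
        apply ENNReal.ofReal_le_ofReal
        rw [hw]
        unfold swapDens
        rw [Set.indicator_of_mem hp, sub_self, zero_mul, zero_add, div_le_iff₀ hd1]
        have h3 := ha0 p.2
        have h4 := hb0 p.1
        have h5 : b p.1 * (1 - a p.2) + (1 - b p.1) * a p.2 ≤ a p.2 + b p.1 := by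
          nlinarith [mul_nonneg h3 h4]
        nlinarith
      refine h1.trans ?_
      have h2 : Measurable (fun p : U × W => α p.2) := hαm.comp measurable_snd
      have h3 : Measurable (fun p : U × W => β p.1) := hβm.comp measurable_fst
      have h23 : Measurable (fun p : U × W => α p.2 + β p.1) := h2.add h3
      rw [lintegral_const_mul _ h23, lintegral_add_left h2]
      refine le_of_eq ?_
      congr 2
      · rw [← lintegral_indicator hD, lintegral_prod_symm _ ((h2.indicator hD).aemeasurable)]
        apply lintegral_congr
        intro v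
        have e : (fun u => D.indicator (fun p : U × W => α p.2) (u, v))
            = ({u | (u, v) ∈ D} : Set U).indicator (fun _ => α v) := by
          funext u; rfl
        show ∫⁻ u, D.indicator (fun p : U × W => α p.2) (u, v) ∂μ = _
        have hmu : MeasurableSet {u | (u, v) ∈ D} := measurable_prodMk_right hD
        rw [e, lintegral_indicator_const hmu, sq]
      · rw [← lintegral_indicator hD, lintegral_prod _ ((h3.indicator hD).aemeasurable)]
        apply lintegral_congr
        intro u
        have e : (fun v => D.indicator (fun p : U × W => β p.1) (u, v))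
            = ({v | (u, v) ∈ D} : Set W).indicator (fun _ => β u) := by
          funext v; rfl
        have hmu : MeasurableSet {v | (u, v) ∈ D} := measurable_prodMk_left hD
        rw [e, lintegral_indicator_const hmu, sq]
    · rw [← withDensity_const]
      apply withDensity_mono
      filter_upwards with p
      have e3 : (3 : ℝ≥0∞) = ENNReal.ofReal 3 := by simp
      rw [e3]
      exact ENNReal.ofReal_le_ofReal (hw3 p)
  · -- the product coupling
    refine ⟨μ.prod ν, ?_, ?_, ?_, ?_⟩
    · rw [Measure.map_fst_prod]; simp
    · rw [Measure.map_snd_prod]; simp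
    · rw [hdα]
      have hia2 : Integrable (fun v => (a v) ^ 2) ν :=
        Integrable.of_bound (ham.pow_const 2).aestronglyMeasurable 1 (by
          filter_upwards with v
          rw [Real.norm_eq_abs, abs_of_nonneg (sq_nonneg _)]
          exact pow_le_one₀ (ha0 v) (ha1 v))
      have h1 : d ^ 2 ≤ ∫ v, (a v) ^ 2 ∂ν := by
        have h2 : 0 ≤ ∫ v, (a v - d) ^ 2 ∂ν := integral_nonneg (fun v => sq_nonneg _)
        have e : (fun v => (a v - d) ^ 2) = fun v => ((a v) ^ 2 - (2 * d) * a v) + d ^ 2 := by
          funext v; ring
        have i1 : Integrable (fun v => (2 * d) * a v) ν := hia.const_mul _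
        have i2 : Integrable (fun v => (a v) ^ 2 - (2 * d) * a v) ν := hia2.sub i1
        have i3 : Integrable (fun _ : W => d ^ 2) ν := integrable_const _
        rw [e, integral_add i2 i3, integral_sub hia2 i1, integral_const_mul, ← hd] at h2
        simp only [integral_const, probReal_univ, smul_eq_mul, one_mul] at h2
        nlinarith
      have h3 : ENNReal.ofReal d ≤ 2 * ∫⁻ v, (α v) ^ 2 ∂ν := by
        have h4 : ∫⁻ v, (α v) ^ 2 ∂ν = ENNReal.ofReal (∫ v, (a v) ^ 2 ∂ν) := by
          rw [ofReal_integral_eq_lintegral_ofReal hia2
            (by filter_upwards with v; exact sq_nonneg _)]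
          exact lintegral_congr (fun v => by rw [hαa v, ENNReal.ofReal_pow (ha0 v)])
        rw [h4]
        have e2 : (2 : ℝ≥0∞) = ENNReal.ofReal 2 := by simp
        rw [e2, ← ENNReal.ofReal_mul (by norm_num)]
        apply ENNReal.ofReal_le_ofReal
        nlinarith
      refine h3.trans ?_
      gcongr
      exact le_self_add
    · intro S
      rw [Measure.smul_apply, smul_eq_mul]
      calc (μ.prod ν) S = 1 * (μ.prod ν) S := (one_mul _).symm
        _ ≤ 3 * (μ.prod ν) S := by gcongr; norm_num

end

end Pool.Agent.Helper41.NI
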