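import Pool.Agent.Helper41.NI.Path
import Pool.Agent.Helper41.NI.Swap

/-!
# The coupling of one block of two walks
-/

namespace Pool.Agent.Helper41.NI

open Finset MeasureTheory ProbabilityTheory
open scoped ENNReal

/-- `F` depends only on the first `K` steps of both streams. -/
def Dep2 {α : Type*} (K : ℕ) (F : Str × Str → α) : Prop :=
  ∀ w w' : Str × Str, (∀ i < K, w.1 i = w'.1 i) → (∀ i < K, w.2 i = w'.2 i) → F w = F w'

lemma Dep2.measurable {α : Type*} [MeasurableSpace α] {K : ℕ} {F : Str × Str → α}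
    (h : Dep2 K F) : Measurable F := by
  have : F = (fun q : (Fin K → Stp) × (Fin K → Stp) => F (ext K q.1, ext K q.2)) ∘
      (fun w : Str × Str => (pre K w.1, pre K w.2)) := by
    funext w
    apply h
    · intro i hi; simp [ext, pre, hi]
    · intro i hi; simp [ext, pre, hi]
  rw [this]
  exact (measurable_of_finite _).comp (((measurable_pre K).comp measurable_fst).prodMk
    ((measurable_pre K).comp measurable_snd))

/-- The event that the two blocks intersect. -/
def DD (x y : V4) (L : ℕ) : Set (Str × Str) := {w | ¬ Disjoint (pathF x L w.1) (pathF y L w.2)}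

lemma measurableSet_DD (x y : V4) (L : ℕ) : MeasurableSet (DD x y L) := by
  have h : Measurable (fun w : Str × Str => (¬ Disjoint (pathF x L w.1) (pathF y L w.2) : Prop)) := by
    apply Dep2.measurable (K := L)
    intro w w' h1 h2
    beta_reduce
    rw [Dep_pathF le_rfl x _ _ h1, Dep_pathF le_rfl y _ _ h2]
  exact measurableSet_setOf.mpr h

/-- The coupling of two blocks of length `L` of walks from `x` and `y`. -/
noncomputable def rr (x y : V4) (L : ℕ) : Measure (Str × Str) :=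
  Classical.choose (swap_coupling PP PP (DD x y L) (measurableSet_DD x y L))

lemma rr_fst (x y : V4) (L : ℕ) : (rr x y L).map Prod.fst = PP :=
  (Classical.choose_spec (swap_coupling PP PP (DD x y L) (measurableSet_DD x y L))).1

lemma rr_snd (x y : V4) (L : ℕ) : (rr x y L).map Prod.snd = PP :=
  (Classical.choose_spec (swap_coupling PP PP (DD x y L) (measurableSet_DD x y L))).2.1

lemma rr_DD (x y : V4) (L : ℕ) : (rr x y L) (DD x y L) ≤
    2 * (∫⁻ v, (PP {u | (u, v) ∈ DD x y L}) ^ 2 ∂PP + ∫⁻ u, (PP {v | (u, v) ∈ DD x y L}) ^ 2 ∂PP) :=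
  (Classical.choose_spec (swap_coupling PP PP (DD x y L) (measurableSet_DD x y L))).2.2.1

lemma rr_le (x y : V4) (L : ℕ) : rr x y L ≤ (3 : ℝ≥0∞) • (PP.prod PP) :=
  (Classical.choose_spec (swap_coupling PP PP (DD x y L) (measurableSet_DD x y L))).2.2.2

instance (x y : V4) (L : ℕ) : IsProbabilityMeasure (rr x y L) := by
  constructor
  have h := rr_fst x y L
  have h2 : (rr x y L).map Prod.fst Set.univ = 1 := by rw [h]; exact measure_univ
  rwa [Measure.map_apply measurable_fst MeasurableSet.univ, Set.preimage_univ] at h2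

lemma ell_sub_comm (n : ℕ) (x y : V4) : ell n (x - y) = ell n (y - x) := by
  have h : nsq (x - y) = nsq (y - x) := by rw [← nsq_neg, neg_sub]
  unfold ell VV
  rw [h]

/-- The block intersection bound. -/
lemma rr_DD_le {N : ℕ} (hN : 1 ≤ N) (L : ℕ) (x y : V4) :
    (rr x y L) (DD x y L) ≤ ENNReal.ofReal
      (4 * ((128 * (ell (L + N) (x - y)) ^ 2 + 52480 * ell (L + N) (x - y)) / (gg N) ^ 2)) := by
  have h1 : ∀ v, PP {u | (u, v) ∈ DD x y L} ≤ hitp (pathF y L v : Set V4) x := by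
    intro v
    apply measure_mono
    intro u hu
    have hu' : ¬ Disjoint (pathF x L u) (pathF y L v) := hu
    rw [Finset.not_disjoint_iff] at hu'
    obtain ⟨z, hz1, hz2⟩ := hu'
    obtain ⟨m, _, hm⟩ := mem_pathF.mp hz1
    exact ⟨m, by rw [hm]; exact_mod_cast hz2⟩
  have h2 : ∀ u, PP {v | (u, v) ∈ DD x y L} ≤ hitp (pathF x L u : Set V4) y := by
    intro u
    apply measure_mono
    intro v hu
    have hu' : ¬ Disjoint (pathF x L u) (pathF y L v) := hu
    rw [Finset.not_disjoint_iff] at hu'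
    obtain ⟨z, hz1, hz2⟩ := hu'
    obtain ⟨m, _, hm⟩ := mem_pathF.mp hz2
    exact ⟨m, by rw [hm]; exact_mod_cast hz1⟩
  set E := (128 * (ell (L + N) (x - y)) ^ 2 + 52480 * ell (L + N) (x - y)) / (gg N) ^ 2 with hE
  have hE0 : 0 ≤ E := by
    have := ell_nonneg (L + N) (x - y)
    rw [hE]; positivity
  have h3 : ∫⁻ v, (PP {u | (u, v) ∈ DD x y L}) ^ 2 ∂PP ≤ ENNReal.ofReal E := by
    refine (lintegral_mono (fun v => pow_le_pow_left' (h1 v) 2)).trans ?_
    refine (lintegral_hitp_sq hN L x y).trans ?_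
    rw [hE, ell_sub_comm]
  have h4 : ∫⁻ u, (PP {v | (u, v) ∈ DD x y L}) ^ 2 ∂PP ≤ ENNReal.ofReal E := by
    refine (lintegral_mono (fun v => pow_le_pow_left' (h2 v) 2)).trans ?_
    exact lintegral_hitp_sq hN L y x
  refine (rr_DD x y L).trans ?_
  calc 2 * (∫⁻ v, (PP {u | (u, v) ∈ DD x y L}) ^ 2 ∂PP + ∫⁻ u, (PP {v | (u, v) ∈ DD x y L}) ^ 2 ∂PP)
      ≤ 2 * (ENNReal.ofReal E + ENNReal.ofReal E) := by gcongr
    _ = ENNReal.ofReal (4 * E) := by
        rw [← ENNReal.ofReal_add hE0 hE0]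
        have e2 : (2 : ℝ≥0∞) = ENNReal.ofReal 2 := by simp
        rw [e2, ← ENNReal.ofReal_mul (by norm_num)]
        congr 1; ring

lemma lintegral_rr_fst (x y : V4) (L : ℕ) {F : Str → ℝ≥0∞} (hF : Measurable F) :
    ∫⁻ w, F w.1 ∂(rr x y L) = ∫⁻ u, F u ∂PP := by
  rw [← rr_fst x y L, lintegral_map hF measurable_fst]

lemma lintegral_rr_snd (x y : V4) (L : ℕ) {F : Str → ℝ≥0∞} (hF : Measurable F) :
    ∫⁻ w, F w.2 ∂(rr x y L) = ∫⁻ u, F u ∂PP := by
  rw [← rr_snd x y L, lintegral_map hF measurable_snd]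

lemma lintegral_rr_le (x y : V4) (L : ℕ) (F : Str × Str → ℝ≥0∞) :
    ∫⁻ w, F w ∂(rr x y L) ≤ 3 * ∫⁻ w, F w ∂(PP.prod PP) := by
  calc ∫⁻ w, F w ∂(rr x y L) ≤ ∫⁻ w, F w ∂((3 : ℝ≥0∞) • (PP.prod PP)) :=
        lintegral_mono' (rr_le x y L) le_rfl
    _ = 3 * ∫⁻ w, F w ∂(PP.prod PP) := by rw [lintegral_smul_measure]; rfl

lemma Dep2_cross1 (x y : V4) (L : ℕ) :
    Dep2 L (fun w : Str × Str => hitp (pathF y L w.2 : Set V4) (x + SS L w.1)) := by
  intro w w' h1 h2
  show hitp (pathF y L w.2 : Set V4) (x + SS L w.1) = hitp (pathF y L w'.2 : Set V4) (x + SS L w'.1)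
  rw [Dep_pathF le_rfl y _ _ h2, Dep_SS le_rfl _ _ h1]

lemma Dep2_cross2 (x y : V4) (L : ℕ) :
    Dep2 L (fun w : Str × Str => hitp (pathF x L w.1 : Set V4) (y + SS L w.2)) := by
  intro w w' h1 h2
  show hitp (pathF x L w.1 : Set V4) (y + SS L w.2) = hitp (pathF x L w'.1 : Set V4) (y + SS L w'.2)
  rw [Dep_pathF le_rfl x _ _ h1, Dep_SS le_rfl _ _ h2]

lemma rr_cross1 {N L : ℕ} (hN : 1 ≤ N) (hNL : N ≤ L + 2) (x y : V4) :
    ∫⁻ w, hitp (pathF y L w.2 : Set V4) (x + SS L w.1) ∂(rr x y L) ≤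
      3 * ENNReal.ofReal (400 / gg N + 323200 / (gg N) ^ 2) := by
  refine (lintegral_rr_le x y L _).trans ?_
  rw [lintegral_prod_symm _ (Dep2_cross1 x y L).measurable.aemeasurable]
  gcongr
  exact lintegral_cross hN hNL x y

lemma rr_cross2 {N L : ℕ} (hN : 1 ≤ N) (hNL : N ≤ L + 2) (x y : V4) :
    ∫⁻ w, hitp (pathF x L w.1 : Set V4) (y + SS L w.2) ∂(rr x y L) ≤
      3 * ENNReal.ofReal (400 / gg N + 323200 / (gg N) ^ 2) := by
  refine (lintegral_rr_le x y L _).trans ?_
  rw [lintegral_prod _ (Dep2_cross2 x y L).measurable.aemeasurable]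
  gcongr
  exact lintegral_cross hN hNL y x

/-- The set of pairs of blocks whose end points are close. -/
def CC (x y : V4) (L : ℕ) (R : ℝ) : Set (Str × Str) :=
  {w | nsq ((x + SS L w.1) - (y + SS L w.2)) < R}

lemma measurableSet_CC (x y : V4) (L : ℕ) (R : ℝ) : MeasurableSet (CC x y L R) := by
  have h : Measurable (fun w : Str × Str => nsq ((x + SS L w.1) - (y + SS L w.2))) := by
    apply Dep2.measurable (K := L)
    intro w w' h1 h2
    beta_reduce
    rw [Dep_SS le_rfl _ _ h1, Dep_SS le_rfl _ _ h2]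
  exact h measurableSet_Iio

lemma rr_CC (x y : V4) (L : ℕ) {R : ℝ} (hR : 0 ≤ R) :
    (rr x y L) (CC x y L R) ≤ 3 * ENNReal.ofReal ((R + 2) * (200 / ((L : ℝ) + 1))) := by
  have h1 : (rr x y L) (CC x y L R) ≤ 3 * (PP.prod PP) (CC x y L R) := by
    have := rr_le x y L (CC x y L R)
    simpa using this
  refine h1.trans ?_
  gcongr
  rw [Measure.prod_apply_symm (measurableSet_CC x y L R)]
  calc ∫⁻ v, PP ((fun u => (u, v)) ⁻¹' (CC x y L R)) ∂PP
      ≤ ∫⁻ _v, ENNReal.ofReal ((R + 2) * (200 / ((L : ℝ) + 1))) ∂PP := by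
        apply lintegral_mono
        intro v
        have e : (fun u => (u, v)) ⁻¹' (CC x y L R)
            = {u | nsq ((x - (y + SS L v)) + SS L u) < R} := by
          ext u
          simp only [Set.mem_preimage, CC, Set.mem_setOf_eq]
          rw [show x + SS L u - (y + SS L v) = (x - (y + SS L v)) + SS L u by abel]
        show PP ((fun u => (u, v)) ⁻¹' (CC x y L R)) ≤ _
        rw [e]
        exact prob_close L _ hR
    _ = _ := by simp

end Pool.Agent.Helper41.NI
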