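import Pool.Agent.Helper41.NI.Param

/-!
# The final coupling
-/

namespace Pool.Agent.Helper41.NI

open Finset MeasureTheory ProbabilityTheory Preorder
open scoped ENNReal

/-- Hitting a far away path. -/
lemma hitp_pathF_far (x : V4) (T : ℕ) (u : Str) (z : V4) {R : ℝ} (hR : 0 < R)
    (h : ∀ m ≤ T, R ≤ nsq (z - (x + SS m u))) :
    hitp (pathF x T u : Set V4) z ≤ ENNReal.ofReal (((T : ℝ) + 1) * (2 / R)) := by
  have h1 : hitp (pathF x T u : Set V4) z ≤ ENNReal.ofReal
      ((fun z => ∑ m ∈ Finset.range (T + 1), 2 * ff (z - (x + SS m u))) z) := by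
    apply hitp_le
    · intro z
      exact Finset.sum_nonneg (fun _ _ => mul_nonneg (by norm_num) (ff_pos _).le)
    · intro z
      rw [Pop_sum]
      apply Finset.sum_le_sum
      intro m _
      rw [Pop_smul, Pop_translate]
      exact mul_le_mul_of_nonneg_left (Pop_ff_le _) (by norm_num)
    · intro q hq
      obtain ⟨m, hm, rfl⟩ := mem_pathF.mp (by exact_mod_cast hq)
      have h2 : 2 * ff (x + SS m u - (x + SS m u)) ≤
          ∑ m' ∈ Finset.range (T + 1), 2 * ff (x + SS m u - (x + SS m' u)) :=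
        Finset.single_le_sum (f := fun m' => 2 * ff (x + SS m u - (x + SS m' u)))
          (fun _ _ => mul_nonneg (by norm_num) (ff_pos _).le) (Finset.mem_range.mpr (by omega))
      rw [sub_self, ff_zero] at h2
      linarith
  refine h1.trans (ENNReal.ofReal_le_ofReal ?_)
  have h2 : ∀ m ∈ Finset.range (T + 1), 2 * ff (z - (x + SS m u)) ≤ 2 / R := by
    intro m hm
    have hm' := Finset.mem_range.mp hm
    have h3 := h m (by omega)
    unfold ff VV
    rw [mul_one_div]
    apply div_le_div_of_nonneg_left (by norm_num) hR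
    linarith
  have h3 := Finset.sum_le_sum h2
  simp only [Finset.sum_const, Finset.card_range, nsmul_eq_mul] at h3
  push_cast at h3
  exact h3

lemma nsq_ge_of_coord {z : V4} {i0 : Fin 4} {T : ℕ} (h : (z i0 : ℝ) ≤ -(T : ℝ) ∨ (T : ℝ) ≤ z i0) :
    (T : ℝ) ^ 2 ≤ nsq z := by
  refine le_trans ?_ (coord_sq_le z i0)
  have hT : (0 : ℝ) ≤ T := Nat.cast_nonneg T
  rcases h with h | h
  · nlinarith
  · nlinarith

section start

variable {x0 y0 : V4} {i0 : Fin 4} (hxy : x0 i0 < y0 i0) {T0 : ℕ} {w : Str × Str}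
    (hw : ∀ i < T0, w.1 i = (i0, false) ∧ w.2 i = (i0, true))

include hxy hw

lemma start_far1 (m : ℕ) (hm : m ≤ T0) :
    (T0 : ℝ) ^ 2 ≤ nsq ((x0 + SS T0 w.1) - (y0 + SS m w.2)) := by
  apply nsq_ge_of_coord (i0 := i0)
  left
  have h1 : SS T0 w.1 = Pi.single i0 (-(T0 : ℤ)) := by
    have := SS_straight (i0 := i0) (b := false) (u := w.1) (T := T0) (fun i hi => (hw i hi).1)
    simpa using this
  have h2 : SS m w.2 = Pi.single i0 (m : ℤ) := by
    have := SS_straight (i0 := i0) (b := true) (u := w.2) (T := m)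
      (fun i hi => (hw i (by omega)).2)
    simpa using this
  have h3 : ((x0 + SS T0 w.1) - (y0 + SS m w.2)) i0 ≤ -(T0 : ℤ) := by
    rw [h1, h2]
    simp only [Pi.sub_apply, Pi.add_apply, Pi.single_eq_same]
    omega
  exact_mod_cast h3

lemma start_far2 (m : ℕ) (hm : m ≤ T0) :
    (T0 : ℝ) ^ 2 ≤ nsq ((y0 + SS T0 w.2) - (x0 + SS m w.1)) := by
  apply nsq_ge_of_coord (i0 := i0)
  right
  have h1 : SS T0 w.2 = Pi.single i0 (T0 : ℤ) := by
    have := SS_straight (i0 := i0) (b := true) (u := w.2) (T := T0) (fun i hi => (hw i hi).2)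
    simpa using this
  have h2 : SS m w.1 = Pi.single i0 (-(m : ℤ)) := by
    have := SS_straight (i0 := i0) (b := false) (u := w.1) (T := m)
      (fun i hi => (hw i (by omega)).1)
    simpa using this
  have h3 : (T0 : ℤ) ≤ ((y0 + SS T0 w.2) - (x0 + SS m w.1)) i0 := by
    rw [h1, h2]
    simp only [Pi.sub_apply, Pi.add_apply, Pi.single_eq_same]
    omega
  exact_mod_cast h3

lemma val_start_le {rho er : ℕ → ℝ} (hT0 : 32 ≤ T0) (hrho : rho 0 ≤ (T0 : ℝ) ^ 2)
    (her : er 0 ≤ 1 / 8) :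
    val rho er 0 (start x0 y0 i0 T0 w) ≤ ENNReal.ofReal (3 / 8) := by
  have e : start x0 y0 i0 T0 w = .live (x0 + SS T0 w.1) (y0 + SS T0 w.2) (pathF x0 T0 w.1)
      (pathF y0 T0 w.2) := by
    unfold start
    exact if_pos hw
  have hT : (32 : ℝ) ≤ T0 := by exact_mod_cast hT0
  rw [e, val_live_pos ⟨start_disjoint hxy hw, hrho.trans (start_far1 hxy hw T0 le_rfl)⟩]
  have h1 : hitp (pathF y0 T0 w.2 : Set V4) (x0 + SS T0 w.1) ≤
      ENNReal.ofReal (((T0 : ℝ) + 1) * (2 / (T0 : ℝ) ^ 2)) :=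
    hitp_pathF_far y0 T0 w.2 _ (by positivity) (fun m hm => start_far1 hxy hw m hm)
  have h2 : hitp (pathF x0 T0 w.1 : Set V4) (y0 + SS T0 w.2) ≤
      ENNReal.ofReal (((T0 : ℝ) + 1) * (2 / (T0 : ℝ) ^ 2)) :=
    hitp_pathF_far x0 T0 w.1 _ (by positivity) (fun m hm => start_far2 hxy hw m hm)
  have h3 : ((T0 : ℝ) + 1) * (2 / (T0 : ℝ) ^ 2) ≤ 1 / 8 := by
    rw [mul_div_assoc', div_le_iff₀ (by positivity)]
    nlinarith
  have h4 : ENNReal.ofReal (3 / 8) = ENNReal.ofReal (1 / 8) + ENNReal.ofReal (1 / 8)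
      + ENNReal.ofReal (1 / 8) := by
    rw [← ENNReal.ofReal_add (by norm_num) (by norm_num),
      ← ENNReal.ofReal_add (by norm_num) (by norm_num)]
    norm_num
  rw [h4]
  gcongr
  · exact h1.trans (ENNReal.ofReal_le_ofReal h3)
  · exact h2.trans (ENNReal.ofReal_le_ofReal h3)

end start

lemma PP_straight_pos (T : ℕ) (s : Stp) : 0 < PP {u | ∀ i < T, u i = s} := by
  have h1 : {u : Str | ∀ i < T, u i = s} = ((Finset.range T : Finset ℕ) : Set ℕ).pi (fun _ => {s}) := by
    ext u
    simp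
  rw [h1]
  unfold PP
  rw [Measure.infinitePi_pi _ (fun _ _ => MeasurableSet.singleton s)]
  rw [Finset.prod_congr rfl (fun i _ => stpLaw_singleton s)]
  rw [Finset.prod_const]
  exact ENNReal.pow_pos (by simp) _

lemma measurableSet_straight (T : ℕ) (s : Stp) : MeasurableSet {u : Str | ∀ i < T, u i = s} := by
  have h1 : {u : Str | ∀ i < T, u i = s} = ((Finset.range T : Finset ℕ) : Set ℕ).pi (fun _ => {s}) := by
    ext u
    simp
  rw [h1]
  exact MeasurableSet.pi (Finset.countable_toSet _) (fun _ _ => MeasurableSet.singleton s)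

lemma lintegral_val_start_lt {x0 y0 : V4} {i0 : Fin 4} (hxy : x0 i0 < y0 i0) {T0 : ℕ}
    {rho er : ℕ → ℝ} (hT0 : 32 ≤ T0) (hrho : rho 0 ≤ (T0 : ℝ) ^ 2) (her : er 0 ≤ 1 / 8) :
    ∫⁻ w, val rho er 0 (start x0 y0 i0 T0 w) ∂(PP.prod PP) < 1 := by
  set S : Set (Str × Str) := {w | ∀ i < T0, w.1 i = (i0, false) ∧ w.2 i = (i0, true)} with hS
  have hSeq : S = {u : Str | ∀ i < T0, u i = (i0, false)} ×ˢ
      {u : Str | ∀ i < T0, u i = (i0, true)} := by
    ext w
    simp only [hS, Set.mem_prod, Set.mem_setOf_eq]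
    exact ⟨fun h => ⟨fun i hi => (h i hi).1, fun i hi => (h i hi).2⟩,
      fun h i hi => ⟨h.1 i hi, h.2 i hi⟩⟩
  have hSm : MeasurableSet S := by
    rw [hSeq]
    exact (measurableSet_straight _ _).prod (measurableSet_straight _ _)
  have hSpos : 0 < (PP.prod PP) S := by
    rw [hSeq, Measure.prod_prod]
    exact ENNReal.mul_pos (PP_straight_pos _ _).ne' (PP_straight_pos _ _).ne'
  have h1 : ∫⁻ w, val rho er 0 (start x0 y0 i0 T0 w) ∂(PP.prod PP) ≤
      ∫⁻ w, (Sᶜ.indicator (fun _ => (1 : ℝ≥0∞)) w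
        + S.indicator (fun _ => ENNReal.ofReal (3 / 8)) w) ∂(PP.prod PP) := by
    apply lintegral_mono
    intro w
    by_cases hw : w ∈ S
    · have h2 := val_start_le hxy hw hT0 hrho her
      show _ ≤ Sᶜ.indicator (fun _ => (1 : ℝ≥0∞)) w
        + S.indicator (fun _ => ENNReal.ofReal (3 / 8)) w
      rw [Set.indicator_of_notMem (by simpa using hw), Set.indicator_of_mem hw, zero_add]
      exact h2
    · show _ ≤ Sᶜ.indicator (fun _ => (1 : ℝ≥0∞)) w
        + S.indicator (fun _ => ENNReal.ofReal (3 / 8)) w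
      rw [Set.indicator_of_mem (by simpa using hw), Set.indicator_of_notMem hw, add_zero]
      have e : start x0 y0 i0 T0 w = .dead := by
        unfold start
        exact if_neg hw
      show val rho er 0 (start x0 y0 i0 T0 w) ≤ 1
      rw [e]
      exact le_rfl
  refine lt_of_le_of_lt h1 ?_
  rw [lintegral_add_left (measurable_const.indicator hSm.compl),
    lintegral_indicator_const hSm.compl, lintegral_indicator_const hSm, one_mul]
  have hfin : (PP.prod PP) S ≠ ⊤ := measure_ne_top _ _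
  have h3 : ENNReal.ofReal (3 / 8) * (PP.prod PP) S < (PP.prod PP) S := by
    calc ENNReal.ofReal (3 / 8) * (PP.prod PP) S < 1 * (PP.prod PP) S := by
          rw [ENNReal.mul_lt_mul_iff_left hSpos.ne' hfin]
          rw [← ENNReal.ofReal_one]
          exact (ENNReal.ofReal_lt_ofReal_iff (by norm_num)).mpr (by norm_num)
      _ = (PP.prod PP) S := one_mul _
  calc (PP.prod PP) Sᶜ + ENNReal.ofReal (3 / 8) * (PP.prod PP) S
      < (PP.prod PP) Sᶜ + (PP.prod PP) S :=
        ENNReal.add_lt_add_left (measure_ne_top _ _) h3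
    _ = 1 := by rw [add_comm, measure_add_measure_compl hSm]; exact measure_univ

/-- **The coupling.** Two streams with the law of i.i.d. uniform steps such that the two walks
they drive, started from `x0` and `y0`, never meet with positive probability. -/
theorem coupling_streams (x0 y0 : V4) (i0 : Fin 4) (hxy : x0 i0 < y0 i0) :
    ∃ (μ : Measure (ℕ → Str × Str)) (ξ η : (ℕ → Str × Str) → Str), IsProbabilityMeasure μ ∧
      Measurable ξ ∧ Measurable η ∧ μ.map ξ = PP ∧ μ.map η = PP ∧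
      0 < μ {ω | ∀ m n, x0 + SS m (ξ ω) ≠ y0 + SS n (η ω)} := by
  obtain ⟨k0, hk0⟩ : ∃ k0 : ℕ, 240000001 ≤ k0 := ⟨_, le_rfl⟩
  have hk2 : 2 ≤ k0 := by omega
  have hk0' : (240000001 : ℝ) ≤ k0 := by exact_mod_cast hk0
  obtain ⟨T0, hT0def⟩ : ∃ T0, T0 = Tk k0 := ⟨_, rfl⟩
  have hT0 : 32 ≤ T0 := by
    rw [hT0def]
    refine le_trans ?_ (sq_le_Tk k0)
    nlinarith
  set len := lenK k0 with hlen
  set rho := rhoK k0 with hrho
  set er := erK k0 with her
  have hrho0 : rho 0 ≤ (T0 : ℝ) ^ 2 := by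
    rw [hrho]
    unfold rhoK
    rw [add_zero, ← hT0def]
    have hT : (32 : ℝ) ≤ T0 := by exact_mod_cast hT0
    have h1 : (T0 : ℝ) / (k0 : ℝ) ^ 2 ≤ T0 := by
      apply div_le_self (by positivity)
      nlinarith
    nlinarith
  have her0 : er 0 ≤ 1 / 8 := by
    rw [her]
    unfold erK
    rw [add_zero, div_le_iff₀ (by linarith)]
    linarith
  have hbl : ∀ k, 1 ≤ blen T0 len k := by
    intro k
    cases k with
    | zero => show 1 ≤ T0; omega
    | succ k => exact lenK_pos k0 k
  set κ := kap x0 y0 i0 T0 len rho with hκ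
  set bl := blen T0 len with hbldef
  refine ⟨mu κ, fun ω => cat bl (fun k => (ω k).1), fun ω => cat bl (fun k => (ω k).2),
    inferInstance, ?_, ?_, ?_, ?_, ?_⟩
  · apply measurable_pi_lambda
    intro t
    unfold cat
    fun_prop
  · apply measurable_pi_lambda
    intro t
    unfold cat
    fun_prop
  · have h0 : (PP.prod PP).map Prod.fst = PP := by rw [Measure.map_fst_prod]; simp
    exact mu_stream (κ := κ) measurable_fst h0 (fun n h => rker_fst len n _) (idx_injective hbl)
  · have h0 : (PP.prod PP).map Prod.snd = PP := by rw [Measure.map_snd_prod]; simp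
    exact mu_stream (κ := κ) measurable_snd h0 (fun n h => rker_snd len n _) (idx_injective hbl)
  · have hdead : ∀ n, (mu κ) {ω | stt x0 y0 i0 T0 len rho n ω = .dead} ≤
        ∫⁻ w, val rho er 0 (start x0 y0 i0 T0 w) ∂(PP.prod PP) := fun n =>
      prob_dead x0 y0 i0 T0 len (NK k0) rho er (NK_pos k0) (NK_le k0) (rhoK_nonneg k0)
        (erK_nonneg hk2) (errB_K hk2) n
    have hlt := lintegral_val_start_lt hxy hT0 hrho0 her0
    set c := ∫⁻ w, val rho er 0 (start x0 y0 i0 T0 w) ∂(PP.prod PP) with hc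
    have hUm : MeasurableSet (⋃ n, {ω | stt x0 y0 i0 T0 len rho n ω = .dead}) :=
      MeasurableSet.iUnion (fun n => (measurable_stt x0 y0 i0 T0 len rho n)
        (MeasurableSet.of_discrete (s := {St.dead})))
    have hU : (mu κ) (⋃ n, {ω | stt x0 y0 i0 T0 len rho n ω = .dead}) ≤ c := by
      rw [Monotone.measure_iUnion]
      · exact iSup_le hdead
      · apply monotone_nat_of_le_succ
        intro n ω hω
        exact stt_dead_succ x0 y0 i0 T0 len rho n ω hω
    have hpos : 0 < (mu κ) (⋃ n, {ω | stt x0 y0 i0 T0 len rho n ω = .dead})ᶜ := by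
      rw [prob_compl_eq_one_sub hUm]
      exact tsub_pos_of_lt (lt_of_le_of_lt hU hlt)
    refine lt_of_lt_of_le hpos (measure_mono ?_)
    intro ω hω m n
    have hω' : ∀ k, stt x0 y0 i0 T0 len rho k ω ≠ .dead := by
      intro k hk
      exact hω (Set.mem_iUnion.mpr ⟨k, hk⟩)
    set k := max m n with hk
    have htau : k ≤ tau bl (k + 1) := by
      have : ∀ k, k ≤ tau bl k := by
        intro k
        induction k with
        | zero => exact Nat.zero_le _
        | succ k ih =>
          rw [tau_succ]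
          have := hbl k
          omega
      have := this (k + 1)
      omega
    cases hs : stt x0 y0 i0 T0 len rho k ω with
    | dead => exact absurd hs (hω' k)
    | live x y A B =>
      obtain ⟨_, _, i3, i4, i5⟩ := stt_inv x0 y0 i0 hxy T0 len rho hbl k ω hs
      intro heq
      have h1 : x0 + SS m (cat bl (fun k => (ω k).1)) ∈ A := by
        rw [i3, mem_pathF]
        exact ⟨m, (le_max_left m n).trans htau, rfl⟩
      have h2 : x0 + SS m (cat bl (fun k => (ω k).1)) ∈ B := by
        rw [i4, mem_pathF]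
        exact ⟨n, (le_max_right m n).trans htau, heq.symm⟩
      exact Finset.disjoint_left.mp i5 h1 h2

end Pool.Agent.Helper41.NI
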