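import Pool.Agent.Helper41.NI.Walk

/-!
# Hitting probabilities of random-walk paths on the four-dimensional lattice
-/

namespace Pool.Agent.Helper41.NI

open Finset MeasureTheory ProbabilityTheory
open scoped ENNReal

lemma integral_exp_AA (n : ℕ) (x : V4) :
    ∫ u, Real.exp (-(AA n x u)) * VV (x + SS n u) ∂PP ≤ VV x := by
  induction n generalizing x with
  | zero => simp [AA, SS_zero]
  | succ n ih =>
    have hd : Dep (n + 1) (fun u => Real.exp (-(AA (n + 1) x u)) * VV (x + SS (n + 1) u)) :=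
      Dep.comp₂ (Dep_AA le_rfl x) (Dep_SS le_rfl) (fun a z => Real.exp (-a) * VV (x + z))
    rw [integral_PP hd.integrable]
    have h1 : ∀ s : Stp, ∫ u, Real.exp (-(AA (n + 1) x (scons s u))) *
        VV (x + SS (n + 1) (scons s u)) ∂PP = Real.exp (-(ff x)) *
        ∫ u, Real.exp (-(AA n (x + vec s) u)) * VV (x + vec s + SS n u) ∂PP := by
      intro s
      rw [← integral_const_mul]
      congr 1
      funext u
      rw [AA_scons, SS_scons, neg_add, Real.exp_add, add_assoc]
      ring
    have h2 : (1 / 8 : ℝ) * ∑ s : Stp, ∫ u, Real.exp (-(AA (n + 1) x (scons s u))) *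
        VV (x + SS (n + 1) (scons s u)) ∂PP = Real.exp (-(ff x)) *
        Pop (fun z => ∫ u, Real.exp (-(AA n z u)) * VV (z + SS n u) ∂PP) x := by
      unfold Pop
      rw [Finset.sum_congr rfl (fun s _ => h1 s), ← Finset.mul_sum]
      ring
    rw [h2]
    have h3 := Pop_mono ih x
    rw [Pop_VV] at h3
    have hV := VV_pos x
    have h4 : VV x + 1 ≤ VV x * Real.exp (ff x) := by
      have := Real.add_one_le_exp (ff x)
      have h5 : VV x * ff x = 1 := by unfold ff; field_simp
      nlinarith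
    calc Real.exp (-(ff x)) * Pop (fun z => ∫ u, Real.exp (-(AA n z u)) * VV (z + SS n u) ∂PP) x
        ≤ Real.exp (-(ff x)) * (VV x * Real.exp (ff x)) :=
          mul_le_mul_of_nonneg_left (h3.trans h4) (Real.exp_pos _).le
      _ = VV x * (Real.exp (-(ff x)) * Real.exp (ff x)) := by ring
      _ = VV x := by rw [← Real.exp_add]; simp

lemma VV_zero : VV 0 = 2 := by simp [VV, nsq]

lemma ff_zero : ff 0 = 1 / 2 := by unfold ff; rw [VV_zero]

lemma integral_exp_half (N : ℕ) :
    ∫ u, Real.exp (-(AA N 0 u) / 2) ∂PP ≤ 101 / Real.sqrt (N + 1) := by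
  have hN : (0 : ℝ) < N + 1 := by positivity
  set q := Real.sqrt ((N : ℝ) + 1) with hq
  have hqpos : 0 < q := Real.sqrt_pos.mpr hN
  have hq2 : q ^ 2 = N + 1 := Real.sq_sqrt hN.le
  have hd1 : Dep N (fun u => Real.exp (-(AA N 0 u)) * VV (0 + SS N u)) :=
    Dep.comp₂ (Dep_AA le_rfl 0) (Dep_SS le_rfl) (fun a z => Real.exp (-a) * VV (0 + z))
  have hd2 : Dep N (fun u => ff (0 + SS N u)) := (Dep_SS le_rfl).comp (fun z => ff (0 + z))
  have hd3 : Dep N (fun u => Real.exp (-(AA N 0 u) / 2)) :=
    (Dep_AA le_rfl 0).comp (fun a => Real.exp (-a / 2))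
  have hpt : ∀ u, Real.exp (-(AA N 0 u) / 2) ≤
      (1 / (2 * q)) * (Real.exp (-(AA N 0 u)) * VV (0 + SS N u)) + (q / 2) * ff (0 + SS N u) := by
    intro u
    set a := Real.exp (-(AA N 0 u) / 2) with ha
    have ha2 : Real.exp (-(AA N 0 u)) = a ^ 2 := by
      rw [ha, ← Real.exp_nat_mul]
      congr 1
      push_cast
      ring
    rw [ha2]
    have hV := VV_pos (0 + SS N u)
    unfold ff
    set W := VV (0 + SS N u)
    have : (1 / (2 * q)) * (a ^ 2 * W) + (q / 2) * (1 / W) - a
        = (a * W - q) ^ 2 / (2 * q * W) := by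
      field_simp
      ring
    have h2 : 0 ≤ (a * W - q) ^ 2 / (2 * q * W) := by positivity
    linarith
  have h1 : ∫ u, Real.exp (-(AA N 0 u) / 2) ∂PP ≤ ∫ u, ((1 / (2 * q)) *
      (Real.exp (-(AA N 0 u)) * VV (0 + SS N u)) + (q / 2) * ff (0 + SS N u)) ∂PP :=
    integral_mono hd3.integrable ((hd1.integrable.const_mul _).add (hd2.integrable.const_mul _)) hpt
  rw [integral_add (hd1.integrable.const_mul _) (hd2.integrable.const_mul _), integral_const_mul,
    integral_const_mul, integral_SS] at h1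
  have h2 := integral_exp_AA N 0
  rw [VV_zero] at h2
  have h3 := Pn_ff_le N 0
  have h4 : (1 / (2 * q)) * ∫ u, Real.exp (-(AA N 0 u)) * VV (0 + SS N u) ∂PP
      ≤ (1 / (2 * q)) * 2 := mul_le_mul_of_nonneg_left h2 (by positivity)
  have h5 : (q / 2) * Pn N ff 0 ≤ (q / 2) * (200 / (N + 1)) :=
    mul_le_mul_of_nonneg_left h3 (by positivity)
  have h6 : (1 / (2 * q)) * 2 + (q / 2) * (200 / ((N : ℝ) + 1)) = 101 / q := by
    rw [← hq2]
    field_simp
    ring
  linarith

/-- The threshold for the additive functional. -/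
noncomputable def gg (N : ℕ) : ℝ := Real.log (N + 1) / 2

lemma gg_pos {N : ℕ} (hN : 1 ≤ N) : 0 < gg N := by
  unfold gg
  have : (1 : ℝ) ≤ N := by exact_mod_cast hN
  have : 0 < Real.log ((N : ℝ) + 1) := Real.log_pos (by linarith)
  linarith

lemma bad_prob {N : ℕ} (hN : 1 ≤ N) : PP.real {u | AA N 0 u < gg N} ≤ 808 / (gg N) ^ 2 := by
  have hg := gg_pos hN
  set g := gg N with hgdef
  have hd3 : Dep N (fun u => Real.exp (-(AA N 0 u) / 2)) :=
    (Dep_AA le_rfl 0).comp (fun a => Real.exp (-a / 2))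
  have h1 : Real.exp (-g / 2) * PP.real {u | Real.exp (-g / 2) ≤ Real.exp (-(AA N 0 u) / 2)}
      ≤ ∫ u, Real.exp (-(AA N 0 u) / 2) ∂PP := by
    apply mul_meas_ge_le_integral_of_nonneg
    · filter_upwards with u
      exact (Real.exp_pos _).le
    · exact hd3.integrable
  have h2 : PP.real {u | AA N 0 u < g} ≤
      PP.real {u | Real.exp (-g / 2) ≤ Real.exp (-(AA N 0 u) / 2)} := by
    apply measureReal_mono
    · intro u hu
      simp only [Set.mem_setOf_eq] at hu ⊢
      apply Real.exp_le_exp.mpr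
      linarith
    · exact measure_ne_top _ _
  have h3 := integral_exp_half N
  have hsq : Real.sqrt ((N : ℝ) + 1) = Real.exp g := by
    have hpos : (0 : ℝ) < N + 1 := by positivity
    rw [Real.sqrt_eq_iff_mul_self_eq hpos.le (Real.exp_pos _).le, ← Real.exp_add, hgdef]
    unfold gg
    rw [show Real.log ((N : ℝ) + 1) / 2 + Real.log ((N : ℝ) + 1) / 2 = Real.log ((N : ℝ) + 1) by
      ring, Real.exp_log hpos]
  rw [hsq] at h3
  have h4 : Real.exp (-g / 2) * PP.real {u | AA N 0 u < g} ≤ 101 / Real.exp g :=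
    (mul_le_mul_of_nonneg_left h2 (Real.exp_pos _).le).trans (h1.trans h3)
  have h5 : PP.real {u | AA N 0 u < g} ≤ 101 * Real.exp (-g / 2) := by
    have e1 : Real.exp (g / 2) * Real.exp (-g / 2) = 1 := by
      rw [← Real.exp_add]; ring_nf; simp
    have e2 : Real.exp (g / 2) * (101 / Real.exp g) = 101 * Real.exp (-g / 2) := by
      have e3 : 101 / Real.exp g = 101 * Real.exp (-g) := by
        rw [Real.exp_neg]; ring
      have e4 : Real.exp (g / 2) * (101 * Real.exp (-g)) = 101 * (Real.exp (g / 2) * Real.exp (-g)) := by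
        ring
      rw [e3, e4, ← Real.exp_add]
      congr 2
      ring
    calc PP.real {u | AA N 0 u < g}
        = Real.exp (g / 2) * Real.exp (-g / 2) * PP.real {u | AA N 0 u < g} := by rw [e1, one_mul]
      _ = Real.exp (g / 2) * (Real.exp (-g / 2) * PP.real {u | AA N 0 u < g}) := by ring
      _ ≤ Real.exp (g / 2) * (101 / Real.exp g) :=
          mul_le_mul_of_nonneg_left h4 (Real.exp_pos _).le
      _ = _ := e2
  have h6 : Real.exp (-g / 2) ≤ 8 / g ^ 2 := by
    have h7 : (g / 2) ^ 2 / 2 ≤ Real.exp (g / 2) := by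
      have := Real.quadratic_le_exp_of_nonneg (x := g / 2) (by positivity)
      linarith [hg]
    have h8 : Real.exp (-g / 2) = 1 / Real.exp (g / 2) := by
      rw [one_div, ← Real.exp_neg]; congr 1; ring
    rw [h8, div_le_div_iff₀ (Real.exp_pos _) (by positivity)]
    linarith
  calc PP.real {u | AA N 0 u < g} ≤ 101 * (8 / g ^ 2) := by linarith
    _ = 808 / g ^ 2 := by ring

/-! ### Hitting probabilities -/

/-- The probability that the walk from `z` ever visits `A`. -/
noncomputable def hitp (A : Set V4) (z : V4) : ℝ≥0∞ := PP {u | ∃ n, z + SS n u ∈ A}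

lemma measurableSet_V4 (A : Set V4) : MeasurableSet A := (Set.to_countable A).measurableSet

lemma measurableSet_at (A : Set V4) (z : V4) (n : ℕ) : MeasurableSet {u | z + SS n u ∈ A} :=
  ((Dep_SS (le_refl n)).comp (fun w => z + w)).measurable (measurableSet_V4 A)

lemma measurableSet_lt (A : Set V4) (z : V4) (n : ℕ) :
    MeasurableSet {u | ∃ m < n, z + SS m u ∈ A} := by
  have : {u | ∃ m < n, z + SS m u ∈ A} = ⋃ m ∈ Finset.range n, {u | z + SS m u ∈ A} := by
    ext u; simp
  rw [this]
  exact Finset.measurableSet_biUnion _ (fun m _ => measurableSet_at A z m)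

lemma measurableSet_hit (A : Set V4) (z : V4) : MeasurableSet {u | ∃ n, z + SS n u ∈ A} := by
  have : {u | ∃ n, z + SS n u ∈ A} = ⋃ n, {u | z + SS n u ∈ A} := by ext u; simp
  rw [this]
  exact MeasurableSet.iUnion (fun n => measurableSet_at A z n)

lemma hitp_le_one (A : Set V4) (z : V4) : hitp A z ≤ 1 := prob_le_one

lemma hitp_of_mem {A : Set V4} {z : V4} (h : z ∈ A) : hitp A z = 1 := by
  unfold hitp
  have : {u : Str | ∃ n, z + SS n u ∈ A} = Set.univ := by
    ext u
    simp only [Set.mem_setOf_eq, Set.mem_univ, iff_true]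
    exact ⟨0, by simpa [SS_zero] using h⟩
  rw [this, measure_univ]

lemma hitp_union_le (A B : Set V4) (z : V4) : hitp (A ∪ B) z ≤ hitp A z + hitp B z := by
  unfold hitp
  refine le_trans (measure_mono ?_) (measure_union_le _ _)
  rintro u ⟨n, hn⟩
  rcases hn with h | h
  · left; exact ⟨n, h⟩
  · right; exact ⟨n, h⟩

lemma hitp_mono {A B : Set V4} (h : A ⊆ B) (z : V4) : hitp A z ≤ hitp B z :=
  measure_mono (fun _ ⟨n, hn⟩ => ⟨n, h hn⟩)

/-- Comparison with nonnegative superharmonic functions. -/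
lemma hitp_le (A : Set V4) (U : V4 → ℝ) (h0 : ∀ x, 0 ≤ U x) (hs : ∀ x, Pop U x ≤ U x)
    (h1 : ∀ x ∈ A, 1 ≤ U x) (z : V4) : hitp A z ≤ ENNReal.ofReal (U z) := by
  have hn : ∀ n z, PP.real {u | ∃ m < n, z + SS m u ∈ A} ≤ U z := by
    intro n
    induction n with
    | zero =>
      intro z
      simp
      exact h0 z
    | succ n ih =>
      intro z
      by_cases hz : z ∈ A
      · exact (measureReal_le_one).trans (h1 z hz)
      · rw [PP_real_apply (measurableSet_lt A z (n + 1))]
        have : ∀ s : Stp, {u | scons s u ∈ {u | ∃ m < n + 1, z + SS m u ∈ A}}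
            = {u | ∃ m < n, (z + vec s) + SS m u ∈ A} := by
          intro s
          ext u
          simp only [Set.mem_setOf_eq]
          constructor
          · rintro ⟨m, hm, hmem⟩
            cases m with
            | zero => simp [SS_zero] at hmem; exact absurd hmem hz
            | succ m =>
              refine ⟨m, by omega, ?_⟩
              rwa [SS_scons, ← add_assoc] at hmem
          · rintro ⟨m, hm, hmem⟩
            refine ⟨m + 1, by omega, ?_⟩
            rwa [SS_scons, ← add_assoc]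
        rw [Finset.sum_congr rfl (fun s _ => by rw [this s])]
        refine le_trans ?_ (hs z)
        exact Pop_mono ih z
  unfold hitp
  have hU : {u : Str | ∃ n, z + SS n u ∈ A} = ⋃ n, {u | ∃ m < n, z + SS m u ∈ A} := by
    ext u
    simp only [Set.mem_setOf_eq, Set.mem_iUnion]
    constructor
    · rintro ⟨n, h⟩; exact ⟨n + 1, n, by omega, h⟩
    · rintro ⟨n, m, _, h⟩; exact ⟨m, h⟩
  rw [hU, Monotone.measure_iUnion]
  · apply iSup_le
    intro n
    rw [← ENNReal.ofReal_toReal (measure_ne_top PP {u | ∃ m < n, z + SS m u ∈ A})]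
    exact ENNReal.ofReal_le_ofReal (hn n z)
  · intro a b hab u hu
    obtain ⟨m, hm, h⟩ := hu
    exact ⟨m, by omega, h⟩

open Classical in
/-- Hit before time `L`, or the probability to hit afterwards. -/
noncomputable def HH (A : Set V4) (L : ℕ) (z : V4) (u : Str) : ℝ≥0∞ :=
  if ∃ m ≤ L, z + SS m u ∈ A then 1 else hitp A (z + SS L u)

lemma Dep_HH (A : Set V4) (L : ℕ) (z : V4) : Dep L (HH A L z) := by
  intro u u' h
  have h1 : ∀ m ≤ L, SS m u = SS m u' := fun m hm => Dep_SS hm u u' h
  unfold HH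
  have h2 : (∃ m ≤ L, z + SS m u ∈ A) ↔ (∃ m ≤ L, z + SS m u' ∈ A) := by
    constructor
    · rintro ⟨m, hm, h⟩; exact ⟨m, hm, by rwa [← h1 m hm]⟩
    · rintro ⟨m, hm, h⟩; exact ⟨m, hm, by rwa [h1 m hm]⟩
  rw [h1 L le_rfl]
  by_cases h3 : ∃ m ≤ L, z + SS m u' ∈ A
  · rw [if_pos h3, if_pos (h2.mpr h3)]
  · rw [if_neg h3, if_neg (fun hh => h3 (h2.mp hh))]

lemma hitp_step {A : Set V4} {z : V4} (hz : z ∉ A) :
    hitp A z = (8 : ℝ≥0∞)⁻¹ * ∑ s : Stp, hitp A (z + vec s) := by
  unfold hitp
  rw [PP_apply (measurableSet_hit A z)]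
  congr 1
  refine Finset.sum_congr rfl (fun s _ => ?_)
  congr 1
  ext u
  simp only [Set.mem_setOf_eq]
  constructor
  · rintro ⟨m, hmem⟩
    cases m with
    | zero => simp [SS_zero] at hmem; exact absurd hmem hz
    | succ m =>
      refine ⟨m, ?_⟩
      rwa [SS_scons, ← add_assoc] at hmem
  · rintro ⟨m, hmem⟩
    refine ⟨m + 1, ?_⟩
    rwa [SS_scons, ← add_assoc]

lemma lintegral_HH (A : Set V4) (L : ℕ) (z : V4) : ∫⁻ u, HH A L z u ∂PP = hitp A z := by
  induction L generalizing z with
  | zero =>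
    have : ∀ u, HH A 0 z u = hitp A z := by
      intro u
      unfold HH
      simp only [SS_zero, add_zero]
      split_ifs with h
      · obtain ⟨m, hm, h⟩ := h
        have : m = 0 := by omega
        subst this
        rw [hitp_of_mem (by simpa [SS_zero] using h)]
      · rfl
    simp [this]
  | succ L ih =>
    by_cases hz : z ∈ A
    · have : ∀ u, HH A (L + 1) z u = 1 := by
        intro u
        unfold HH
        rw [if_pos ⟨0, by omega, by simpa [SS_zero] using hz⟩]
      simp [this, hitp_of_mem hz]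
    · rw [lintegral_PP (Dep_HH A (L + 1) z).measurable, hitp_step hz]
      congr 1
      refine Finset.sum_congr rfl (fun s _ => ?_)
      rw [← ih]
      congr 1
      funext u
      unfold HH
      have hiff : (∃ m ≤ L + 1, z + SS m (scons s u) ∈ A) ↔ (∃ m ≤ L, z + vec s + SS m u ∈ A) := by
        constructor
        · rintro ⟨m, hm, hmem⟩
          cases m with
          | zero => simp [SS_zero] at hmem; exact absurd hmem hz
          | succ m =>
            refine ⟨m, by omega, ?_⟩
            rwa [SS_scons, ← add_assoc] at hmem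
        · rintro ⟨m, hm, hmem⟩
          refine ⟨m + 1, by omega, ?_⟩
          rwa [SS_scons, ← add_assoc]
      rw [SS_scons, ← add_assoc]
      by_cases h3 : ∃ m ≤ L, z + vec s + SS m u ∈ A
      · rw [if_pos h3, if_pos (hiff.mpr h3)]
      · rw [if_neg h3, if_neg (fun hh => h3 (hiff.mp hh))]

end Pool.Agent.Helper41.NI
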