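import Mathlib

/-!
# Lyapunov functions for simple random walk on the four-dimensional integer lattice
-/

namespace Pool.Agent.Helper41.NI

open Finset

/-- The lattice. -/
abbrev V4 := Fin 4 → ℤ

/-- The set of steps: a coordinate and a sign. -/
abbrev Stp := Fin 4 × Bool

/-- The increment given by a step. -/
def vec (s : Stp) : V4 := Pi.single s.1 (if s.2 then 1 else -1)

/-- Squared Euclidean norm. -/
noncomputable def nsq (x : V4) : ℝ := ∑ i, (x i : ℝ) ^ 2

/-- The shifted squared norm. -/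
noncomputable def VV (x : V4) : ℝ := nsq x + 2

/-- The explicit superharmonic function. -/
noncomputable def ff (x : V4) : ℝ := 1 / VV x

/-- The square root of `ff`. -/
noncomputable def WW (x : V4) : ℝ := 1 / Real.sqrt (VV x)

/-- The one-step averaging operator. -/
noncomputable def Pop (φ : V4 → ℝ) (x : V4) : ℝ := (1 / 8) * ∑ s : Stp, φ (x + vec s)

lemma nsq_nonneg (x : V4) : 0 ≤ nsq x := Finset.sum_nonneg (fun _ _ => sq_nonneg _)

lemma VV_ge (x : V4) : 2 ≤ VV x := by unfold VV; linarith [nsq_nonneg x]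

lemma VV_pos (x : V4) : 0 < VV x := by linarith [VV_ge x]

lemma nsq_neg (x : V4) : nsq (-x) = nsq x := by
  unfold nsq
  refine Finset.sum_congr rfl (fun i _ => ?_)
  simp

lemma ff_neg (x : V4) : ff (-x) = ff x := by unfold ff VV; rw [nsq_neg]

lemma ff_pos (x : V4) : 0 < ff x := by unfold ff; have := VV_pos x; positivity

lemma ff_le_half (x : V4) : ff x ≤ 1 / 2 := by
  unfold ff
  exact one_div_le_one_div_of_le (by norm_num) (VV_ge x)

lemma nsq_step (x : V4) (s : Stp) :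
    nsq (x + vec s) = nsq x + 1 + 2 * (if s.2 then (1:ℝ) else -1) * x s.1 := by
  obtain ⟨i, b⟩ := s
  unfold nsq vec
  simp only [Fin.sum_univ_four]
  fin_cases i <;> cases b <;> simp <;> ring

lemma VV_step (x : V4) (s : Stp) :
    VV (x + vec s) = VV x + 1 + 2 * (if s.2 then (1:ℝ) else -1) * x s.1 := by
  unfold VV; rw [nsq_step]; ring

lemma sum_stp (F : Stp → ℝ) : ∑ s : Stp, F s = ∑ i : Fin 4, (F (i, true) + F (i, false)) := by
  rw [Fintype.sum_prod_type]
  simp

lemma coord_sq_le (x : V4) (i : Fin 4) : (x i : ℝ) ^ 2 ≤ nsq x :=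
  Finset.single_le_sum (f := fun i => (x i : ℝ) ^ 2) (fun _ _ => sq_nonneg _) (Finset.mem_univ i)

lemma VV_step_le (x : V4) (s : Stp) : VV (x + vec s) ≤ 2 * VV x := by
  rw [VV_step]
  have h := coord_sq_le x s.1
  unfold VV
  split_ifs
  · nlinarith [sq_nonneg ((x s.1 : ℝ) - 1)]
  · nlinarith [sq_nonneg ((x s.1 : ℝ) + 1)]

lemma le_VV_step (x : V4) (s : Stp) : VV x ≤ 2 * VV (x + vec s) := by
  rw [VV_step]
  have h := coord_sq_le x s.1
  unfold VV
  split_ifs
  · nlinarith [sq_nonneg ((x s.1 : ℝ) + 2)]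
  · nlinarith [sq_nonneg ((x s.1 : ℝ) - 2)]

lemma Pop_VV (x : V4) : Pop VV x = VV x + 1 := by
  unfold Pop
  rw [sum_stp]
  simp only [VV_step, Fin.sum_univ_four]
  simp
  ring

lemma sum_step_sq (x : V4) :
    (1 / 8 : ℝ) * ∑ s : Stp, (VV (x + vec s) - VV x) ^ 2 = 1 + nsq x := by
  rw [sum_stp]
  simp only [VV_step, Fin.sum_univ_four, nsq]
  simp
  ring

lemma sum_step_sq' (x : V4) :
    (1 / 8 : ℝ) * ∑ s : Stp, (VV (x + vec s) - VV x - 1) ^ 2 = nsq x := by
  rw [sum_stp]
  simp only [VV_step, Fin.sum_univ_four, nsq]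
  simp
  ring

/-- `ff` is superharmonic. -/
lemma Pop_ff_le (x : V4) : Pop ff x ≤ ff x := by
  unfold Pop ff
  rw [sum_stp]
  set q := nsq x with hq
  have hq0 : 0 ≤ q := nsq_nonneg x
  have hV : VV x = q + 2 := rfl
  set s := q + 3 with hs
  have hspos : 0 < s := by linarith
  have hD : 0 < s ^ 2 - 4 * q := by rw [hs]; nlinarith
  have key : ∀ i : Fin 4, 1 / VV (x + vec (i, true)) + 1 / VV (x + vec (i, false))
      ≤ 2 / s + 8 * (x i : ℝ) ^ 2 / (s * (s ^ 2 - 4 * q)) := by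
    intro i
    have h1 : VV (x + vec (i, true)) = s + 2 * x i := by
      rw [VV_step, hV]; simp; ring
    have h2 : VV (x + vec (i, false)) = s - 2 * x i := by
      rw [VV_step, hV]; simp; ring
    have p1 := VV_pos (x + vec (i, true))
    have p2 := VV_pos (x + vec (i, false))
    have ht := coord_sq_le x i
    rw [← hq] at ht
    rw [h1] at p1 ⊢
    rw [h2] at p2 ⊢
    set t := (x i : ℝ) with htdef
    have hprod : 0 < s ^ 2 - 4 * t ^ 2 := by nlinarith
    have e1 : 1 / (s + 2 * t) + 1 / (s - 2 * t) = 2 * s / (s ^ 2 - 4 * t ^ 2) := by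
      rw [div_add_div _ _ p1.ne' p2.ne', div_eq_div_iff (by positivity) hprod.ne']
      ring
    rw [e1]
    have e2 : 2 * s / (s ^ 2 - 4 * t ^ 2) = 2 / s + 8 * t ^ 2 / (s * (s ^ 2 - 4 * t ^ 2)) := by
      have hne := hprod.ne'
      rw [div_add_div _ _ hspos.ne' (by positivity), div_eq_div_iff hne (by positivity)]
      ring
    rw [e2]
    have : 8 * t ^ 2 / (s * (s ^ 2 - 4 * t ^ 2)) ≤ 8 * t ^ 2 / (s * (s ^ 2 - 4 * q)) := by
      apply div_le_div_of_nonneg_left (by positivity) (by positivity)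
      apply mul_le_mul_of_nonneg_left _ hspos.le
      linarith
    linarith
  have hsum : ∑ i : Fin 4, (1 / VV (x + vec (i, true)) + 1 / VV (x + vec (i, false)))
      ≤ ∑ i : Fin 4, (2 / s + 8 * (x i : ℝ) ^ 2 / (s * (s ^ 2 - 4 * q))) :=
    Finset.sum_le_sum (fun i _ => key i)
  have hsum2 : ∑ i : Fin 4, (2 / s + 8 * (x i : ℝ) ^ 2 / (s * (s ^ 2 - 4 * q)))
      = 8 / s + 8 * q / (s * (s ^ 2 - 4 * q)) := by
    rw [Finset.sum_add_distrib, ← Finset.sum_div, ← Finset.sum_div, ← Finset.mul_sum]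
    simp only [Finset.sum_const, Finset.card_univ, Fintype.card_fin]
    have : ∑ i : Fin 4, (x i : ℝ) ^ 2 = q := rfl
    rw [this]
    norm_num
  have hfin : (1 / 8 : ℝ) * (8 / s + 8 * q / (s * (s ^ 2 - 4 * q))) ≤ 1 / VV x := by
    rw [hV]
    have hs2 : q + 2 = s - 1 := by rw [hs]; ring
    have hs1 : 0 < s - 1 := by rw [hs]; linarith
    rw [hs2]
    have e3 : 1 / (s - 1) = 1 / s + 1 / (s * (s - 1)) := by field_simp; ring
    rw [e3]
    have e4 : (1 / 8 : ℝ) * (8 / s + 8 * q / (s * (s ^ 2 - 4 * q)))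
        = 1 / s + q / (s * (s ^ 2 - 4 * q)) := by ring
    rw [e4]
    have : q / (s * (s ^ 2 - 4 * q)) ≤ 1 / (s * (s - 1)) := by
      rw [div_le_div_iff₀ (by positivity) (by positivity)]
      have : q * (s - 1) ≤ s ^ 2 - 4 * q := by rw [hs]; nlinarith
      nlinarith
    linarith
  calc (1 / 8 : ℝ) * ∑ i : Fin 4, (1 / VV (x + vec (i, true)) + 1 / VV (x + vec (i, false)))
      ≤ (1 / 8) * (8 / s + 8 * q / (s * (s ^ 2 - 4 * q))) := by
        rw [← hsum2]; linarith
    _ ≤ 1 / VV x := hfin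

lemma ineq_log {y : ℝ} (hy : 0 < y) (hy3 : y ≤ 3) :
    (7 / 8) * (1 - 1 / y) + (1 / 8) * (y - 1) ≤ Real.log y := by
  set t := Real.sqrt y with ht
  have htpos : 0 < t := Real.sqrt_pos.mpr hy
  have hty : t ^ 2 = y := Real.sq_sqrt hy.le
  have htle : t ≤ 1.8 := by
    rw [ht, Real.sqrt_le_left (by norm_num)]
    norm_num; linarith
  have hlog : Real.log y = 2 * Real.log t := by
    rw [← hty, Real.log_pow]; norm_num
  have h1 : 1 - 1 / t ≤ Real.log t := by
    have := Real.one_sub_inv_le_log_of_pos htpos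
    simpa using this
  have h2 : (7 / 8) * (1 - 1 / y) + (1 / 8) * (y - 1) ≤ 2 * (1 - 1 / t) := by
    rw [← hty]
    have : 2 * (1 - 1 / t) - ((7 / 8) * (1 - 1 / t ^ 2) + (1 / 8) * (t ^ 2 - 1))
        = (t - 1) ^ 2 * (7 - 2 * t - t ^ 2) / (8 * t ^ 2) := by
      field_simp
      ring
    have h3 : 0 ≤ (t - 1) ^ 2 * (7 - 2 * t - t ^ 2) / (8 * t ^ 2) := by
      apply div_nonneg _ (by positivity)
      apply mul_nonneg (sq_nonneg _)
      nlinarith
    linarith
  rw [hlog]; linarith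

lemma ineq_sqrt {y : ℝ} (hy : 0 < y) (hy3 : y ≤ 3) :
    1 / Real.sqrt y ≤ (7 / 16) * (1 / y) + 9 / 16 - (1 / 16) * (y - 1) := by
  set t := Real.sqrt y with ht
  have htpos : 0 < t := Real.sqrt_pos.mpr hy
  have hty : t ^ 2 = y := Real.sq_sqrt hy.le
  have htle : t ≤ 1.8 := by
    rw [ht, Real.sqrt_le_left (by norm_num)]
    norm_num; linarith
  rw [← hty]
  have : (7 / 16) * (1 / t ^ 2) + 9 / 16 - (1 / 16) * (t ^ 2 - 1) - 1 / t
      = (1 - t) ^ 2 * (8 - (1 + t) ^ 2) / (16 * t ^ 2) := by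
    field_simp
    ring
  have h3 : 0 ≤ (1 - t) ^ 2 * (8 - (1 + t) ^ 2) / (16 * t ^ 2) := by
    apply div_nonneg _ (by positivity)
    apply mul_nonneg (sq_nonneg _)
    nlinarith
  linarith

lemma ratio_bounds (x : V4) (s : Stp) :
    0 < VV (x + vec s) / VV x ∧ VV (x + vec s) / VV x ≤ 2 ∧ 1 / 2 ≤ VV (x + vec s) / VV x := by
  have h1 := VV_pos x
  have h2 := VV_pos (x + vec s)
  refine ⟨by positivity, ?_, ?_⟩
  · rw [div_le_iff₀ h1]; exact VV_step_le x s
  · rw [le_div_iff₀ h1]; linarith [le_VV_step x s]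

/-- linear combinations: the averages of `V'/V - 1` and `V/V' - 1`. -/
lemma avg_ratio (x : V4) :
    (1 / 8 : ℝ) * ∑ s : Stp, (VV (x + vec s) / VV x - 1) = ff x := by
  have h := Pop_VV x
  unfold Pop at h
  have hV := VV_pos x
  have : (1 / 8 : ℝ) * ∑ s : Stp, (VV (x + vec s) / VV x - 1)
      = ((1 / 8) * ∑ s : Stp, VV (x + vec s)) / VV x - 1 := by
    rw [Finset.sum_sub_distrib, ← Finset.sum_div]
    simp only [Finset.sum_const, Finset.card_univ, Fintype.card_prod, Fintype.card_fin,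
      Fintype.card_bool]
    norm_num
    ring
  rw [this, h]
  unfold ff
  field_simp
  ring

lemma avg_inv_ratio (x : V4) :
    (1 / 8 : ℝ) * ∑ s : Stp, (VV x / VV (x + vec s) - 1) ≤ 0 := by
  have h := Pop_ff_le x
  unfold Pop ff at h
  have hV := VV_pos x
  have e : (1 / 8 : ℝ) * ∑ s : Stp, (VV x / VV (x + vec s) - 1)
      = VV x * ((1 / 8) * ∑ s : Stp, 1 / VV (x + vec s)) - 1 := by
    rw [Finset.sum_sub_distrib]
    simp only [Finset.sum_const, Finset.card_univ, Fintype.card_prod, Fintype.card_fin,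
      Fintype.card_bool]
    have : ∑ s : Stp, VV x / VV (x + vec s) = VV x * ∑ s : Stp, 1 / VV (x + vec s) := by
      rw [Finset.mul_sum]
      exact Finset.sum_congr rfl (fun s _ => by ring)
    rw [this]
    norm_num
    ring
  rw [e]
  have : VV x * ((1 / 8) * ∑ s : Stp, 1 / VV (x + vec s)) ≤ VV x * (1 / VV x) :=
    mul_le_mul_of_nonneg_left h hV.le
  have h2 : VV x * (1 / VV x) = 1 := by field_simp
  linarith

/-- The logarithm is strictly subharmonic. -/
lemma Pop_log (x : V4) :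
    Real.log (VV x) + ff x / 8 ≤ Pop (fun z => Real.log (VV z)) x := by
  have hV := VV_pos x
  have key : ∀ s : Stp, (7 / 8) * (1 - VV x / VV (x + vec s)) +
      (1 / 8) * (VV (x + vec s) / VV x - 1) + Real.log (VV x) ≤ Real.log (VV (x + vec s)) := by
    intro s
    obtain ⟨r1, r2, r3⟩ := ratio_bounds x s
    have hV' := VV_pos (x + vec s)
    have h := ineq_log r1 (by linarith)
    rw [Real.log_div hV'.ne' hV.ne'] at h
    have e : 1 / (VV (x + vec s) / VV x) = VV x / VV (x + vec s) := by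
      rw [one_div_div]
    rw [e] at h
    linarith
  have hsum := Finset.sum_le_sum (s := Finset.univ) (fun s (_ : s ∈ Finset.univ) => key s)
  have a1 := avg_ratio x
  have a2 := avg_inv_ratio x
  unfold Pop
  simp only [Finset.sum_add_distrib, ← Finset.mul_sum, Finset.sum_const, Finset.card_univ,
    Fintype.card_prod, Fintype.card_fin, Fintype.card_bool] at hsum
  have e3 : ∑ s : Stp, (1 - VV x / VV (x + vec s)) = - ∑ s : Stp, (VV x / VV (x + vec s) - 1) := by
    rw [← Finset.sum_neg_distrib]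
    exact Finset.sum_congr rfl (fun s _ => by ring)
  rw [e3] at hsum
  norm_num at hsum a1 a2 ⊢
  linarith

lemma WW_pos (x : V4) : 0 < WW x := by
  unfold WW
  have := Real.sqrt_pos.mpr (VV_pos x)
  positivity

lemma WW_sq (x : V4) : (WW x) ^ 2 = ff x := by
  unfold WW ff
  rw [div_pow, Real.sq_sqrt (VV_pos x).le]
  simp

/-- Strict superharmonicity of `WW`. -/
lemma Pop_WW (x : V4) : Pop WW x ≤ WW x - (1 / 16) * (WW x) ^ 3 := by
  have hV := VV_pos x
  have hW := WW_pos x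
  have key : ∀ s : Stp, WW (x + vec s) ≤ WW x * ((7 / 16) * (VV x / VV (x + vec s) - 1) + 1
      - (1 / 16) * (VV (x + vec s) / VV x - 1)) := by
    intro s
    obtain ⟨r1, r2, r3⟩ := ratio_bounds x s
    have hV' := VV_pos (x + vec s)
    have h := ineq_sqrt r1 (by linarith)
    have e : 1 / (VV (x + vec s) / VV x) = VV x / VV (x + vec s) := by
      rw [one_div_div]
    rw [e] at h
    have e2 : WW (x + vec s) = WW x * (1 / Real.sqrt (VV (x + vec s) / VV x)) := by
      unfold WW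
      rw [Real.sqrt_div hV'.le]
      have := Real.sqrt_pos.mpr hV
      have := Real.sqrt_pos.mpr hV'
      field_simp
    rw [e2]
    apply mul_le_mul_of_nonneg_left _ hW.le
    linarith
  have hsum := Finset.sum_le_sum (s := Finset.univ) (fun s (_ : s ∈ Finset.univ) => key s)
  rw [← Finset.mul_sum] at hsum
  have a1 := avg_ratio x
  have a2 := avg_inv_ratio x
  simp only [Finset.sum_add_distrib, Finset.sum_sub_distrib (f := fun s => (7 / 16) *
    (VV x / VV (x + vec s) - 1) + 1), ← Finset.mul_sum, Finset.sum_const, Finset.card_univ,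
    Fintype.card_prod, Fintype.card_fin, Fintype.card_bool] at hsum
  have hcube : (WW x) ^ 3 = WW x * ff x := by rw [← WW_sq]; ring
  rw [hcube]
  unfold Pop
  set A := ∑ s : Stp, (VV x / VV (x + vec s) - 1)
  set B := ∑ s : Stp, (VV (x + vec s) / VV x - 1)
  have hB : B = 8 * ff x := by linarith
  have hA : A ≤ 0 := by linarith
  rw [hB] at hsum
  norm_num at hsum ⊢
  nlinarith [mul_nonneg hW.le (neg_nonneg.mpr hA)]

/-- `log ((V + n)/V)`. -/
noncomputable def ell (n : ℕ) (x : V4) : ℝ := Real.log (VV x + n) - Real.log (VV x)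

lemma ell_nonneg (n : ℕ) (x : V4) : 0 ≤ ell n x := by
  unfold ell
  have := VV_pos x
  have : Real.log (VV x) ≤ Real.log (VV x + n) := Real.log_le_log (by positivity) (by simp)
  linarith

lemma Pop_mono {φ ψ : V4 → ℝ} (h : ∀ x, φ x ≤ ψ x) (x : V4) : Pop φ x ≤ Pop ψ x := by
  unfold Pop
  apply mul_le_mul_of_nonneg_left _ (by norm_num)
  exact Finset.sum_le_sum (fun s _ => h _)

lemma Pop_add (φ ψ : V4 → ℝ) (x : V4) : Pop (fun z => φ z + ψ z) x = Pop φ x + Pop ψ x := by
  unfold Pop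
  rw [Finset.sum_add_distrib]; ring

lemma Pop_sub (φ ψ : V4 → ℝ) (x : V4) : Pop (fun z => φ z - ψ z) x = Pop φ x - Pop ψ x := by
  unfold Pop
  rw [Finset.sum_sub_distrib]; ring

lemma Pop_smul (c : ℝ) (φ : V4 → ℝ) (x : V4) : Pop (fun z => c * φ z) x = c * Pop φ x := by
  unfold Pop
  rw [← Finset.mul_sum]; ring

lemma Pop_const (c : ℝ) (x : V4) : Pop (fun _ => c) x = c := by
  unfold Pop
  simp only [Finset.sum_const, Finset.card_univ, Fintype.card_prod, Fintype.card_fin,
      Fintype.card_bool]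
  norm_num
  ring

lemma Pop_ell (n : ℕ) (x : V4) : Pop (ell n) x ≤ ell (n + 1) x - ff x / 8 := by
  have hV := VV_pos x
  have h1 : Pop (ell n) x = Pop (fun z => Real.log (VV z + n)) x
      - Pop (fun z => Real.log (VV z)) x := by
    rw [← Pop_sub]; rfl
  have h2 := Pop_log x
  have h3 : Pop (fun z => Real.log (VV z + n)) x ≤ Real.log (VV x + (n + 1 : ℕ)) := by
    have key : ∀ z : V4, Real.log (VV z + n) ≤ Real.log (VV x + (n + 1 : ℕ)) - 1
        + (VV x + (n + 1 : ℕ))⁻¹ * (VV z + n) := by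
      intro z
      have hz := VV_pos z
      have hR : 0 < VV x + (n + 1 : ℕ) := by positivity
      have := Real.log_le_sub_one_of_pos (x := (VV z + n) / (VV x + (n + 1 : ℕ))) (by positivity)
      rw [Real.log_div (by positivity) hR.ne'] at this
      rw [inv_mul_eq_div]
      linarith
    have h4 := Pop_mono key x
    rw [Pop_add, Pop_const, Pop_smul, Pop_add, Pop_const, Pop_VV] at h4
    have hR : 0 < VV x + (n + 1 : ℕ) := by positivity
    have h5 : (VV x + (n + 1 : ℕ))⁻¹ * (VV x + 1 + n) = 1 := by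
      rw [inv_mul_eq_div, div_eq_one_iff_eq hR.ne']
      push_cast; ring
    rw [h5] at h4
    linarith
  unfold ell at *
  linarith

lemma log_sq_le {y c : ℝ} (hc : 1 ≤ c) (hy : 1 ≤ c * y) (hy0 : 0 < y) :
    (Real.log y) ^ 2 ≤ c ^ 2 * (y - 1) ^ 2 := by
  have hcy : 1 / y ≤ c := by
    rw [div_le_iff₀ hy0]; exact hy
  have h1 : Real.log y ≤ y - 1 := Real.log_le_sub_one_of_pos hy0
  have h2 : -(Real.log y) ≤ 1 / y - 1 := by
    have := Real.log_le_sub_one_of_pos (x := 1 / y) (by positivity)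
    rw [Real.log_div (by norm_num) hy0.ne', Real.log_one] at this
    linarith
  have h3 : |Real.log y| ≤ c * |y - 1| := by
    rcases le_total 1 y with h | h
    · have hl : 0 ≤ Real.log y := Real.log_nonneg h
      rw [abs_of_nonneg hl, abs_of_nonneg (by linarith)]
      nlinarith
    · have hl : Real.log y ≤ 0 := Real.log_nonpos hy0.le h
      rw [abs_of_nonpos hl, abs_of_nonpos (by linarith)]
      have : 1 / y - 1 = (1 / y) * (1 - y) := by field_simp
      have h4 : (1 / y) * (1 - y) ≤ c * (1 - y) := mul_le_mul_of_nonneg_right hcy (by linarith)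
      linarith
  calc (Real.log y) ^ 2 = |Real.log y| ^ 2 := (sq_abs _).symm
    _ ≤ (c * |y - 1|) ^ 2 := by
        apply pow_le_pow_left₀ (abs_nonneg _) h3
    _ = c ^ 2 * (y - 1) ^ 2 := by rw [mul_pow, sq_abs]

lemma Pop_ell_sq (n : ℕ) (x : V4) :
    Pop (fun z => (ell n z) ^ 2) x ≤ (ell (n + 1) x) ^ 2 - (1 / 4) * ff x * ell (n + 1) x
      + 26 * ff x := by
  have hV := VV_pos x
  have hV2 := VV_ge x
  set R := VV x + (n + 1 : ℕ) with hR
  have hRpos : 0 < R := by positivity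
  have hRV : VV x ≤ R := by rw [hR]; simp; positivity
  set δ : V4 → ℝ := fun z => ell n z - ell (n + 1) x with hδ
  have hδsq : ∀ s : Stp, (δ (x + vec s)) ^ 2 ≤ (18 / R ^ 2) * (VV (x + vec s) - VV x - 1) ^ 2
      + (8 / VV x ^ 2) * (VV (x + vec s) - VV x) ^ 2 := by
    intro s
    have hV' := VV_pos (x + vec s)
    obtain ⟨r1, r2, r3⟩ := ratio_bounds x s
    have hb : (Real.log (VV (x + vec s) / VV x)) ^ 2 ≤
        2 ^ 2 * (VV (x + vec s) / VV x - 1) ^ 2 := log_sq_le (by norm_num) (by linarith) r1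
    have hpos' : 0 < (VV (x + vec s) + n) / R := by positivity
    have hthird : 1 ≤ 3 * ((VV (x + vec s) + n) / R) := by
      rw [← mul_div_assoc, le_div_iff₀ hRpos, one_mul, hR, VV_step]
      have h := coord_sq_le x s.1
      have hn : (0:ℝ) ≤ n := Nat.cast_nonneg n
      unfold VV
      push_cast
      split_ifs
      · nlinarith [sq_nonneg ((x s.1 : ℝ) + 3 / 2)]
      · nlinarith [sq_nonneg ((x s.1 : ℝ) - 3 / 2)]
    have ha := log_sq_le (c := 3) (by norm_num) hthird hpos'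
    have e1 : (VV (x + vec s) + n) / R - 1 = (VV (x + vec s) - VV x - 1) / R := by
      rw [div_sub_one hRpos.ne']
      congr 1
      rw [hR]; push_cast; ring
    have e2 : VV (x + vec s) / VV x - 1 = (VV (x + vec s) - VV x) / VV x := by
      rw [div_sub_one hV.ne']
    rw [e1] at ha
    rw [e2] at hb
    have e3 : δ (x + vec s) = Real.log ((VV (x + vec s) + n) / R)
        - Real.log (VV (x + vec s) / VV x) := by
      rw [hδ]
      simp only [ell]
      rw [Real.log_div (by positivity) hRpos.ne', Real.log_div hV'.ne' hV.ne']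
      ring
    rw [e3]
    set a := Real.log ((VV (x + vec s) + n) / R)
    set b := Real.log (VV (x + vec s) / VV x)
    have h4 : (a - b) ^ 2 ≤ 2 * a ^ 2 + 2 * b ^ 2 := by nlinarith [sq_nonneg (a + b)]
    rw [div_pow] at ha hb
    have e5 : (18 / R ^ 2) * (VV (x + vec s) - VV x - 1) ^ 2
        = 2 * (3 ^ 2 * ((VV (x + vec s) - VV x - 1) ^ 2 / R ^ 2)) := by ring
    have e6 : (8 / VV x ^ 2) * (VV (x + vec s) - VV x) ^ 2
        = 2 * (2 ^ 2 * ((VV (x + vec s) - VV x) ^ 2 / VV x ^ 2)) := by ring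
    rw [e5, e6]
    linarith
  have hδ2 : Pop (fun z => (δ z) ^ 2) x ≤ 26 * ff x := by
    unfold Pop
    have h1 : ∑ s : Stp, (δ (x + vec s)) ^ 2 ≤ (18 / R ^ 2) * ∑ s : Stp,
        (VV (x + vec s) - VV x - 1) ^ 2 + (8 / VV x ^ 2) * ∑ s : Stp,
        (VV (x + vec s) - VV x) ^ 2 := by
      rw [Finset.mul_sum, Finset.mul_sum, ← Finset.sum_add_distrib]
      exact Finset.sum_le_sum (fun s _ => hδsq s)
    have s1 := sum_step_sq x
    have s2 := sum_step_sq' x
    have e7 : ∑ s : Stp, (VV (x + vec s) - VV x - 1) ^ 2 = 8 * nsq x := by linarith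
    have e8 : ∑ s : Stp, (VV (x + vec s) - VV x) ^ 2 = 8 * (1 + nsq x) := by linarith
    rw [e7, e8] at h1
    have b1 : (18 / R ^ 2) * (8 * nsq x) ≤ 8 * (18 * ff x) := by
      unfold ff
      have : nsq x ≤ VV x := by unfold VV; linarith
      have h9 : nsq x / R ^ 2 ≤ 1 / VV x := by
        rw [div_le_div_iff₀ (by positivity) hV]
        have : nsq x * VV x ≤ VV x * VV x := mul_le_mul_of_nonneg_right this hV.le
        nlinarith
      calc (18 / R ^ 2) * (8 * nsq x) = 8 * (18 * (nsq x / R ^ 2)) := by ring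
        _ ≤ 8 * (18 * (1 / VV x)) := by linarith
    have b2 : (8 / VV x ^ 2) * (8 * (1 + nsq x)) ≤ 8 * (8 * ff x) := by
      unfold ff
      have h9 : (1 + nsq x) / VV x ^ 2 ≤ 1 / VV x := by
        rw [div_le_div_iff₀ (by positivity) hV]
        have : 1 + nsq x ≤ VV x := by unfold VV; linarith
        nlinarith
      calc (8 / VV x ^ 2) * (8 * (1 + nsq x)) = 8 * (8 * ((1 + nsq x) / VV x ^ 2)) := by ring
        _ ≤ 8 * (8 * (1 / VV x)) := by linarith
    linarith
  have hδ1 : Pop δ x ≤ - (ff x / 8) := by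
    have := Pop_ell n x
    have e : Pop δ x = Pop (ell n) x - ell (n + 1) x := by
      rw [hδ, Pop_sub, Pop_const]
    linarith
  have hexp : Pop (fun z => (ell n z) ^ 2) x = (ell (n + 1) x) ^ 2
      + 2 * ell (n + 1) x * Pop δ x + Pop (fun z => (δ z) ^ 2) x := by
    have e : (fun z => (ell n z) ^ 2) = fun z => ((ell (n + 1) x) ^ 2
      + (2 * ell (n + 1) x) * δ z) + (δ z) ^ 2 := by
      funext z
      rw [hδ]; ring
    rw [e, Pop_add, Pop_add, Pop_const, Pop_smul]
  rw [hexp]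
  have hl := ell_nonneg (n + 1) x
  nlinarith [mul_nonneg hl (sub_nonneg.mpr hδ1)]

/-! ### Iterates of the averaging operator -/

/-- The `n`-step averaging operator. -/
noncomputable def Pn (n : ℕ) (φ : V4 → ℝ) : V4 → ℝ := Pop^[n] φ

lemma Pn_zero (φ : V4 → ℝ) : Pn 0 φ = φ := rfl

lemma Pn_succ (n : ℕ) (φ : V4 → ℝ) : Pn (n + 1) φ = Pop (Pn n φ) := by
  unfold Pn; rw [Function.iterate_succ_apply']

lemma Pn_succ' (n : ℕ) (φ : V4 → ℝ) : Pn (n + 1) φ = Pn n (Pop φ) := by
  unfold Pn; rw [Function.iterate_succ_apply]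

lemma Pn_add_index (m n : ℕ) (φ : V4 → ℝ) : Pn (m + n) φ = Pn m (Pn n φ) := by
  unfold Pn; rw [Function.iterate_add_apply]

lemma Pn_mono (n : ℕ) {φ ψ : V4 → ℝ} (h : ∀ x, φ x ≤ ψ x) (x : V4) : Pn n φ x ≤ Pn n ψ x := by
  induction n generalizing x with
  | zero => exact h x
  | succ n ih => rw [Pn_succ, Pn_succ]; exact Pop_mono ih x

lemma Pn_add (n : ℕ) (φ ψ : V4 → ℝ) (x : V4) :
    Pn n (fun z => φ z + ψ z) x = Pn n φ x + Pn n ψ x := by
  induction n generalizing x with
  | zero => rfl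
  | succ n ih =>
    rw [Pn_succ, Pn_succ, Pn_succ, ← Pop_add]
    congr 1
    funext z
    exact ih z

lemma Pn_sub (n : ℕ) (φ ψ : V4 → ℝ) (x : V4) :
    Pn n (fun z => φ z - ψ z) x = Pn n φ x - Pn n ψ x := by
  induction n generalizing x with
  | zero => rfl
  | succ n ih =>
    rw [Pn_succ, Pn_succ, Pn_succ, ← Pop_sub]
    congr 1
    funext z
    exact ih z

lemma Pn_smul (n : ℕ) (c : ℝ) (φ : V4 → ℝ) (x : V4) :
    Pn n (fun z => c * φ z) x = c * Pn n φ x := by
  induction n generalizing x with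
  | zero => rfl
  | succ n ih =>
    rw [Pn_succ, Pn_succ, ← Pop_smul]
    congr 1
    funext z
    exact ih z

lemma Pn_const (n : ℕ) (c : ℝ) (x : V4) : Pn n (fun _ => c) x = c := by
  induction n generalizing x with
  | zero => rfl
  | succ n ih =>
    rw [Pn_succ]
    have : Pn n (fun _ => c) = fun _ => c := by funext z; exact ih z
    rw [this, Pop_const]

lemma Pn_sum {ι : Type*} (n : ℕ) (T : Finset ι) (φ : ι → V4 → ℝ) (x : V4) :
    Pn n (fun z => ∑ i ∈ T, φ i z) x = ∑ i ∈ T, Pn n (φ i) x := by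
  classical
  induction T using Finset.induction_on with
  | empty => simp [Pn_const]
  | insert a T ha ih =>
    have : (fun z => ∑ i ∈ insert a T, φ i z) = fun z => φ a z + ∑ i ∈ T, φ i z := by
      funext z; rw [Finset.sum_insert ha]
    rw [this, Pn_add, ih, Finset.sum_insert ha]

lemma Pn_pos (n : ℕ) {φ : V4 → ℝ} (h : ∀ x, 0 < φ x) (x : V4) : 0 < Pn n φ x := by
  induction n generalizing x with
  | zero => exact h x
  | succ n ih =>
    rw [Pn_succ]
    unfold Pop
    have : 0 < ∑ s : Stp, Pn n φ (x + vec s) := Finset.sum_pos (fun s _ => ih _)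
      ⟨(0, true), Finset.mem_univ _⟩
    positivity

lemma Pn_WW_succ (n : ℕ) (x : V4) :
    Pn (n + 1) WW x ≤ Pn n WW x - (1 / 16) * (Pn n WW x) ^ 3 := by
  rw [Pn_succ']
  have h1 : Pn n (Pop WW) x ≤ Pn n (fun z => WW z - (1 / 16) * (WW z) ^ 3) x :=
    Pn_mono n Pop_WW x
  rw [Pn_sub, Pn_smul] at h1
  set t := Pn n WW x with ht
  have htpos : 0 < t := Pn_pos n WW_pos x
  have h2 : Pn n (fun z => (3 * t ^ 2) * WW z - 2 * t ^ 3) x ≤ Pn n (fun z => (WW z) ^ 3) x := by
    apply Pn_mono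
    intro z
    have hz := WW_pos z
    nlinarith [mul_nonneg (add_nonneg hz.le (mul_nonneg (by norm_num : (0:ℝ) ≤ 2) htpos.le))
      (sq_nonneg (WW z - t))]
  rw [Pn_sub, Pn_smul, Pn_const, ← ht] at h2
  nlinarith

lemma Pn_WW_sq (n : ℕ) (x : V4) : (Pn n WW x) ^ 2 * (2 + n / 8) ≤ 1 := by
  induction n with
  | zero =>
    rw [Pn_zero, WW_sq]
    have := ff_le_half x
    norm_num; linarith
  | succ n ih =>
    set w := Pn n WW x with hw
    have hwpos : 0 < w := Pn_pos n WW_pos x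
    have h1 := Pn_WW_succ n x
    rw [← hw] at h1
    have h1pos : 0 < Pn (n + 1) WW x := Pn_pos (n + 1) WW_pos x
    have hn : (0 : ℝ) ≤ n := Nat.cast_nonneg n
    have hw2 : w ^ 2 ≤ 1 / 2 := by nlinarith [sq_nonneg w]
    set t := (1 / 16) * w ^ 2 with ht
    have ht0 : 0 ≤ t := by positivity
    have ht1 : t ≤ 1 := by rw [ht]; linarith
    have h2 : Pn (n + 1) WW x ≤ w * (1 - t) := by
      rw [ht]; linarith
    have h3 : (Pn (n + 1) WW x) ^ 2 ≤ (w * (1 - t)) ^ 2 := pow_le_pow_left₀ h1pos.le h2 2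
    have h4 : (w * (1 - t)) ^ 2 * (2 + ((n + 1 : ℕ) : ℝ) / 8) ≤ (1 - t) ^ 2 * (1 + 2 * t) := by
      have e : (w * (1 - t)) ^ 2 * (2 + ((n + 1 : ℕ) : ℝ) / 8)
          = (1 - t) ^ 2 * (w ^ 2 * (2 + n / 8) + 2 * t) := by
        rw [ht]; push_cast; ring
      rw [e]
      apply mul_le_mul_of_nonneg_left _ (sq_nonneg _)
      linarith
    have h5 : (1 - t) ^ 2 * (1 + 2 * t) ≤ 1 := by
      nlinarith [mul_nonneg (mul_nonneg ht0 ht0) (sub_nonneg.mpr ht1)]
    have h6 : (Pn (n + 1) WW x) ^ 2 * (2 + ((n + 1 : ℕ) : ℝ) / 8)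
        ≤ (w * (1 - t)) ^ 2 * (2 + ((n + 1 : ℕ) : ℝ) / 8) :=
      mul_le_mul_of_nonneg_right h3 (by positivity)
    linarith

/-- Partial sums of the expected values of `ff`. -/
noncomputable def m1s (m : ℕ) (x : V4) : ℝ := ∑ j ∈ Finset.range m, Pn j ff x

lemma m1s_succ (m : ℕ) (x : V4) : m1s (m + 1) x = ff x + Pop (m1s m) x := by
  unfold m1s
  rw [Finset.sum_range_succ']
  have h1 : Pop (fun z => ∑ j ∈ Finset.range m, Pn j ff z) x
      = ∑ j ∈ Finset.range m, Pn (j + 1) ff x := by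
    have h := Pn_sum 1 (Finset.range m) (fun j => Pn j ff) x
    rw [Pn_succ, Pn_zero] at h
    rw [h]
    refine Finset.sum_congr rfl (fun j _ => ?_)
    rw [Pn_succ, Pn_zero, Pn_succ]
  rw [h1]
  rw [Pn_zero, add_comm]

lemma m1s_le (m : ℕ) (x : V4) : m1s m x ≤ 8 * ell m x := by
  induction m generalizing x with
  | zero => simp [m1s, ell]
  | succ m ih =>
    rw [m1s_succ]
    have h1 : Pop (m1s m) x ≤ Pop (fun z => 8 * ell m z) x := Pop_mono ih x
    rw [Pop_smul] at h1
    have h2 := Pop_ell m x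
    linarith

lemma Pn_ff_succ_le (n : ℕ) (x : V4) : Pn (n + 1) ff x ≤ Pn n ff x := by
  rw [Pn_succ']
  exact Pn_mono n Pop_ff_le x

lemma Pn_ff_anti {m n : ℕ} (h : m ≤ n) (x : V4) : Pn n ff x ≤ Pn m ff x := by
  induction h with
  | refl => exact le_rfl
  | step _ ih => exact (Pn_ff_succ_le _ x).trans ih

lemma ell_le_sqrt (m : ℕ) (z : V4) : ell m z ≤ 2 * (Real.sqrt m * WW z) := by
  have hV := VV_pos z
  unfold ell
  rw [← Real.log_div (by positivity) hV.ne']
  set a := (m : ℝ) / VV z with ha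
  have ha0 : 0 ≤ a := by positivity
  have e1 : (VV z + m) / VV z = 1 + a := by rw [ha]; field_simp
  rw [e1]
  have e2 : Real.sqrt m * WW z = Real.sqrt a := by
    unfold WW
    rw [ha, Real.sqrt_div' _ hV.le]; ring
  rw [e2]
  set t := Real.sqrt (1 + a) with ht
  have htpos : 0 < t := Real.sqrt_pos.mpr (by linarith)
  have ht2 : t ^ 2 = 1 + a := Real.sq_sqrt (by linarith)
  have h1 : Real.log (1 + a) = 2 * Real.log t := by
    rw [← ht2, Real.log_pow]; norm_num
  have h2 : Real.log t ≤ t - 1 := Real.log_le_sub_one_of_pos htpos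
  have h3 : t ≤ 1 + Real.sqrt a := by
    rw [ht, Real.sqrt_le_left (by positivity)]
    have := Real.sq_sqrt ha0
    nlinarith [Real.sqrt_nonneg a]
  rw [h1]; linarith

lemma Pn_ff_two_mul (m : ℕ) (x : V4) : m * Pn (2 * m) ff x ≤ 48 := by
  have h1 : (m : ℝ) * Pn (2 * m) ff x ≤ ∑ j ∈ Finset.range m, Pn (m + j) ff x := by
    have : ∑ _j ∈ Finset.range m, Pn (2 * m) ff x ≤ ∑ j ∈ Finset.range m, Pn (m + j) ff x := by
      apply Finset.sum_le_sum
      intro j hj
      apply Pn_ff_anti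
      have := Finset.mem_range.mp hj
      omega
    simpa using this
  have h2 : ∑ j ∈ Finset.range m, Pn (m + j) ff x = Pn m (m1s m) x := by
    unfold m1s
    rw [Pn_sum]
    exact Finset.sum_congr rfl (fun j _ => by rw [Pn_add_index])
  have h3 : Pn m (m1s m) x ≤ 16 * (Real.sqrt m * Pn m WW x) := by
    have h4 : ∀ z, m1s m z ≤ (16 * Real.sqrt m) * WW z := by
      intro z
      have := m1s_le m z
      have := ell_le_sqrt m z
      linarith
    have := Pn_mono m h4 x
    rw [Pn_smul] at this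
    linarith
  have h5 := Pn_WW_sq m x
  have h6 : Real.sqrt m * Pn m WW x ≤ 3 := by
    have hw : 0 < Pn m WW x := Pn_pos m WW_pos x
    have hs := Real.sqrt_nonneg (m : ℝ)
    have hs2 : Real.sqrt m ^ 2 = m := Real.sq_sqrt (Nat.cast_nonneg m)
    by_contra hcon
    push Not at hcon
    have : 9 < (Real.sqrt m * Pn m WW x) ^ 2 := by nlinarith
    rw [mul_pow, hs2] at this
    nlinarith [sq_nonneg (Pn m WW x)]
  linarith

/-- The uniform on-diagonal type bound. -/
lemma Pn_ff_le (n : ℕ) (x : V4) : Pn n ff x ≤ 200 / (n + 1) := by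
  have hn : (0 : ℝ) ≤ n := Nat.cast_nonneg n
  rw [le_div_iff₀ (by positivity)]
  rcases Nat.lt_or_ge n 2 with h | h
  · have h1 : Pn n ff x ≤ ff x := Pn_ff_anti (Nat.zero_le n) x
    have h2 := ff_le_half x
    have h3 : (n : ℝ) ≤ 1 := by exact_mod_cast Nat.lt_succ_iff.mp h
    have h4 := Pn_pos n ff_pos x
    nlinarith
  · set m := n / 2 with hm
    have hm1 : 1 ≤ m := by omega
    have h2m : 2 * m ≤ n := by omega
    have hnm : n + 1 ≤ 4 * m := by omega
    have h1 : Pn n ff x ≤ Pn (2 * m) ff x := Pn_ff_anti h2m x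
    have h2 := Pn_ff_two_mul m x
    have h3 : ((n : ℝ) + 1) ≤ 4 * m := by exact_mod_cast hnm
    have h4 := Pn_pos n ff_pos x
    calc Pn n ff x * (n + 1) ≤ Pn n ff x * (4 * m) := mul_le_mul_of_nonneg_left h3 h4.le
      _ ≤ Pn (2 * m) ff x * (4 * m) := mul_le_mul_of_nonneg_right h1 (by positivity)
      _ ≤ 200 := by linarith

end Pool.Agent.Helper41.NI
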