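import Pool.Agent.Helper41.NI.Assemble

/-!
# Choice of the parameters
-/

namespace Pool.Agent.Helper41.NI

open Finset MeasureTheory ProbabilityTheory
open scoped ENNReal

/-- The scale `2 ^ (k ^ 2)`. -/
def Tk (k : ℕ) : ℕ := 2 ^ (k ^ 2)

lemma Tk_pos (k : ℕ) : 1 ≤ Tk k := Nat.one_le_two_pow

lemma Tk_succ (k : ℕ) : Tk (k + 1) = 2 ^ (2 * k + 1) * Tk k := by
  unfold Tk
  rw [← pow_add]
  congr 1
  ring

lemma two_Tk_le (k : ℕ) : 2 * Tk k ≤ Tk (k + 1) := by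
  rw [Tk_succ]
  apply Nat.mul_le_mul_right
  calc 2 = 2 ^ 1 := rfl
    _ ≤ 2 ^ (2 * k + 1) := Nat.pow_le_pow_right (by norm_num) (by omega)

lemma sq_le_Tk (k : ℕ) : k ^ 2 ≤ Tk k := by
  unfold Tk
  exact Nat.lt_two_pow_self.le

lemma gg_Tk {k : ℕ} : (k : ℝ) ^ 2 / 3 ≤ gg (Tk k) := by
  unfold gg
  have h1 : Real.log ((2 : ℝ) ^ (k ^ 2)) ≤ Real.log ((Tk k : ℝ) + 1) := by
    apply Real.log_le_log (by positivity)
    unfold Tk
    push_cast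
    linarith
  rw [Real.log_pow] at h1
  have h2 : (0.6931471803 : ℝ) < Real.log 2 := Real.log_two_gt_d9
  have h3 : (0 : ℝ) ≤ ((k ^ 2 : ℕ) : ℝ) := Nat.cast_nonneg _
  have h4 : ((k ^ 2 : ℕ) : ℝ) * 0.69 ≤ ((k ^ 2 : ℕ) : ℝ) * Real.log 2 :=
    mul_le_mul_of_nonneg_left (by linarith) h3
  push_cast at *
  linarith

lemma ell_Tk {k : ℕ} (hk : 1 ≤ k) {w : V4} (hw : (Tk k : ℝ) / (k : ℝ) ^ 2 ≤ nsq w) :
    ell (Tk (k + 1)) w ≤ 5 * k := by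
  have hk' : (1 : ℝ) ≤ k := by exact_mod_cast hk
  have hT : (1 : ℝ) ≤ Tk k := by exact_mod_cast Tk_pos k
  have hV : (Tk k : ℝ) / (k : ℝ) ^ 2 ≤ VV w := by unfold VV; linarith
  have hVpos := VV_pos w
  unfold ell
  rw [← Real.log_div (by positivity) hVpos.ne']
  have h1 : (VV w + (Tk (k + 1) : ℝ)) / VV w ≤ 2 ^ (4 * k + 2) := by
    rw [div_le_iff₀ hVpos]
    have h2 : (Tk k : ℝ) ≤ VV w * (k : ℝ) ^ 2 := by
      rwa [div_le_iff₀ (by positivity)] at hV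
    have h3 : (Tk (k + 1) : ℝ) = 2 ^ (2 * k + 1) * Tk k := by
      exact_mod_cast Tk_succ k
    have h4 : (k : ℝ) ≤ 2 ^ k := by exact_mod_cast (Nat.lt_two_pow_self (n := k)).le
    have h5 : (k : ℝ) ^ 2 ≤ 2 ^ (2 * k) := by
      calc (k : ℝ) ^ 2 ≤ (2 ^ k) ^ 2 := pow_le_pow_left₀ (by positivity) h4 2
        _ = 2 ^ (2 * k) := by rw [← pow_mul]; congr 1; ring
    have h6 : (Tk (k + 1) : ℝ) ≤ 2 ^ (4 * k + 1) * VV w := by
      rw [h3]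
      calc (2 : ℝ) ^ (2 * k + 1) * Tk k ≤ 2 ^ (2 * k + 1) * (VV w * 2 ^ (2 * k)) := by
            apply mul_le_mul_of_nonneg_left _ (by positivity)
            exact h2.trans (mul_le_mul_of_nonneg_left h5 hVpos.le)
        _ = 2 ^ (4 * k + 1) * VV w := by
            rw [show 4 * k + 1 = (2 * k + 1) + 2 * k by ring, pow_add]; ring
    have h7 : (1 : ℝ) ≤ 2 ^ (4 * k + 1) := one_le_pow₀ (by norm_num)
    have h8 : (2 : ℝ) ^ (4 * k + 2) = 2 ^ (4 * k + 1) + 2 ^ (4 * k + 1) := by ring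
    rw [h8]
    nlinarith
  have h2 : Real.log ((VV w + (Tk (k + 1) : ℝ)) / VV w) ≤ Real.log (2 ^ (4 * k + 2)) :=
    Real.log_le_log (by positivity) h1
  rw [Real.log_pow] at h2
  have h3 : Real.log 2 < 0.6931471808 := Real.log_two_lt_d9
  refine h2.trans ?_
  push_cast
  nlinarith

/-- The numerical error estimate for one block. -/
lemma err_bound {k : ℕ} (hk : 2 ≤ k) {w : V4} (hw : (Tk k : ℝ) / (k : ℝ) ^ 2 ≤ nsq w) :
    4 * ((128 * (ell (Tk (k + 1)) w) ^ 2 + 52480 * ell (Tk (k + 1)) w) / (gg (Tk k)) ^ 2)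
    + 6 * (400 / gg (Tk k) + 323200 / (gg (Tk k)) ^ 2)
    + 3 * (((Tk (k + 1) : ℝ) / ((k : ℝ) + 1) ^ 2 + 2) *
      (200 / (((Tk (k + 1) - Tk k : ℕ) : ℝ) + 1))) ≤ 30000000 / (k : ℝ) ^ 2 := by
  have hk' : (2 : ℝ) ≤ k := by exact_mod_cast hk
  have hkpos : (0 : ℝ) < k := by linarith
  set l := ell (Tk (k + 1)) w with hl
  set g := gg (Tk k) with hg
  have hl5 : l ≤ 5 * k := ell_Tk (by omega) hw
  have hl0 : 0 ≤ l := ell_nonneg _ _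
  have hgk : (k : ℝ) ^ 2 / 3 ≤ g := gg_Tk
  have hg0 : 0 < g := lt_of_lt_of_le (by positivity) hgk
  have e1 : (128 * l ^ 2 + 52480 * l) / g ^ 2 ≤ 2390400 / (k : ℝ) ^ 2 := by
    have a1 : 128 * l ^ 2 + 52480 * l ≤ 265600 * (k : ℝ) ^ 2 := by nlinarith
    have a2 : ((k : ℝ) ^ 2 / 3) ^ 2 ≤ g ^ 2 := pow_le_pow_left₀ (by positivity) hgk 2
    calc (128 * l ^ 2 + 52480 * l) / g ^ 2 ≤ (265600 * (k : ℝ) ^ 2) / g ^ 2 := by gcongr
      _ ≤ (265600 * (k : ℝ) ^ 2) / ((k : ℝ) ^ 2 / 3) ^ 2 := by gcongr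
      _ = 2390400 / (k : ℝ) ^ 2 := by field_simp; norm_num
  have e2 : 400 / g ≤ 1200 / (k : ℝ) ^ 2 := by
    calc 400 / g ≤ 400 / ((k : ℝ) ^ 2 / 3) := by gcongr
      _ = 1200 / (k : ℝ) ^ 2 := by field_simp; norm_num
  have e3 : 323200 / g ^ 2 ≤ 2908800 / (k : ℝ) ^ 2 := by
    have a2 : ((k : ℝ) ^ 2 / 3) ^ 2 ≤ g ^ 2 := pow_le_pow_left₀ (by positivity) hgk 2
    have a4 : (1 : ℝ) ≤ (k : ℝ) ^ 2 := by nlinarith
    have a3 : (k : ℝ) ^ 2 / 9 ≤ ((k : ℝ) ^ 2 / 3) ^ 2 := by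
      nlinarith [mul_nonneg (sq_nonneg (k : ℝ)) (sub_nonneg.mpr a4)]
    calc 323200 / g ^ 2 ≤ 323200 / ((k : ℝ) ^ 2 / 9) := by
          apply div_le_div_of_nonneg_left (by norm_num) (by positivity)
          linarith
      _ = 2908800 / (k : ℝ) ^ 2 := by field_simp; norm_num
  have e4 : ((Tk (k + 1) : ℝ) / ((k : ℝ) + 1) ^ 2 + 2) *
      (200 / (((Tk (k + 1) - Tk k : ℕ) : ℝ) + 1)) ≤ 1200 / (k : ℝ) ^ 2 := by
    have b1 : (2 : ℝ) * Tk k ≤ Tk (k + 1) := by exact_mod_cast two_Tk_le k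
    have b2 : ((Tk (k + 1) - Tk k : ℕ) : ℝ) = (Tk (k + 1) : ℝ) - Tk k := by
      rw [Nat.cast_sub]
      have := two_Tk_le k
      omega
    have b3 : ((k : ℝ) + 1) ^ 2 ≤ Tk (k + 1) := by exact_mod_cast sq_le_Tk (k + 1)
    set T := (Tk (k + 1) : ℝ) with hT
    have hTpos : 0 < T := lt_of_lt_of_le (by positivity) b3
    have b4 : T / 2 ≤ ((Tk (k + 1) - Tk k : ℕ) : ℝ) + 1 := by rw [b2]; linarith
    have b5 : 200 / (((Tk (k + 1) - Tk k : ℕ) : ℝ) + 1) ≤ 400 / T := by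
      calc 200 / (((Tk (k + 1) - Tk k : ℕ) : ℝ) + 1) ≤ 200 / (T / 2) := by gcongr
        _ = 400 / T := by field_simp; norm_num
    have b6 : T / ((k : ℝ) + 1) ^ 2 + 2 ≤ 3 * (T / (k : ℝ) ^ 2) := by
      have c1 : T / ((k : ℝ) + 1) ^ 2 ≤ T / (k : ℝ) ^ 2 := by
        gcongr
        linarith
      have c2 : 1 ≤ T / (k : ℝ) ^ 2 := by
        rw [le_div_iff₀ (by positivity)]
        nlinarith
      linarith
    calc (T / ((k : ℝ) + 1) ^ 2 + 2) * (200 / (((Tk (k + 1) - Tk k : ℕ) : ℝ) + 1))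
        ≤ (3 * (T / (k : ℝ) ^ 2)) * (400 / T) := by
          apply mul_le_mul b6 b5 (by positivity) (by positivity)
      _ = 1200 / (k : ℝ) ^ 2 := by field_simp; norm_num
  have e5 : 4 * (2390400 / (k : ℝ) ^ 2) + 6 * (1200 / (k : ℝ) ^ 2 + 2908800 / (k : ℝ) ^ 2)
      + 3 * (1200 / (k : ℝ) ^ 2) ≤ 30000000 / (k : ℝ) ^ 2 := by
    have : 4 * (2390400 / (k : ℝ) ^ 2) + 6 * (1200 / (k : ℝ) ^ 2 + 2908800 / (k : ℝ) ^ 2)
      + 3 * (1200 / (k : ℝ) ^ 2) = 27025200 / (k : ℝ) ^ 2 := by ring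
    rw [this]
    gcongr
    norm_num
  linarith

/-- Block lengths. -/
def lenK (k0 n : ℕ) : ℕ := Tk (k0 + n + 1) - Tk (k0 + n)

/-- Extra look-ahead. -/
def NK (k0 n : ℕ) : ℕ := Tk (k0 + n)

/-- Squared separation thresholds. -/
noncomputable def rhoK (k0 n : ℕ) : ℝ := (Tk (k0 + n) : ℝ) / ((k0 + n : ℕ) : ℝ) ^ 2

/-- Remaining error budget. -/
noncomputable def erK (k0 n : ℕ) : ℝ := 30000000 / (((k0 + n : ℕ) : ℝ) - 1)

lemma NK_pos (k0 n : ℕ) : 1 ≤ NK k0 n := Tk_pos _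

lemma lenK_pos (k0 n : ℕ) : 1 ≤ lenK k0 n := by
  unfold lenK
  have h1 := two_Tk_le (k0 + n)
  have h2 := Tk_pos (k0 + n)
  omega

lemma NK_le (k0 n : ℕ) : NK k0 n ≤ lenK k0 n + 2 := by
  unfold lenK NK
  have h1 := two_Tk_le (k0 + n)
  omega

lemma lenK_add (k0 n : ℕ) : lenK k0 n + NK k0 n = Tk (k0 + n + 1) := by
  unfold lenK NK
  have h1 := two_Tk_le (k0 + n)
  omega

lemma rhoK_nonneg (k0 n : ℕ) : 0 ≤ rhoK k0 n := by unfold rhoK; positivity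

lemma erK_nonneg {k0 : ℕ} (hk0 : 2 ≤ k0) (n : ℕ) : 0 ≤ erK k0 n := by
  unfold erK
  have : (2 : ℝ) ≤ ((k0 + n : ℕ) : ℝ) := by exact_mod_cast (by omega : 2 ≤ k0 + n)
  apply div_nonneg (by norm_num)
  linarith

lemma errB_K {k0 : ℕ} (hk0 : 2 ≤ k0) (n : ℕ) (x y : V4) (h : rhoK k0 n ≤ nsq (x - y)) :
    errB (lenK k0) (NK k0) (rhoK k0) n x y + erK k0 (n + 1) ≤ erK k0 n := by
  have hk : 2 ≤ k0 + n := by omega
  have h1 := err_bound hk h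
  unfold errB
  rw [lenK_add]
  have e1 : rhoK k0 (n + 1) = (Tk (k0 + n + 1) : ℝ) / (((k0 + n : ℕ) : ℝ) + 1) ^ 2 := by
    unfold rhoK
    rw [← add_assoc]
    push_cast
    rfl
  have e2 : erK k0 (n + 1) = 30000000 / ((k0 + n : ℕ) : ℝ) := by
    unfold erK
    congr 1
    push_cast
    ring
  rw [e1, e2]
  have e3 : erK k0 n = 30000000 / (((k0 + n : ℕ) : ℝ) - 1) := rfl
  rw [e3]
  have hk' : (2 : ℝ) ≤ ((k0 + n : ℕ) : ℝ) := by exact_mod_cast hk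
  set k := ((k0 + n : ℕ) : ℝ) with hkdef
  have h2 : 30000000 / k ^ 2 + 30000000 / k ≤ 30000000 / (k - 1) := by
    have hk1 : 0 < k - 1 := by linarith
    have hkp : 0 < k := by linarith
    have : 30000000 / (k - 1) - 30000000 / k - 30000000 / k ^ 2
        = 30000000 / (k ^ 2 * (k - 1)) := by
      field_simp
      ring
    have h3 : 0 < 30000000 / (k ^ 2 * (k - 1)) := by positivity
    linarith
  have h4 : 4 * ((128 * (ell (Tk (k0 + n + 1)) (x - y)) ^ 2 +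
      52480 * ell (Tk (k0 + n + 1)) (x - y)) / (gg (NK k0 n)) ^ 2)
    + 6 * (400 / gg (NK k0 n) + 323200 / (gg (NK k0 n)) ^ 2)
    + 3 * (((Tk (k0 + n + 1) : ℝ) / (k + 1) ^ 2 + 2) *
      (200 / ((lenK k0 n : ℝ) + 1))) ≤ 30000000 / k ^ 2 := h1
  linarith

end Pool.Agent.Helper41.NI
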