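import Pool.Agent.Helper41.NI.Hit

/-!
# Second moments of hitting probabilities of random-walk paths
-/

namespace Pool.Agent.Helper41.NI

open Finset MeasureTheory ProbabilityTheory
open scoped ENNReal

/-- The sites visited during the first `L` steps of the walk from `x`. -/
noncomputable def pathF (x : V4) (L : ℕ) (u : Str) : Finset V4 :=
  (Finset.range (L + 1)).image (fun m => x + SS m u)

lemma mem_pathF {x : V4} {L : ℕ} {u : Str} {z : V4} :
    z ∈ pathF x L u ↔ ∃ m ≤ L, x + SS m u = z := by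
  unfold pathF
  simp only [Finset.mem_image, Finset.mem_range, Nat.lt_succ_iff]

lemma Dep_pathF {L K : ℕ} (h : L ≤ K) (x : V4) : Dep K (pathF x L) := by
  intro u u' hu
  ext z
  rw [mem_pathF, mem_pathF]
  constructor
  · rintro ⟨m, hm, hz⟩
    exact ⟨m, hm, by rw [← Dep_SS (hm.trans h) u u' hu]; exact hz⟩
  · rintro ⟨m, hm, hz⟩
    exact ⟨m, hm, by rw [Dep_SS (hm.trans h) u u' hu]; exact hz⟩

/-- Indicator of the event that the additive functional is small. -/
noncomputable def bad (N : ℕ) (u : Str) : ℝ := if AA N 0 u < gg N then 1 else 0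

lemma bad_nonneg (N : ℕ) (u : Str) : 0 ≤ bad N u := by unfold bad; split_ifs <;> norm_num

lemma Dep_bad (N : ℕ) : Dep N (bad N) := fun u u' hu => by
  unfold bad
  rw [Dep_AA le_rfl 0 u u' hu]

lemma integral_bad {N : ℕ} (hN : 1 ≤ N) : ∫ u, bad N u ∂PP ≤ 808 / (gg N) ^ 2 := by
  have h : ∫ u, bad N u ∂PP = PP.real {u | AA N 0 u < gg N} := by
    have hm : MeasurableSet {u | AA N 0 u < gg N} :=
      (Dep_AA le_rfl 0).measurable (measurableSet_Iio)
    have : bad N = ({u | AA N 0 u < gg N} : Set Str).indicator 1 := by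
      funext u
      unfold bad
      by_cases h : AA N 0 u < gg N
      · rw [if_pos h, Set.indicator_of_mem (by exact h)]; rfl
      · rw [if_neg h, Set.indicator_of_notMem (by exact h)]
    rw [this, integral_indicator_one hm]
  rw [h]
  exact bad_prob hN

lemma integral_bad_nonneg (N : ℕ) : 0 ≤ ∫ u, bad N u ∂PP := integral_nonneg (bad_nonneg N)

/-- The comparison function. -/
noncomputable def UU (L N : ℕ) (y : V4) (v : Str) (z : V4) : ℝ :=
  (1 / gg N) * ∑ m ∈ Finset.range (L + N), ff (z - (y + SS m v))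
    + 2 * ∑ n ∈ Finset.range (L + 1), bad N (shift n v) * ff (z - (y + SS n v))

lemma Pop_translate (φ : V4 → ℝ) (c z : V4) : Pop (fun z => φ (z - c)) z = Pop φ (z - c) := by
  unfold Pop
  congr 1
  refine Finset.sum_congr rfl (fun s _ => ?_)
  show φ (z + vec s - c) = φ (z - c + vec s)
  congr 1
  abel

lemma Pn_translate (n : ℕ) (φ : V4 → ℝ) (c z : V4) :
    Pn n (fun z => φ (z - c)) z = Pn n φ (z - c) := by
  induction n generalizing z with
  | zero => rfl
  | succ n ih =>
    rw [Pn_succ, Pn_succ]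
    have : Pn n (fun z => φ (z - c)) = fun z => Pn n φ (z - c) := by funext w; exact ih w
    rw [this, Pop_translate]

lemma Pop_sum {ι : Type*} (T : Finset ι) (φ : ι → V4 → ℝ) (x : V4) :
    Pop (fun z => ∑ i ∈ T, φ i z) x = ∑ i ∈ T, Pop (φ i) x := by
  have h := Pn_sum 1 T φ x
  rw [Pn_succ, Pn_zero] at h
  rw [h]
  exact Finset.sum_congr rfl (fun i _ => by rw [Pn_succ, Pn_zero])

lemma UU_nonneg {N : ℕ} (hN : 1 ≤ N) (L : ℕ) (y : V4) (v : Str) (z : V4) : 0 ≤ UU L N y v z := by
  unfold UU
  have := gg_pos hN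
  have h1 : 0 ≤ ∑ m ∈ Finset.range (L + N), ff (z - (y + SS m v)) :=
    Finset.sum_nonneg (fun _ _ => (ff_pos _).le)
  have h2 : 0 ≤ ∑ n ∈ Finset.range (L + 1), bad N (shift n v) * ff (z - (y + SS n v)) :=
    Finset.sum_nonneg (fun _ _ => mul_nonneg (bad_nonneg _ _) (ff_pos _).le)
  positivity

lemma Pop_UU_le {N : ℕ} (hN : 1 ≤ N) (L : ℕ) (y : V4) (v : Str) (z : V4) :
    Pop (UU L N y v) z ≤ UU L N y v z := by
  have hg := gg_pos hN
  unfold UU
  rw [Pop_add (fun z => (1 / gg N) * ∑ m ∈ Finset.range (L + N), ff (z - (y + SS m v)))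
    (fun z => 2 * ∑ n ∈ Finset.range (L + 1), bad N (shift n v) * ff (z - (y + SS n v))),
    Pop_smul, Pop_smul, Pop_sum, Pop_sum]
  apply add_le_add
  · apply mul_le_mul_of_nonneg_left _ (by positivity)
    apply Finset.sum_le_sum
    intro m _
    rw [Pop_translate]
    exact Pop_ff_le _
  · apply mul_le_mul_of_nonneg_left _ (by norm_num)
    apply Finset.sum_le_sum
    intro n _
    rw [Pop_smul, Pop_translate]
    exact mul_le_mul_of_nonneg_left (Pop_ff_le _) (bad_nonneg _ _)

lemma one_le_UU {N : ℕ} (hN : 1 ≤ N) (L : ℕ) (y : V4) (v : Str) {z : V4}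
    (hz : z ∈ pathF y L v) : 1 ≤ UU L N y v z := by
  obtain ⟨n, hn, rfl⟩ := mem_pathF.mp hz
  have hg := gg_pos hN
  unfold UU
  have h1 : 0 ≤ ∑ m ∈ Finset.range (L + N), ff (y + SS n v - (y + SS m v)) :=
    Finset.sum_nonneg (fun _ _ => (ff_pos _).le)
  have h2 : 0 ≤ ∑ m ∈ Finset.range (L + 1), bad N (shift m v) * ff (y + SS n v - (y + SS m v)) :=
    Finset.sum_nonneg (fun _ _ => mul_nonneg (bad_nonneg _ _) (ff_pos _).le)
  by_cases hb : AA N 0 (shift n v) < gg N
  · have h3 : bad N (shift n v) * ff (y + SS n v - (y + SS n v)) ≤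
        ∑ m ∈ Finset.range (L + 1), bad N (shift m v) * ff (y + SS n v - (y + SS m v)) :=
      Finset.single_le_sum (f := fun m => bad N (shift m v) * ff (y + SS n v - (y + SS m v)))
        (fun _ _ => mul_nonneg (bad_nonneg _ _) (ff_pos _).le) (Finset.mem_range.mpr (by omega))
    have h4 : bad N (shift n v) = 1 := by unfold bad; rw [if_pos hb]
    rw [h4, sub_self, ff_zero] at h3
    have h5 : 0 ≤ (1 / gg N) * ∑ m ∈ Finset.range (L + N), ff (y + SS n v - (y + SS m v)) := by
      positivity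
    linarith
  · push Not at hb
    have h3 : AA N 0 (shift n v) ≤
        ∑ m ∈ Finset.range (L + N), ff (y + SS n v - (y + SS m v)) := by
      have h4 : ∑ m ∈ Finset.range (n + N), ff (y + SS n v - (y + SS m v)) ≤
          ∑ m ∈ Finset.range (L + N), ff (y + SS n v - (y + SS m v)) := by
        apply Finset.sum_le_sum_of_subset_of_nonneg
        · intro i hi
          rw [Finset.mem_range] at hi ⊢
          omega
        · intro _ _ _
          exact (ff_pos _).le
      refine le_trans ?_ h4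
      rw [Finset.sum_range_add]
      have h5 : 0 ≤ ∑ m ∈ Finset.range n, ff (y + SS n v - (y + SS m v)) :=
        Finset.sum_nonneg (fun _ _ => (ff_pos _).le)
      have h6 : AA N 0 (shift n v)
          = ∑ j ∈ Finset.range N, ff (y + SS n v - (y + SS (n + j) v)) := by
        unfold AA
        refine Finset.sum_congr rfl (fun j _ => ?_)
        rw [SS_add, ← ff_neg]
        congr 1
        abel
      rw [h6]
      linarith
    have h7 : 1 ≤ (1 / gg N) * ∑ m ∈ Finset.range (L + N), ff (y + SS n v - (y + SS m v)) := by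
      rw [one_div, inv_mul_eq_div, le_div_iff₀ hg]
      linarith
    linarith

lemma hitp_path_le {N : ℕ} (hN : 1 ≤ N) (L : ℕ) (y : V4) (v : Str) (z : V4) :
    hitp (pathF y L v : Set V4) z ≤ ENNReal.ofReal (UU L N y v z) :=
  hitp_le _ _ (UU_nonneg hN L y v) (Pop_UU_le hN L y v)
    (fun _ hx => one_le_UU hN L y v (by exact_mod_cast hx)) z

lemma ell_mono {m n : ℕ} (h : m ≤ n) (x : V4) : ell m x ≤ ell n x := by
  unfold ell
  have := VV_pos x
  have h1 : (m : ℝ) ≤ n := by exact_mod_cast h
  have : Real.log (VV x + m) ≤ Real.log (VV x + n) :=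
    Real.log_le_log (by positivity) (by linarith)
  linarith

lemma sq_le_of_le_add {t : ℝ≥0∞} {a b : ℝ} (ha : 0 ≤ a) (hb : 0 ≤ b) (h1 : t ≤ 1)
    (h : t ≤ ENNReal.ofReal (a + b)) : t ^ 2 ≤ ENNReal.ofReal (2 * a ^ 2 + 2 * b) := by
  have htop : t ≠ ∞ := ne_top_of_le_ne_top ENNReal.one_ne_top h1
  obtain ⟨s, hs⟩ : ∃ s : ℝ, s = t.toReal := ⟨_, rfl⟩
  have hs0 : 0 ≤ s := by rw [hs]; exact ENNReal.toReal_nonneg
  have hts : t = ENNReal.ofReal s := by rw [hs, ENNReal.ofReal_toReal htop]
  have hs1 : s ≤ 1 := by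
    rw [hs]; exact ENNReal.toReal_le_of_le_ofReal (by norm_num) (by simpa using h1)
  have hsab : s ≤ a + b := by
    rw [hs]; exact ENNReal.toReal_le_of_le_ofReal (by positivity) h
  rw [hts, ← ENNReal.ofReal_pow hs0]
  apply ENNReal.ofReal_le_ofReal
  rcases le_total 1 b with hb1 | hb1
  · nlinarith [sq_nonneg a]
  · nlinarith [sq_nonneg (a - b), mul_nonneg hb (sub_nonneg.mpr hb1)]

/-- The second moment of the hitting probability of a path. -/
lemma lintegral_hitp_sq {N : ℕ} (hN : 1 ≤ N) (L : ℕ) (x y : V4) :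
    ∫⁻ v, (hitp (pathF y L v : Set V4) x) ^ 2 ∂PP ≤
      ENNReal.ofReal ((128 * (ell (L + N) (y - x)) ^ 2 + 52480 * ell (L + N) (y - x))
        / (gg N) ^ 2) := by
  have hg := gg_pos hN
  set a : Str → ℝ := fun v => (1 / gg N) * AA (L + N) (y - x) v with ha
  set b : Str → ℝ := fun v => 2 * ∑ n ∈ Finset.range (L + 1),
    ff ((y - x) + SS n v) * bad N (shift n v) with hb
  have hUU : ∀ v, UU L N y v x = a v + b v := by
    intro v
    simp only [ha, hb]
    unfold UU AA
    congr 2
    · refine Finset.sum_congr rfl (fun m _ => ?_)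
      rw [← ff_neg]; congr 1; abel
    · refine Finset.sum_congr rfl (fun m _ => ?_)
      rw [mul_comm, ← ff_neg]; congr 2; abel
  have ha0 : ∀ v, 0 ≤ a v := fun v => by
    simp only [ha]
    exact mul_nonneg (by positivity) (AA_nonneg _ _ _)
  have hb0 : ∀ v, 0 ≤ b v := fun v => by
    simp only [hb]
    exact mul_nonneg (by norm_num) (Finset.sum_nonneg (fun _ _ => mul_nonneg (ff_pos _).le
      (bad_nonneg _ _)))
  have hda : Dep (L + N + 1) a := ((Dep_AA (by omega) (y - x)).comp (fun t => (1 / gg N) * t))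
  have hdb' : ∀ n ∈ Finset.range (L + 1),
      Dep (L + N + 1) (fun v => ff ((y - x) + SS n v) * bad N (shift n v)) := by
    intro n hn
    have hn' := Finset.mem_range.mp hn
    exact Dep.comp₂ (Dep_SS (by omega)) ((Dep_shift (Dep_bad N)).mono (by omega))
      (fun z t => ff ((y - x) + z) * t)
  have hdb : Dep (L + N + 1) b := (Dep_sum _ hdb').comp (fun t => 2 * t)
  have h1 : ∫⁻ v, (hitp (pathF y L v : Set V4) x) ^ 2 ∂PP ≤
      ∫⁻ v, ENNReal.ofReal (2 * (a v) ^ 2 + 2 * b v) ∂PP := by
    apply lintegral_mono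
    intro v
    apply sq_le_of_le_add (ha0 v) (hb0 v) (hitp_le_one _ _)
    rw [← hUU v]
    exact hitp_path_le hN L y v x
  have hint : Integrable (fun v => 2 * (a v) ^ 2 + 2 * b v) PP :=
    (Dep.comp₂ hda hdb (fun s t => 2 * s ^ 2 + 2 * t)).integrable
  rw [← ofReal_integral_eq_lintegral_ofReal hint
    (by filter_upwards with v; have := hb0 v; positivity)] at h1
  refine h1.trans (ENNReal.ofReal_le_ofReal ?_)
  have hia : Integrable (fun v => (a v) ^ 2) PP := (hda.comp (fun t => t ^ 2)).integrable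
  rw [integral_add (hia.const_mul 2) (hdb.integrable.const_mul 2), integral_const_mul,
    integral_const_mul]
  have e1 : ∫ v, (a v) ^ 2 ∂PP = (1 / gg N) ^ 2 * ∫ v, (AA (L + N) (y - x) v) ^ 2 ∂PP := by
    rw [← integral_const_mul]
    congr 1
    funext v
    simp only [ha]
    ring
  have e2 : ∫ v, b v ∂PP = 2 * (m1s (L + 1) (y - x) * ∫ v, bad N v ∂PP) := by
    simp only [hb]
    rw [integral_const_mul, integral_finsetSum]
    · congr 1
      unfold m1s
      rw [Finset.sum_mul]
      refine Finset.sum_congr rfl (fun n _ => ?_)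
      exact integral_markov n N ff (bad N) (Dep_bad N) (y - x)
    · intro n hn
      exact (hdb' n hn).integrable
  rw [e1, e2]
  have h2 := integral_AA_sq (L + N) (y - x)
  have h3 := m1s_le (L + 1) (y - x)
  have h4 : ell (L + 1) (y - x) ≤ ell (L + N) (y - x) := ell_mono (by omega) _
  have h5 := integral_bad hN
  have h6 := integral_bad_nonneg N
  have h7 := ell_nonneg (L + N) (y - x)
  set l := ell (L + N) (y - x)
  have h8 : m1s (L + 1) (y - x) * ∫ v, bad N v ∂PP ≤ (8 * l) * (808 / (gg N) ^ 2) := by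
    apply mul_le_mul (by linarith) h5 h6 (by positivity)
  have h9 : (1 / gg N) ^ 2 * ∫ v, (AA (L + N) (y - x) v) ^ 2 ∂PP ≤
      (1 / gg N) ^ 2 * (64 * l ^ 2 + 13312 * l) :=
    mul_le_mul_of_nonneg_left h2 (by positivity)
  have e3 : (128 * l ^ 2 + 52480 * l) / (gg N) ^ 2
      = 2 * ((1 / gg N) ^ 2 * (64 * l ^ 2 + 13312 * l))
        + 2 * (2 * ((8 * l) * (808 / (gg N) ^ 2))) := by
    field_simp
    ring
  rw [e3]
  linarith

/-- Hitting probability of a path block from the end point of an independent block. -/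
lemma lintegral_cross {N L : ℕ} (hN : 1 ≤ N) (hNL : N ≤ L + 2) (x y : V4) :
    ∫⁻ v, ∫⁻ u, hitp (pathF y L v : Set V4) (x + SS L u) ∂PP ∂PP ≤
      ENNReal.ofReal (400 / gg N + 323200 / (gg N) ^ 2) := by
  have hg := gg_pos hN
  have hL : (0 : ℝ) < (L : ℝ) + 1 := by positivity
  have h1 : ∀ v, ∫⁻ u, hitp (pathF y L v : Set V4) (x + SS L u) ∂PP ≤
      ENNReal.ofReal (400 / gg N + (400 / ((L : ℝ) + 1)) *
        ∑ n ∈ Finset.range (L + 1), bad N (shift n v)) := by
    intro v
    have h2 : ∫⁻ u, hitp (pathF y L v : Set V4) (x + SS L u) ∂PP ≤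
        ∫⁻ u, ENNReal.ofReal (UU L N y v (x + SS L u)) ∂PP :=
      lintegral_mono (fun u => hitp_path_le hN L y v _)
    have hint : Integrable (fun u => UU L N y v (x + SS L u)) PP :=
      ((Dep_SS le_rfl).comp (fun z => UU L N y v (x + z))).integrable
    rw [← ofReal_integral_eq_lintegral_ofReal hint
      (by filter_upwards with u; exact UU_nonneg hN L y v _), integral_SS] at h2
    refine h2.trans (ENNReal.ofReal_le_ofReal ?_)
    have e1 : Pn L (UU L N y v) x = (1 / gg N) * ∑ m ∈ Finset.range (L + N),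
        Pn L ff (x - (y + SS m v)) + 2 * ∑ n ∈ Finset.range (L + 1),
          bad N (shift n v) * Pn L ff (x - (y + SS n v)) := by
      unfold UU
      rw [Pn_add L (fun z => (1 / gg N) * ∑ m ∈ Finset.range (L + N), ff (z - (y + SS m v)))
        (fun z => 2 * ∑ n ∈ Finset.range (L + 1), bad N (shift n v) * ff (z - (y + SS n v))),
        Pn_smul, Pn_smul, Pn_sum, Pn_sum]
      congr 2
      · exact Finset.sum_congr rfl (fun m _ => by rw [Pn_translate])
      · exact Finset.sum_congr rfl (fun m _ => by rw [Pn_smul, Pn_translate])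
    rw [e1]
    have h3 : ∑ m ∈ Finset.range (L + N), Pn L ff (x - (y + SS m v)) ≤
        (L + N) * (200 / ((L : ℝ) + 1)) := by
      have := Finset.sum_le_sum (s := Finset.range (L + N))
        (fun m _ => Pn_ff_le L (x - (y + SS m v)))
      simpa using this
    have h4 : ∑ n ∈ Finset.range (L + 1), bad N (shift n v) * Pn L ff (x - (y + SS n v)) ≤
        (∑ n ∈ Finset.range (L + 1), bad N (shift n v)) * (200 / ((L : ℝ) + 1)) := by
      rw [Finset.sum_mul]
      exact Finset.sum_le_sum (fun n _ => mul_le_mul_of_nonneg_left (Pn_ff_le L _)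
        (bad_nonneg _ _))
    have h5 : ((L : ℝ) + N) * (200 / ((L : ℝ) + 1)) ≤ 400 := by
      rw [mul_div_assoc', div_le_iff₀ hL]
      have : (N : ℝ) ≤ L + 2 := by exact_mod_cast hNL
      linarith
    have h6 : (1 / gg N) * ∑ m ∈ Finset.range (L + N), Pn L ff (x - (y + SS m v)) ≤
        (1 / gg N) * 400 := mul_le_mul_of_nonneg_left (h3.trans h5) (by positivity)
    have e2 : 400 / gg N = (1 / gg N) * 400 := by ring
    have e3 : (400 / ((L : ℝ) + 1)) * ∑ n ∈ Finset.range (L + 1), bad N (shift n v)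
        = 2 * ((∑ n ∈ Finset.range (L + 1), bad N (shift n v)) * (200 / ((L : ℝ) + 1))) := by
      ring
    rw [e2, e3]
    linarith
  refine (lintegral_mono h1).trans ?_
  have hdb : Dep (L + N + 1) (fun v => ∑ n ∈ Finset.range (L + 1), bad N (shift n v)) := by
    apply Dep_sum
    intro n hn
    have hn' := Finset.mem_range.mp hn
    exact (Dep_shift (Dep_bad N)).mono (by omega)
  have hint : Integrable (fun v => 400 / gg N + (400 / ((L : ℝ) + 1)) *
        ∑ n ∈ Finset.range (L + 1), bad N (shift n v)) PP :=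
    (hdb.comp (fun t => 400 / gg N + (400 / ((L : ℝ) + 1)) * t)).integrable
  rw [← ofReal_integral_eq_lintegral_ofReal hint (by
    filter_upwards with v
    have : 0 ≤ ∑ n ∈ Finset.range (L + 1), bad N (shift n v) :=
      Finset.sum_nonneg (fun _ _ => bad_nonneg _ _)
    positivity)]
  apply ENNReal.ofReal_le_ofReal
  rw [integral_add (integrable_const _) (hdb.integrable.const_mul _), integral_const_mul,
    integral_finsetSum]
  · have h7 : ∀ n, ∫ v, bad N (shift n v) ∂PP = ∫ v, bad N v ∂PP := by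
      intro n
      have := integral_markov n N (fun _ => 1) (bad N) (Dep_bad N) 0
      simp only [one_mul, Pn_const] at this
      exact this
    rw [Finset.sum_congr rfl (fun n _ => h7 n)]
    have h5 := integral_bad hN
    simp only [integral_const, probReal_univ, smul_eq_mul, one_mul, Finset.sum_const,
      Finset.card_range, nsmul_eq_mul]
    have e4 : (400 / ((L : ℝ) + 1)) * (((L + 1 : ℕ) : ℝ) * ∫ v, bad N v ∂PP)
        = 400 * ∫ v, bad N v ∂PP := by
      push_cast
      field_simp
    rw [e4]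
    have e5 : 323200 / (gg N) ^ 2 = 400 * (808 / (gg N) ^ 2) := by ring
    rw [e5]
    linarith
  · intro n hn
    have hn' := Finset.mem_range.mp hn
    exact ((Dep_shift (Dep_bad N)).mono (show n + N ≤ L + N + 1 by omega)).integrable

/-- A site is unlikely to be close to the end point of a block. -/
lemma prob_close (L : ℕ) (w : V4) {R : ℝ} (hR : 0 ≤ R) :
    PP {u | nsq (w + SS L u) < R} ≤ ENNReal.ofReal ((R + 2) * (200 / ((L : ℝ) + 1))) := by
  have h1 : (1 / (R + 2)) * PP.real {u | 1 / (R + 2) ≤ ff (w + SS L u)} ≤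
      ∫ u, ff (w + SS L u) ∂PP := by
    apply mul_meas_ge_le_integral_of_nonneg
    · filter_upwards with u
      exact (ff_pos _).le
    · exact ((Dep_SS le_rfl).comp (fun z => ff (w + z))).integrable
  rw [integral_SS] at h1
  have h2 := Pn_ff_le L w
  have h3 : PP.real {u | nsq (w + SS L u) < R} ≤ PP.real {u | 1 / (R + 2) ≤ ff (w + SS L u)} := by
    apply measureReal_mono
    · intro u hu
      simp only [Set.mem_setOf_eq] at hu ⊢
      unfold ff VV
      apply one_div_le_one_div_of_le
      · have := nsq_nonneg (w + SS L u)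
        linarith
      · linarith
    · exact measure_ne_top _ _
  rw [← ENNReal.ofReal_toReal (measure_ne_top PP {u | nsq (w + SS L u) < R})]
  apply ENNReal.ofReal_le_ofReal
  have hR2 : 0 < R + 2 := by linarith
  have h4 : (1 / (R + 2)) * PP.real {u | nsq (w + SS L u) < R} ≤ 200 / ((L : ℝ) + 1) :=
    (mul_le_mul_of_nonneg_left h3 (by positivity)).trans (h1.trans h2)
  rw [one_div, inv_mul_eq_div, div_le_iff₀ hR2] at h4
  change PP.real {u | nsq (w + SS L u) < R} ≤ _
  linarith

end Pool.Agent.Helper41.NI
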