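import Pool.Agent.Helper41.NI.Block

/-!
# One step of the block chain
-/

namespace Pool.Agent.Helper41.NI

open Finset MeasureTheory ProbabilityTheory
open scoped ENNReal

/-- States: the dead state, or the two positions together with the two sets of visited sites. -/
inductive St where
  | dead : St
  | live (x y : V4) (A B : Finset V4) : St

instance : Countable St := by
  have : Function.Injective (fun σ : St => (match σ with
    | .dead => none
    | .live x y A B => some (x, y, A, B) : Option (V4 × V4 × Finset V4 × Finset V4))) := by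
    intro a b h
    cases a <;> cases b <;> simp_all
  exact this.countable

instance : MeasurableSpace St := ⊤
instance : DiscreteMeasurableSpace St := ⟨fun _ => trivial⟩

open Classical in
/-- The configuration after one block, dead if the walks have met or are too close. -/
noncomputable def nxt (len : ℕ → ℕ) (rho : ℕ → ℝ) (n : ℕ) (σ : St) (w : Str × Str) : St :=
  match σ with
  | .dead => .dead
  | .live x y A B =>
    if Disjoint (A ∪ pathF x (len n) w.1) (B ∪ pathF y (len n) w.2) ∧
        rho (n + 1) ≤ nsq ((x + SS (len n) w.1) - (y + SS (len n) w.2)) then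
      .live (x + SS (len n) w.1) (y + SS (len n) w.2) (A ∪ pathF x (len n) w.1)
        (B ∪ pathF y (len n) w.2)
    else .dead

open Classical in
/-- The value of a state: an upper bound for the conditional probability of dying. -/
noncomputable def val (rho er : ℕ → ℝ) (n : ℕ) (σ : St) : ℝ≥0∞ :=
  match σ with
  | .dead => 1
  | .live x y A B =>
    if Disjoint A B ∧ rho n ≤ nsq (x - y) then
      hitp (B : Set V4) x + hitp (A : Set V4) y + ENNReal.ofReal (er n)
    else ⊤

/-- The law of the next pair of blocks. -/
noncomputable def rker (len : ℕ → ℕ) (n : ℕ) (σ : St) : Measure (Str × Str) :=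
  match σ with
  | .dead => PP.prod PP
  | .live x y _ _ => rr x y (len n)

instance (len : ℕ → ℕ) (n : ℕ) (σ : St) : IsProbabilityMeasure (rker len n σ) := by
  cases σ with
  | dead => exact inferInstanceAs (IsProbabilityMeasure (PP.prod PP))
  | live x y A B => exact inferInstanceAs (IsProbabilityMeasure (rr x y (len n)))

lemma rker_fst (len : ℕ → ℕ) (n : ℕ) (σ : St) : (rker len n σ).map Prod.fst = PP := by
  cases σ with
  | dead =>
    show (PP.prod PP).map Prod.fst = PP
    rw [Measure.map_fst_prod]; simp
  | live x y A B => exact rr_fst x y (len n)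

lemma rker_snd (len : ℕ → ℕ) (n : ℕ) (σ : St) : (rker len n σ).map Prod.snd = PP := by
  cases σ with
  | dead =>
    show (PP.prod PP).map Prod.snd = PP
    rw [Measure.map_snd_prod]; simp
  | live x y A B => exact rr_snd x y (len n)

lemma Dep2_nxt (len : ℕ → ℕ) (rho : ℕ → ℝ) (n : ℕ) (σ : St) :
    Dep2 (len n) (nxt len rho n σ) := by
  intro w w' h1 h2
  cases σ with
  | dead => rfl
  | live x y A B =>
    unfold nxt
    simp only [Dep_pathF le_rfl x _ _ h1, Dep_pathF le_rfl y _ _ h2, Dep_SS le_rfl _ _ h1,
      Dep_SS le_rfl _ _ h2]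

lemma nxt_live_pos {len : ℕ → ℕ} {rho : ℕ → ℝ} {n : ℕ} {x y : V4} {A B : Finset V4}
    {w : Str × Str} (hc : Disjoint (A ∪ pathF x (len n) w.1) (B ∪ pathF y (len n) w.2) ∧
        rho (n + 1) ≤ nsq ((x + SS (len n) w.1) - (y + SS (len n) w.2))) :
    nxt len rho n (.live x y A B) w = .live (x + SS (len n) w.1) (y + SS (len n) w.2)
      (A ∪ pathF x (len n) w.1) (B ∪ pathF y (len n) w.2) := by
  unfold nxt
  exact if_pos hc

lemma nxt_live_neg {len : ℕ → ℕ} {rho : ℕ → ℝ} {n : ℕ} {x y : V4} {A B : Finset V4}
    {w : Str × Str} (hc : ¬ (Disjoint (A ∪ pathF x (len n) w.1) (B ∪ pathF y (len n) w.2) ∧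
        rho (n + 1) ≤ nsq ((x + SS (len n) w.1) - (y + SS (len n) w.2)))) :
    nxt len rho n (.live x y A B) w = .dead := by
  unfold nxt
  exact if_neg hc

lemma val_live_pos {rho er : ℕ → ℝ} {n : ℕ} {x y : V4} {A B : Finset V4}
    (hc : Disjoint A B ∧ rho n ≤ nsq (x - y)) : val rho er n (.live x y A B) =
      hitp (B : Set V4) x + hitp (A : Set V4) y + ENNReal.ofReal (er n) := by
  unfold val
  exact if_pos hc

lemma val_live_neg {rho er : ℕ → ℝ} {n : ℕ} {x y : V4} {A B : Finset V4}
    (hc : ¬ (Disjoint A B ∧ rho n ≤ nsq (x - y))) : val rho er n (.live x y A B) = ⊤ := by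
  unfold val
  exact if_neg hc

/-- The pointwise bound behind the one-step inequality. -/
lemma val_nxt_le (len : ℕ → ℕ) (rho er : ℕ → ℝ) (n : ℕ) (x y : V4) (A B : Finset V4)
    (hAB : Disjoint A B) (w : Str × Str) :
    val rho er (n + 1) (nxt len rho n (.live x y A B) w) ≤
      HH (B : Set V4) (len n) x w.1 + HH (A : Set V4) (len n) y w.2
      + (DD x y (len n)).indicator 1 w
      + hitp (pathF y (len n) w.2 : Set V4) (x + SS (len n) w.1)
      + hitp (pathF x (len n) w.1 : Set V4) (y + SS (len n) w.2)
      + (CC x y (len n) (rho (n + 1))).indicator 1 w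
      + ENNReal.ofReal (er (n + 1)) := by
  by_cases hc : Disjoint (A ∪ pathF x (len n) w.1) (B ∪ pathF y (len n) w.2) ∧
        rho (n + 1) ≤ nsq ((x + SS (len n) w.1) - (y + SS (len n) w.2))
  · rw [nxt_live_pos hc, val_live_pos hc]
    generalize len n = L at *
    have h1 : hitp ((B ∪ pathF y L w.2 : Finset V4) : Set V4) (x + SS L w.1) ≤
        HH (B : Set V4) L x w.1 + hitp (pathF y L w.2 : Set V4) (x + SS L w.1) := by
      rw [Finset.coe_union]
      refine (hitp_union_le _ _ _).trans ?_
      gcongr
      unfold HH
      split_ifs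
      · exact hitp_le_one _ _
      · exact le_rfl
    have h2 : hitp ((A ∪ pathF x L w.1 : Finset V4) : Set V4) (y + SS L w.2) ≤
        HH (A : Set V4) L y w.2 + hitp (pathF x L w.1 : Set V4) (y + SS L w.2) := by
      rw [Finset.coe_union]
      refine (hitp_union_le _ _ _).trans ?_
      gcongr
      unfold HH
      split_ifs
      · exact hitp_le_one _ _
      · exact le_rfl
    calc _ ≤ (HH (B : Set V4) L x w.1 + hitp (pathF y L w.2 : Set V4) (x + SS L w.1))
          + (HH (A : Set V4) L y w.2 + hitp (pathF x L w.1 : Set V4) (y + SS L w.2))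
          + ENNReal.ofReal (er (n + 1)) := by gcongr
      _ = (HH (B : Set V4) L x w.1 + HH (A : Set V4) L y w.2 + 0
          + hitp (pathF y L w.2 : Set V4) (x + SS L w.1)
          + hitp (pathF x L w.1 : Set V4) (y + SS L w.2) + 0
          + ENNReal.ofReal (er (n + 1))) := by ring
      _ ≤ _ := by
          gcongr
          · exact zero_le
          · exact zero_le
  · rw [nxt_live_neg hc]
    show (1 : ℝ≥0∞) ≤ _
    rw [not_and_or] at hc
    generalize len n = L at *
    rcases hc with hc | hc
    · rw [Finset.not_disjoint_iff] at hc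
      obtain ⟨z, hz1, hz2⟩ := hc
      rw [Finset.mem_union] at hz1 hz2
      rcases hz1 with hz1 | hz1
      · rcases hz2 with hz2 | hz2
        · exact absurd hz2 (Finset.disjoint_left.mp hAB hz1)
        · -- the second walk hits `A`
          have h1 : HH (A : Set V4) L y w.2 = 1 := by
            unfold HH
            obtain ⟨m, hm, hmz⟩ := mem_pathF.mp hz2
            rw [if_pos ⟨m, hm, by rw [hmz]; exact_mod_cast hz1⟩]
          calc (1 : ℝ≥0∞) = HH (A : Set V4) L y w.2 := h1.symm
            _ ≤ HH (B : Set V4) L x w.1 + HH (A : Set V4) L y w.2 := le_add_self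
            _ ≤ _ := by
                iterate 4 refine le_trans ?_ le_self_add
                exact le_self_add
      · rcases hz2 with hz2 | hz2
        · have h1 : HH (B : Set V4) L x w.1 = 1 := by
            unfold HH
            obtain ⟨m, hm, hmz⟩ := mem_pathF.mp hz1
            rw [if_pos ⟨m, hm, by rw [hmz]; exact_mod_cast hz2⟩]
          calc (1 : ℝ≥0∞) = HH (B : Set V4) L x w.1 := h1.symm
            _ ≤ HH (B : Set V4) L x w.1 + HH (A : Set V4) L y w.2 := le_self_add
            _ ≤ _ := by
                iterate 4 refine le_trans ?_ le_self_add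
                exact le_self_add
        · have h1 : w ∈ DD x y L := by
            show ¬ Disjoint _ _
            rw [Finset.not_disjoint_iff]
            exact ⟨z, hz1, hz2⟩
          have h2 : (DD x y L).indicator (1 : Str × Str → ℝ≥0∞) w = 1 := by
            rw [Set.indicator_of_mem h1]; rfl
          calc (1 : ℝ≥0∞) = (DD x y L).indicator 1 w := h2.symm
            _ ≤ HH (B : Set V4) L x w.1 + HH (A : Set V4) L y w.2 + (DD x y L).indicator 1 w :=
                le_add_self
            _ ≤ _ := by
                iterate 3 refine le_trans ?_ le_self_add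
                exact le_self_add
    · push Not at hc
      have h1 : w ∈ CC x y L (rho (n + 1)) := hc
      have h2 : (CC x y L (rho (n + 1))).indicator (1 : Str × Str → ℝ≥0∞) w = 1 := by
        rw [Set.indicator_of_mem h1]; rfl
      refine le_trans ?_ le_self_add
      refine le_trans ?_ le_add_self
      exact h2.ge

/-- The error term of one block. -/
noncomputable def errB (len N : ℕ → ℕ) (rho : ℕ → ℝ) (n : ℕ) (x y : V4) : ℝ :=
  4 * ((128 * (ell (len n + N n) (x - y)) ^ 2 + 52480 * ell (len n + N n) (x - y))
    / (gg (N n)) ^ 2)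
  + 6 * (400 / gg (N n) + 323200 / (gg (N n)) ^ 2)
  + 3 * ((rho (n + 1) + 2) * (200 / ((len n : ℝ) + 1)))

/-- The one-step inequality. -/
lemma step_ineq (len N : ℕ → ℕ) (rho er : ℕ → ℝ) (hN : ∀ n, 1 ≤ N n)
    (hNL : ∀ n, N n ≤ len n + 2) (hrho : ∀ n, 0 ≤ rho n) (her : ∀ n, 0 ≤ er n)
    (H : ∀ n x y, rho n ≤ nsq (x - y) → errB len N rho n x y + er (n + 1) ≤ er n)
    (n : ℕ) (σ : St) :
    ∫⁻ w, val rho er (n + 1) (nxt len rho n σ w) ∂(rker len n σ) ≤ val rho er n σ := by
  cases σ with
  | dead =>
    show ∫⁻ _w, (1 : ℝ≥0∞) ∂(rker len n .dead) ≤ 1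
    simp
  | live x y A B =>
    by_cases hc : Disjoint A B ∧ rho n ≤ nsq (x - y)
    · rw [val_live_pos hc]
      set L := len n with hL
      have hg := gg_pos (hN n)
      have m1 : Measurable (fun w : Str × Str => HH (B : Set V4) L x w.1) :=
        (Dep_HH _ _ _).measurable.comp measurable_fst
      have m2 : Measurable (fun w : Str × Str => HH (A : Set V4) L y w.2) :=
        (Dep_HH _ _ _).measurable.comp measurable_snd
      have m3 : Measurable ((DD x y L).indicator (1 : Str × Str → ℝ≥0∞)) :=
        measurable_one.indicator (measurableSet_DD x y L)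
      have m4 : Measurable (fun w : Str × Str =>
          hitp (pathF y L w.2 : Set V4) (x + SS L w.1)) := (Dep2_cross1 x y L).measurable
      have m5 : Measurable (fun w : Str × Str =>
          hitp (pathF x L w.1 : Set V4) (y + SS L w.2)) := (Dep2_cross2 x y L).measurable
      have m6 : Measurable ((CC x y L (rho (n + 1))).indicator (1 : Str × Str → ℝ≥0∞)) :=
        measurable_one.indicator (measurableSet_CC x y L _)
      have h1 : ∫⁻ w, val rho er (n + 1) (nxt len rho n (.live x y A B) w) ∂(rr x y L) ≤
          hitp (B : Set V4) x + hitp (A : Set V4) y + (rr x y L) (DD x y L)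
          + ∫⁻ w, hitp (pathF y L w.2 : Set V4) (x + SS L w.1) ∂(rr x y L)
          + ∫⁻ w, hitp (pathF x L w.1 : Set V4) (y + SS L w.2) ∂(rr x y L)
          + (rr x y L) (CC x y L (rho (n + 1))) + ENNReal.ofReal (er (n + 1)) := by
        refine (lintegral_mono (fun w => val_nxt_le len rho er n x y A B hc.1 w)).trans ?_
        rw [← hL, lintegral_add_right _ measurable_const, lintegral_add_right _ m6,
          lintegral_add_right _ m5, lintegral_add_right _ m4, lintegral_add_right _ m3,
          lintegral_add_right _ m2, lintegral_rr_fst x y L (Dep_HH _ _ _).measurable,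
          lintegral_rr_snd x y L (Dep_HH _ _ _).measurable, lintegral_HH, lintegral_HH,
          lintegral_indicator_one (measurableSet_DD x y L),
          lintegral_indicator_one (measurableSet_CC x y L _)]
        simp
      have h2 := rr_DD_le (hN n) L x y
      have h3 := rr_cross1 (hN n) (hNL n) x y
      have h4 := rr_cross2 (hN n) (hNL n) x y
      have h5 := rr_CC x y L (hrho (n + 1))
      have e3 : (3 : ℝ≥0∞) = ENNReal.ofReal 3 := by simp
      set E1 := 4 * ((128 * (ell (L + N n) (x - y)) ^ 2 + 52480 * ell (L + N n) (x - y))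
        / (gg (N n)) ^ 2) with hE1
      set E2 := 400 / gg (N n) + 323200 / (gg (N n)) ^ 2 with hE2
      set E3 := (rho (n + 1) + 2) * (200 / ((L : ℝ) + 1)) with hE3
      have hE10 : 0 ≤ E1 := by
        have := ell_nonneg (L + N n) (x - y)
        rw [hE1]; positivity
      have hE20 : 0 ≤ E2 := by rw [hE2]; positivity
      have hE30 : 0 ≤ E3 := by
        have := hrho (n + 1)
        rw [hE3]; positivity
      rw [e3, ← ENNReal.ofReal_mul (by norm_num)] at h3 h4 h5
      have h6 : ∫⁻ w, val rho er (n + 1) (nxt len rho n (.live x y A B) w) ∂(rr x y L) ≤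
          hitp (B : Set V4) x + hitp (A : Set V4) y + (ENNReal.ofReal E1
          + ENNReal.ofReal (3 * E2) + ENNReal.ofReal (3 * E2) + ENNReal.ofReal (3 * E3)
          + ENNReal.ofReal (er (n + 1))) := by
        refine h1.trans ?_
        calc _ ≤ hitp (B : Set V4) x + hitp (A : Set V4) y + ENNReal.ofReal E1
              + ENNReal.ofReal (3 * E2) + ENNReal.ofReal (3 * E2) + ENNReal.ofReal (3 * E3)
              + ENNReal.ofReal (er (n + 1)) := by gcongr
          _ = _ := by ring
      refine h6.trans ?_
      gcongr
      have her' := her (n + 1)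
      rw [← ENNReal.ofReal_add hE10 (by positivity), ← ENNReal.ofReal_add (by positivity)
        (by positivity), ← ENNReal.ofReal_add (by positivity) (by positivity),
        ← ENNReal.ofReal_add (by positivity) her']
      apply ENNReal.ofReal_le_ofReal
      have h7 := H n x y hc.2
      unfold errB at h7
      rw [← hL, ← hE1, ← hE2, ← hE3] at h7
      linarith
    · rw [val_live_neg hc]
      exact le_top

end Pool.Agent.Helper41.NI
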