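import Pool.Agent.Helper41.NI.Lyap

/-!
# Simple random walk on streams of steps
-/

namespace Pool.Agent.Helper41.NI

open Finset MeasureTheory ProbabilityTheory
open scoped ENNReal

/-- The uniform law on steps. -/
noncomputable def stpLaw : Measure Stp := (PMF.uniformOfFintype Stp).toMeasure

instance : IsProbabilityMeasure stpLaw := by unfold stpLaw; infer_instance

/-- Streams of steps. -/
abbrev Str := ℕ → Stp

/-- The law of an i.i.d. uniform stream of steps. -/
noncomputable def PP : Measure Str := Measure.infinitePi (fun _ : ℕ => stpLaw)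

instance : IsProbabilityMeasure PP := by unfold PP; infer_instance

/-- Prepend a step. -/
def scons (s : Stp) (u : Str) : Str := fun n => Nat.casesOn n s u

/-- Drop the first `n` steps. -/
def shift (n : ℕ) (u : Str) : Str := fun i => u (i + n)

/-- The displacement after `n` steps. -/
def SS (n : ℕ) (u : Str) : V4 := ∑ i ∈ Finset.range n, vec (u i)

@[simp] lemma scons_zero (s : Stp) (u : Str) : scons s u 0 = s := rfl
@[simp] lemma scons_succ (s : Stp) (u : Str) (n : ℕ) : scons s u (n + 1) = u n := rfl

lemma SS_zero (u : Str) : SS 0 u = 0 := by simp [SS]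

lemma SS_scons (n : ℕ) (s : Stp) (u : Str) : SS (n + 1) (scons s u) = vec s + SS n u := by
  unfold SS
  rw [Finset.sum_range_succ']
  simp [add_comm]

lemma SS_succ (n : ℕ) (u : Str) : SS (n + 1) u = SS n u + vec (u n) := by
  unfold SS; rw [Finset.sum_range_succ]

lemma SS_add (m n : ℕ) (u : Str) : SS (m + n) u = SS m u + SS n (shift m u) := by
  unfold SS shift
  rw [Finset.sum_range_add]
  congr 1
  exact Finset.sum_congr rfl (fun i _ => by rw [add_comm])

lemma shift_scons (n : ℕ) (s : Stp) (u : Str) : shift (n + 1) (scons s u) = shift n u := by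
  funext i
  unfold shift
  rw [← add_assoc, scons_succ]

lemma shift_zero (u : Str) : shift 0 u = u := rfl

lemma stpLaw_singleton (s : Stp) : stpLaw {s} = (8 : ℝ≥0∞)⁻¹ := by
  unfold stpLaw
  rw [PMF.toMeasure_apply_singleton _ _ (MeasurableSet.singleton s), PMF.uniformOfFintype_apply]
  simp

lemma measurable_scons : Measurable (fun p : Stp × Str => scons p.1 p.2) := by
  apply measurable_pi_lambda
  intro n
  cases n with
  | zero => exact measurable_fst
  | succ n => exact (measurable_pi_apply n).comp measurable_snd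

lemma PP_map_scons : (stpLaw.prod PP).map (fun p => scons p.1 p.2) = PP := by
  unfold PP
  refine Measure.eq_infinitePi _ (fun s t ht => ?_)
  rw [Measure.map_apply measurable_scons (MeasurableSet.pi s.countable_toSet (fun _ _ => ht _))]
  classical
  set s1 : Finset ℕ := s.preimage (fun i => i + 1) (Function.Injective.injOn
    (add_left_injective 1)) with hs1
  have hpre : (fun p : Stp × Str => scons p.1 p.2) ⁻¹' ((s : Set ℕ).pi t)
      = (if 0 ∈ s then t 0 else Set.univ) ×ˢ ((s1 : Set ℕ).pi (fun i => t (i + 1))) := by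
    ext ⟨a, u⟩
    simp only [Set.mem_preimage, Set.mem_pi, Set.mem_prod, hs1]
    constructor
    · intro h
      refine ⟨?_, ?_⟩
      · split_ifs with h0
        · exact h 0 h0
        · trivial
      · intro i hi
        have hi' : i + 1 ∈ s := by simpa using hi
        exact h (i + 1) hi'
    · rintro ⟨h0, h1⟩ i hi
      cases i with
      | zero =>
        have h0s : (0 : ℕ) ∈ s := hi
        rw [if_pos h0s] at h0
        exact h0
      | succ i => exact h1 i (by simpa using hi)
  rw [hpre, Measure.prod_prod, Measure.infinitePi_pi _ (fun i _ => ht (i + 1))]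
  have hs : ∏ i ∈ s, stpLaw (t i) = (if 0 ∈ s then stpLaw (t 0) else 1)
      * ∏ i ∈ s1, stpLaw (t (i + 1)) := by
    have hdec : s = (if 0 ∈ s then {0} else ∅) ∪ s1.map ⟨fun i => i + 1, add_left_injective 1⟩ := by
      ext i
      simp only [Finset.mem_union, Finset.mem_map, hs1, Finset.mem_preimage,
        Function.Embedding.coeFn_mk]
      cases i with
      | zero =>
        split_ifs with h0 <;> simp [h0]
      | succ i =>
        constructor
        · intro h; right; exact ⟨i, h, rfl⟩
        · rintro (h | ⟨j, hj, hji⟩)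
          · split_ifs at h <;> simp at h
          · rwa [← hji]
    have hdisj : Disjoint (if 0 ∈ s then ({0} : Finset ℕ) else ∅)
        (s1.map ⟨fun i => i + 1, add_left_injective 1⟩) := by
      split_ifs with h0
      · rw [Finset.disjoint_singleton_left]
        simp
      · simp
    conv_lhs => rw [hdec]
    rw [Finset.prod_union hdisj, Finset.prod_map]
    congr 1
    split_ifs <;> simp
  rw [hs]
  congr 1
  split_ifs <;> simp

lemma lintegral_PP {F : Str → ℝ≥0∞} (hF : Measurable F) :
    ∫⁻ u, F u ∂PP = (8 : ℝ≥0∞)⁻¹ * ∑ s : Stp, ∫⁻ u, F (scons s u) ∂PP := by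
  conv_lhs => rw [← PP_map_scons]
  have hm : Measurable (fun p : Stp × Str => F (scons p.1 p.2)) := hF.comp measurable_scons
  rw [lintegral_map hF measurable_scons,
    lintegral_prod _ hm.aemeasurable, lintegral_fintype, Finset.mul_sum]
  refine Finset.sum_congr rfl (fun s _ => ?_)
  rw [stpLaw_singleton, mul_comm]

lemma measurable_scons_right (s : Stp) : Measurable (scons s) :=
  measurable_scons.comp (measurable_const.prodMk measurable_id)

lemma PP_apply {E : Set Str} (hE : MeasurableSet E) :
    PP E = (8 : ℝ≥0∞)⁻¹ * ∑ s : Stp, PP {u | scons s u ∈ E} := by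
  have h := lintegral_PP (F := E.indicator 1) (measurable_one.indicator hE)
  rw [lintegral_indicator_one hE] at h
  rw [h]
  congr 1
  refine Finset.sum_congr rfl (fun s _ => ?_)
  have : (fun u => E.indicator (1 : Str → ℝ≥0∞) (scons s u))
      = ({u | scons s u ∈ E} : Set Str).indicator 1 := by
    funext u; rfl
  rw [this]
  exact lintegral_indicator_one (measurable_scons_right s hE)

lemma PP_real_apply {E : Set Str} (hE : MeasurableSet E) :
    PP.real E = (1 / 8) * ∑ s : Stp, PP.real {u | scons s u ∈ E} := by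
  unfold Measure.real
  rw [PP_apply hE, ENNReal.toReal_mul, ENNReal.toReal_sum (fun _ _ => measure_ne_top _ _)]
  congr 1
  simp

lemma integrable_scons {F : Str → ℝ} (hF : Integrable F PP) (s : Stp) :
    Integrable (fun u => F (scons s u)) PP := by
  have h1 : Integrable (fun p : Stp × Str => F (scons p.1 p.2)) (stpLaw.prod PP) := by
    have h2 : Integrable F ((stpLaw.prod PP).map (fun p => scons p.1 p.2)) := by
      rw [PP_map_scons]; exact hF
    exact h2.comp_measurable measurable_scons
  have h3 := h1.prod_right_ae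
  have h4 : ∀ s : Stp, Integrable (fun u => F (scons s u)) PP := by
    intro s
    rw [ae_iff] at h3
    by_contra hcon
    have : stpLaw {s} ≤ stpLaw {a | ¬ Integrable (fun y => F (scons a y)) PP} := by
      apply measure_mono
      intro a ha
      rw [Set.mem_singleton_iff] at ha
      rw [ha]
      exact hcon
    rw [stpLaw_singleton, h3] at this
    simp at this
  exact h4 s

lemma integral_PP {F : Str → ℝ} (hF : Integrable F PP) :
    ∫ u, F u ∂PP = (1 / 8) * ∑ s : Stp, ∫ u, F (scons s u) ∂PP := by
  have h2 : Integrable F ((stpLaw.prod PP).map (fun p => scons p.1 p.2)) := by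
      rw [PP_map_scons]; exact hF
  conv_lhs => rw [← PP_map_scons]
  have hm : Integrable (fun p : Stp × Str => F (scons p.1 p.2)) (stpLaw.prod PP) :=
    h2.comp_measurable measurable_scons
  rw [integral_map measurable_scons.aemeasurable h2.aestronglyMeasurable,
    integral_prod _ hm, integral_fintype]
  · rw [Finset.mul_sum]
    refine Finset.sum_congr rfl (fun s _ => ?_)
    unfold Measure.real
    rw [stpLaw_singleton]
    simp
  · exact Integrable.of_finite

/-! ### Functions depending on finitely many steps -/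

/-- `F` depends only on the first `K` steps. -/
def Dep {α : Type*} (K : ℕ) (F : Str → α) : Prop :=
  ∀ u u' : Str, (∀ i < K, u i = u' i) → F u = F u'

/-- The first `K` steps. -/
def pre (K : ℕ) (u : Str) : Fin K → Stp := fun i => u i

/-- Extend a finite sequence by a default step. -/
def ext (K : ℕ) (w : Fin K → Stp) : Str := fun n => if h : n < K then w ⟨n, h⟩ else (0, true)

lemma measurable_pre (K : ℕ) : Measurable (pre K) :=
  measurable_pi_lambda _ (fun _ => measurable_pi_apply _)

lemma Dep.factor {α : Type*} {K : ℕ} {F : Str → α} (h : Dep K F) (u : Str) :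
    F u = F (ext K (pre K u)) := by
  apply h
  intro i hi
  simp [ext, pre, hi]

lemma Dep.measurable {α : Type*} [MeasurableSpace α] {K : ℕ} {F : Str → α} (h : Dep K F) :
    Measurable F := by
  have : F = (fun w => F (ext K w)) ∘ pre K := by
    funext u; exact h.factor u
  rw [this]
  exact (measurable_of_finite _).comp (measurable_pre K)

lemma Dep.bounded {K : ℕ} {F : Str → ℝ} (h : Dep K F) : ∃ C, ∀ u, |F u| ≤ C := by
  obtain ⟨C, hC⟩ := (Set.toFinite (Set.range fun w : Fin K → Stp => |F (ext K w)|)).bddAbove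
  refine ⟨C, fun u => ?_⟩
  rw [h.factor u]
  exact hC ⟨_, rfl⟩

lemma Dep.integrable {K : ℕ} {F : Str → ℝ} (h : Dep K F) : Integrable F PP := by
  obtain ⟨C, hC⟩ := h.bounded
  refine Integrable.of_bound (h.measurable.aestronglyMeasurable) C ?_
  filter_upwards with u
  rw [Real.norm_eq_abs]
  exact hC u

lemma Dep_SS {n K : ℕ} (h : n ≤ K) : Dep K (SS n) := by
  intro u u' hu
  unfold SS
  refine Finset.sum_congr rfl (fun i hi => ?_)
  rw [hu i (lt_of_lt_of_le (Finset.mem_range.mp hi) h)]

lemma Dep.comp {α β : Type*} {K : ℕ} {F : Str → α} (h : Dep K F) (G : α → β) :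
    Dep K (fun u => G (F u)) := fun u u' hu => by
  show G (F u) = G (F u')
  rw [h u u' hu]

lemma Dep.comp₂ {α β γ : Type*} {K : ℕ} {F : Str → α} {F' : Str → β} (h : Dep K F)
    (h' : Dep K F') (G : α → β → γ) : Dep K (fun u => G (F u) (F' u)) := fun u u' hu => by
  show G (F u) (F' u) = G (F u') (F' u')
  rw [h u u' hu, h' u u' hu]

lemma Dep.mono {α : Type*} {K K' : ℕ} {F : Str → α} (h : Dep K F) (hK : K ≤ K') : Dep K' F :=
  fun u u' hu => h u u' (fun i hi => hu i (lt_of_lt_of_le hi hK))

lemma Dep_sum {ι : Type*} {K : ℕ} (T : Finset ι) {F : ι → Str → ℝ} (h : ∀ i ∈ T, Dep K (F i)) :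
    Dep K (fun u => ∑ i ∈ T, F i u) := fun u u' hu =>
  Finset.sum_congr rfl (fun i hi => h i hi u u' hu)

lemma Dep_shift {α : Type*} {n K : ℕ} {G : Str → α} (h : Dep K G) :
    Dep (n + K) (fun u => G (shift n u)) := fun u u' hu => by
  apply h
  intro i hi
  exact hu (i + n) (by omega)

/-- The `n`-step operator computes expectations. -/
lemma integral_SS (n : ℕ) (φ : V4 → ℝ) (x : V4) : ∫ u, φ (x + SS n u) ∂PP = Pn n φ x := by
  induction n generalizing x with
  | zero => simp [SS_zero, Pn_zero]
  | succ n ih =>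
    rw [integral_PP ((Dep_SS le_rfl).comp (fun z => φ (x + z))).integrable, Pn_succ]
    unfold Pop
    congr 1
    refine Finset.sum_congr rfl (fun s _ => ?_)
    rw [← ih]
    simp only [SS_scons, add_assoc]

/-- Markov property at time `n`. -/
lemma integral_markov (n K : ℕ) (φ : V4 → ℝ) (G : Str → ℝ) (hG : Dep K G) (x : V4) :
    ∫ u, φ (x + SS n u) * G (shift n u) ∂PP = Pn n φ x * ∫ u, G u ∂PP := by
  induction n generalizing x with
  | zero =>
    simp only [SS_zero, add_zero, shift_zero, Pn_zero]
    rw [integral_const_mul]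
  | succ n ih =>
    have hd : Dep (n + 1 + K) (fun u => φ (x + SS (n + 1) u) * G (shift (n + 1) u)) :=
      Dep.comp₂ ((Dep_SS (by omega)).comp (fun z => φ (x + z))) (Dep_shift hG) (fun a b => a * b)
    rw [integral_PP hd.integrable, Pn_succ]
    unfold Pop
    rw [mul_assoc, Finset.sum_mul]
    congr 1
    refine Finset.sum_congr rfl (fun s _ => ?_)
    rw [← ih]
    simp only [SS_scons, add_assoc, shift_scons]

/-- The additive functional. -/
noncomputable def AA (n : ℕ) (x : V4) (u : Str) : ℝ := ∑ j ∈ Finset.range n, ff (x + SS j u)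

lemma Dep_AA {n K : ℕ} (h : n ≤ K) (x : V4) : Dep K (AA n x) := by
  unfold AA
  apply Dep_sum
  intro i hi
  exact (Dep_SS ((Finset.mem_range.mp hi).le.trans h)).comp (fun z => ff (x + z))

lemma AA_scons (n : ℕ) (x : V4) (s : Stp) (u : Str) :
    AA (n + 1) x (scons s u) = ff x + AA n (x + vec s) u := by
  unfold AA
  rw [Finset.sum_range_succ', SS_zero, add_zero, add_comm]
  congr 1
  refine Finset.sum_congr rfl (fun j _ => ?_)
  rw [SS_scons, add_assoc]

lemma AA_nonneg (n : ℕ) (x : V4) (u : Str) : 0 ≤ AA n x u :=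
  Finset.sum_nonneg (fun _ _ => (ff_pos _).le)

lemma integral_AA (n : ℕ) (x : V4) : ∫ u, AA n x u ∂PP = m1s n x := by
  unfold AA m1s
  rw [integral_finsetSum]
  · exact Finset.sum_congr rfl (fun j _ => integral_SS j ff x)
  · intro j _
    exact ((Dep_SS le_rfl).comp (fun z => ff (x + z))).integrable

/-- Second moment of the additive functional. -/
lemma integral_AA_sq (n : ℕ) (x : V4) :
    ∫ u, (AA n x u) ^ 2 ∂PP ≤ 64 * (ell n x) ^ 2 + 13312 * ell n x := by
  induction n generalizing x with
  | zero => simp [AA, ell]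
  | succ n ih =>
    rw [integral_PP ((Dep_AA le_rfl x).comp (fun a => a ^ 2)).integrable]
    have h1 : ∀ s : Stp, ∫ u, (AA (n + 1) x (scons s u)) ^ 2 ∂PP
        = ff x ^ 2 + 2 * ff x * m1s n (x + vec s) + ∫ u, (AA n (x + vec s) u) ^ 2 ∂PP := by
      intro s
      simp only [AA_scons]
      have e : (fun u => (ff x + AA n (x + vec s) u) ^ 2)
          = fun u => (ff x ^ 2 + (2 * ff x) * AA n (x + vec s) u) + (AA n (x + vec s) u) ^ 2 := by
        funext u; ring
      rw [e, integral_add, integral_add, integral_const_mul, integral_AA]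
      · simp
      · exact integrable_const _
      · exact (Dep_AA le_rfl _).integrable.const_mul _
      · exact (integrable_const _).add ((Dep_AA le_rfl _).integrable.const_mul _)
      · exact ((Dep_AA le_rfl _).comp (fun a => a ^ 2)).integrable
    have h2 : (1 / 8 : ℝ) * ∑ s : Stp, ∫ u, (AA (n + 1) x (scons s u)) ^ 2 ∂PP
        = ff x ^ 2 + 2 * ff x * Pop (m1s n) x
          + Pop (fun z => ∫ u, (AA n z u) ^ 2 ∂PP) x := by
      have e : (fun z : V4 => ff x ^ 2 + 2 * ff x * m1s n z + ∫ u, (AA n z u) ^ 2 ∂PP)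
        = fun z => ((fun _ => ff x ^ 2) z + (fun z => (2 * ff x) * m1s n z) z)
          + (fun z => ∫ u, (AA n z u) ^ 2 ∂PP) z := rfl
      have h3 : Pop (fun z : V4 => ff x ^ 2 + 2 * ff x * m1s n z + ∫ u, (AA n z u) ^ 2 ∂PP) x
          = ff x ^ 2 + 2 * ff x * Pop (m1s n) x
          + Pop (fun z => ∫ u, (AA n z u) ^ 2 ∂PP) x := by
        rw [e, Pop_add, Pop_add, Pop_const, Pop_smul]
      rw [← h3]
      unfold Pop
      congr 1
      exact Finset.sum_congr rfl (fun s _ => h1 s)
    rw [h2]
    have h4 : Pop (fun z => ∫ u, (AA n z u) ^ 2 ∂PP) x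
        ≤ Pop (fun z => 64 * (ell n z) ^ 2 + 13312 * ell n z) x := Pop_mono ih x
    rw [Pop_add (fun z => 64 * (ell n z) ^ 2) (fun z => 13312 * ell n z), Pop_smul, Pop_smul] at h4
    have h5 := Pop_ell_sq n x
    have h6 := Pop_ell n x
    have h7 : Pop (m1s n) x ≤ Pop (fun z => 8 * ell n z) x := Pop_mono (m1s_le n) x
    rw [Pop_smul] at h7
    have hf := ff_pos x
    nlinarith [mul_le_mul_of_nonneg_left h7 hf.le, mul_le_mul_of_nonneg_left h6 hf.le,
      sq_nonneg (ff x)]

end Pool.Agent.Helper41.NI
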